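import Mathlib

/-!
Circuits of AND gates and OR gates over literals, and their hazards.
-/

namespace Pool.Agent.HazardCircuits

/-- A circuit with `s` gates over the literals of the variables `V`. The literal `(v, true)` is the
variable `v`, the literal `(v, false)` is its negation. The gates are numbered `0, ..., s - 1` in a
topological order; gate `i` is an AND gate if `isAnd i = true` and an OR gate otherwise, and it is
fed by the wires in the finite set `wires i`. A wire is a literal (`Sum.inl l`) or the output of
another gate (`Sum.inr j`). `out` is the output gate. -/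
structure Circuit (V : Type) (s : ℕ) where
  isAnd : Fin s → Bool
  wires : Fin s → Finset ((V × Bool) ⊕ Fin s)
  acyclic : ∀ i j : Fin s, Sum.inr j ∈ wires i → j < i
  out : Fin s

/-- `val` is the vector of the values of all gates of `D` when the literals have the values `z` (it
exists and is unique, since the gates are numbered topologically). -/
def Circuit.IsEval {V : Type} {s : ℕ} (D : Circuit V s) (z : V × Bool → Prop)
    (val : Fin s → Prop) : Prop :=
  ∀ i, val i ↔ if D.isAnd i = true then ∀ w ∈ D.wires i, Sum.elim z val w
    else ∃ w ∈ D.wires i, Sum.elim z val w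

/-- The output of `D` is true when the literals have the values `z`. -/
def Circuit.Accepts {V : Type} {s : ℕ} (D : Circuit V s) (z : V × Bool → Prop) : Prop :=
  ∃ val : Fin s → Prop, D.IsEval z val ∧ val D.out

/-- The values of the literals for the assignment `x`. -/
def lit {V : Type} (x : V → Prop) : V × Bool → Prop := fun l => (x l.1 ↔ l.2 = true)

/-- `D` computes the Boolean function `f`. -/
def Circuit.Computes {V : Type} {s : ℕ} (D : Circuit V s) (f : (V → Prop) → Prop) : Prop :=
  ∀ x : V → Prop, D.Accepts (lit x) ↔ f x

/-- `D` has a 0-hazard at the assignment `x` with the unstable variables `U`: no assignment which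
agrees with `x` outside `U` is accepted, but `D` outputs 1 if both literals of each variable in `U`
are given the value 1 (the literals of the other variables have their values for `x`), i.e. the
output of `D` in Kleene's three-valued logic is unstable. -/
def Circuit.Hazard0 {V : Type} {s : ℕ} (D : Circuit V s) (x : V → Prop) (U : Finset V) : Prop :=
  (∀ y : V → Prop, (∀ v, v ∉ U → (y v ↔ x v)) → ¬ D.Accepts (lit y)) ∧
    D.Accepts fun l => l.1 ∈ U ∨ lit x l

/-- `D` has a 1-hazard at the assignment `x` with the unstable variables `U`: all assignments which
agree with `x` outside `U` are accepted, but `D` outputs 0 if both literals of each variable in `U`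
are given the value 0. -/
def Circuit.Hazard1 {V : Type} {s : ℕ} (D : Circuit V s) (x : V → Prop) (U : Finset V) : Prop :=
  (∀ y : V → Prop, (∀ v, v ∉ U → (y v ↔ x v)) → D.Accepts (lit y)) ∧
    ¬ D.Accepts fun l => l.1 ∉ U ∧ lit x l

/-- `D` has no 0-hazard with at most `k` unstable variables. -/
def Circuit.Free0 {V : Type} {s : ℕ} (D : Circuit V s) (k : ℕ) : Prop :=
  ∀ (x : V → Prop) (U : Finset V), U.card ≤ k → ¬ D.Hazard0 x U

/-- `D` has no 1-hazard with at most `k` unstable variables. -/
def Circuit.Free1 {V : Type} {s : ℕ} (D : Circuit V s) (k : ℕ) : Prop :=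
  ∀ (x : V → Prop) (U : Finset V), U.card ≤ k → ¬ D.Hazard1 x U

/-- `D` has no hazard (of either kind) all of whose unstable variables lie in `T`. -/
def Circuit.FreeIn {V : Type} {s : ℕ} (D : Circuit V s) (T : Finset V) : Prop :=
  ∀ (x : V → Prop) (U : Finset V), U ⊆ T → ¬ D.Hazard0 x U ∧ ¬ D.Hazard1 x U

end Pool.Agent.HazardCircuits
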