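import Mathlib
import Pool.Agent.Lib.MP_0a1b52_lc_SLICE.Defs
import Pool.Agent.Lib.MP_0a1b52_lc_HAZ.Circ

/-!
The clique function.
-/

namespace Pool.Agent.HazardCircuits

/-- The graph given by the assignment `x`. -/
def graphOf {n : ℕ} (x : SliceCircuits.EdgeVar n → Prop) : SimpleGraph (Fin n) where
  Adj u v := (∃ h : u < v, x ⟨(u, v), h⟩) ∨ (∃ h : v < u, x ⟨(v, u), h⟩)
  symm := ⟨fun _ _ h => h.symm⟩
  loopless := ⟨fun _ h => by
    rcases h with ⟨h, -⟩ | ⟨h, -⟩
    · exact lt_irrefl _ h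
    · exact lt_irrefl _ h⟩

/-- `CLIQUE_n` as a Boolean function: the graph has a clique with more than `√n` vertices. -/
def cliqueFn (n : ℕ) : (SliceCircuits.EdgeVar n → Prop) → Prop :=
  fun x => SliceCircuits.HasClique (graphOf x)

end Pool.Agent.HazardCircuits
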