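import Mathlib
import Pool.Agent.Lib.MP_0a1b52_lc_HAZ.Defs

/-!
Circuits for the clique function without hazards of few bits.
-/

namespace Pool.Agent.HazardCircuits

/-- `CLIQUE_n` has circuits of polynomial size without 0-hazards of at most `k n` bits. -/
def PolyFree0 (k : ℕ → ℕ) : Prop :=
  ∃ c N : ℕ, ∀ n ≥ N, ∃ s ≤ n ^ c, ∃ D : Circuit (SliceCircuits.EdgeVar n) s,
    D.Computes (cliqueFn n) ∧ D.Free0 (k n)

/-- `CLIQUE_n` has circuits of polynomial size without 1-hazards of at most `k n` bits. -/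
def PolyFree1 (k : ℕ → ℕ) : Prop :=
  ∃ c N : ℕ, ∀ n ≥ N, ∃ s ≤ n ^ c, ∃ D : Circuit (SliceCircuits.EdgeVar n) s,
    D.Computes (cliqueFn n) ∧ D.Free1 (k n)

/-- `CLIQUE_n` has circuits of quasi-polynomial size. -/
def QuasiPoly : Prop :=
  ∃ c N : ℕ, ∀ n ≥ N, ∃ s ≤ 2 ^ Nat.log 2 n ^ c, ∃ D : Circuit (SliceCircuits.EdgeVar n) s,
    D.Computes (cliqueFn n)

/-- `CLIQUE_n` has circuits of quasi-polynomial size without 0-hazards of at most `k n` bits. -/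
def QuasiPolyFree0 (k : ℕ → ℕ) : Prop :=
  ∃ c N : ℕ, ∀ n ≥ N, ∃ s ≤ 2 ^ Nat.log 2 n ^ c, ∃ D : Circuit (SliceCircuits.EdgeVar n) s,
    D.Computes (cliqueFn n) ∧ D.Free0 (k n)

/-- `CLIQUE_n` has circuits of quasi-polynomial size without 1-hazards of at most `k n` bits. -/
def QuasiPolyFree1 (k : ℕ → ℕ) : Prop :=
  ∃ c N : ℕ, ∀ n ≥ N, ∃ s ≤ 2 ^ Nat.log 2 n ^ c, ∃ D : Circuit (SliceCircuits.EdgeVar n) s,
    D.Computes (cliqueFn n) ∧ D.Free1 (k n)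

end Pool.Agent.HazardCircuits
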