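import Mathlib
import Pool.Agent.Lib.MP_0a1b52_lc_SLICE2.Dist
import Pool.Agent.Lib.MP_0a1b52_lc_HAZ.Defs

/-!
Circuits over literals as circuits without NOT gates, and conversely.
-/

namespace Pool.Agent.HazardCircuits

open Finset

variable {V : Type} {s : ℕ}

/-- A circuit over literals as a circuit without NOT gates. -/
def Circuit.toSlice (D : Circuit V s) : SliceCircuits.Circuit (V × Bool) s where
  gate i := if D.isAnd i = true then .and (D.wires i) else .or (D.wires i)
  acyclic i j h := by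
    refine D.acyclic i j ?_
    by_cases hi : D.isAnd i = true
    · rw [if_pos hi] at h
      exact h
    · rw [if_neg hi] at h
      exact h
  out := D.out

theorem Circuit.toSlice_isEval (D : Circuit V s) (z : V × Bool → Prop) (val : Fin s → Prop) :
    D.toSlice.IsEval z val ↔ D.IsEval z val := by
  refine forall_congr' fun i => ?_
  show (val i ↔ (if D.isAnd i = true then SliceCircuits.Gate.and (D.wires i)
    else SliceCircuits.Gate.or (D.wires i)).value _) ↔ _
  by_cases hi : D.isAnd i = true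
  · rw [if_pos hi, if_pos hi]
    exact Iff.rfl
  · rw [if_neg hi, if_neg hi]
    exact Iff.rfl

theorem Circuit.toSlice_accepts (D : Circuit V s) (z : V × Bool → Prop) :
    D.toSlice.Accepts z ↔ D.Accepts z := by
  refine exists_congr fun val => ?_
  rw [D.toSlice_isEval]
  exact Iff.rfl

theorem Circuit.toSlice_numNot (D : Circuit V s) : D.toSlice.numNot = 0 := by
  classical
  unfold SliceCircuits.Circuit.numNot
  rw [card_eq_zero, eq_empty_iff_forall_notMem]
  intro i hi
  obtain ⟨w, hw⟩ := (mem_filter.1 hi).2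
  change (if D.isAnd i = true then SliceCircuits.Gate.and (D.wires i)
    else SliceCircuits.Gate.or (D.wires i)) = SliceCircuits.Gate.not w at hw
  by_cases h : D.isAnd i = true
  · rw [if_pos h] at hw
    cases hw
  · rw [if_neg h] at hw
    cases hw

theorem Circuit.exists_eval (D : Circuit V s) (z : V × Bool → Prop) : ∃ val, D.IsEval z val := by
  obtain ⟨val, hval⟩ := D.toSlice.exists_eval z
  exact ⟨val, (D.toSlice_isEval z val).1 hval⟩

theorem Circuit.IsEval.unique {D : Circuit V s} {z : V × Bool → Prop} {val val' : Fin s → Prop}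
    (h : D.IsEval z val) (h' : D.IsEval z val') : val = val' :=
  SliceCircuits.Circuit.IsEval.unique ((D.toSlice_isEval z val).2 h)
    ((D.toSlice_isEval z val').2 h')

/-- Circuits over literals are monotone in the literals. -/
theorem Circuit.mono (D : Circuit V s) {z z' : V × Bool → Prop} (hz : ∀ l, z l → z' l)
    (h : D.Accepts z) : D.Accepts z' := by
  rw [← D.toSlice_accepts] at h ⊢
  exact D.toSlice.mono_of_numNot D.toSlice_numNot hz h

/-- A circuit without NOT gates as a circuit over literals. -/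
theorem exists_lit_circuit (E : SliceCircuits.Circuit (V × Bool) s) (hE : E.numNot = 0) :
    ∃ D : Circuit V s, ∀ z, D.Accepts z ↔ E.Accepts z := by
  classical
  have hn : ∀ i w, E.gate i ≠ SliceCircuits.Gate.not w := by
    intro i w hw
    unfold SliceCircuits.Circuit.numNot at hE
    rw [card_eq_zero] at hE
    have : i ∈ (univ.filter fun i => ∃ w, E.gate i = SliceCircuits.Gate.not w) :=
      mem_filter.2 ⟨mem_univ _, w, hw⟩
    rw [hE] at this
    exact notMem_empty _ this
  refine ⟨⟨fun i => match E.gate i with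
      | .and _ => true
      | _ => false, fun i => (E.gate i).wires, E.acyclic, E.out⟩, fun z => ?_⟩
  refine exists_congr fun val => and_congr_left fun _ => forall_congr' fun i => ?_
  show (val i ↔ if (match E.gate i with | .and _ => true | _ => false) = true
    then ∀ w ∈ (E.gate i).wires, Sum.elim z val w
    else ∃ w ∈ (E.gate i).wires, Sum.elim z val w) ↔ (val i ↔ (E.gate i).value _)
  cases hg : E.gate i with
  | and J => simp [SliceCircuits.Gate.wires, SliceCircuits.Gate.value]
  | or J => simp [SliceCircuits.Gate.wires, SliceCircuits.Gate.value]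
  | not w => exact absurd hg (hn i w)

/-- A circuit over literals applied to functions which are already computed. -/
theorem reach_subst {W : Type} {s h s₀ : ℕ} {T : Set (SliceCircuits.BF W)} (D : Circuit V s₀)
    (σ : (W → Prop) → (V × Bool → Prop)) (hR : SliceCircuits.Reach s h T)
    (hσ : ∀ l, (fun x => σ x l) ∈ T) (k : ℕ) :
    ∃ T₁, T ⊆ T₁ ∧ SliceCircuits.Reach (s + k) h T₁ ∧ ∀ i : Fin s₀, i.1 < k → ∃ p ∈ T₁,
      ∀ x val, D.IsEval (σ x) val → (p x ↔ val i) := by
  classical
  induction k with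
  | zero => exact ⟨T, subset_rfl, hR, fun i hi => absurd hi (by simp)⟩
  | succ k ih =>
    obtain ⟨T₁, h1, h2, h3⟩ := ih
    by_cases hk : k < s₀
    swap
    · refine ⟨T₁, h1, h2.mono (by omega) le_rfl subset_rfl, fun i hi => h3 i ?_⟩
      have := i.2
      omega
    have hw : ∀ w : (V × Bool) ⊕ Fin s₀, w ∈ D.wires ⟨k, hk⟩ → ∃ p ∈ T₁,
        ∀ x val, D.IsEval (σ x) val → (p x ↔ Sum.elim (σ x) val w) := by
      intro w hw
      cases w with
      | inl v => exact ⟨_, h1 (hσ v), fun x val _ => Iff.rfl⟩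
      | inr j => exact h3 j (D.acyclic _ j hw)
    choose! p hp hpp using hw
    have key : ∃ f : SliceCircuits.BF W, SliceCircuits.OneGate T₁ f ∧
        ∀ x val, D.IsEval (σ x) val → (f x ↔ val ⟨k, hk⟩) := by
      by_cases hg : D.isAnd ⟨k, hk⟩ = true
      · refine ⟨fun x => ∀ f ∈ p '' (D.wires ⟨k, hk⟩ : Set ((V × Bool) ⊕ Fin s₀)), f x,
          Or.inl ⟨_, (D.wires ⟨k, hk⟩).finite_toSet.image p, ?_, rfl⟩, ?_⟩
        · rintro f ⟨w, hw, rfl⟩
          exact hp w hw
        intro x val hval
        have h4 : val ⟨k, hk⟩ ↔ ∀ w ∈ D.wires ⟨k, hk⟩, Sum.elim (σ x) val w := by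
          have h5 := hval ⟨k, hk⟩
          rw [if_pos hg] at h5
          exact h5
        rw [h4]
        constructor
        · exact fun h5 w hw => (hpp w hw x val hval).1 (h5 _ ⟨w, hw, rfl⟩)
        · rintro h5 f ⟨w, hw, rfl⟩
          exact (hpp w hw x val hval).2 (h5 w hw)
      · refine ⟨fun x => ∃ f ∈ p '' (D.wires ⟨k, hk⟩ : Set ((V × Bool) ⊕ Fin s₀)), f x,
          Or.inr ⟨_, (D.wires ⟨k, hk⟩).finite_toSet.image p, ?_, rfl⟩, ?_⟩
        · rintro f ⟨w, hw, rfl⟩
          exact hp w hw
        intro x val hval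
        have h4 : val ⟨k, hk⟩ ↔ ∃ w ∈ D.wires ⟨k, hk⟩, Sum.elim (σ x) val w := by
          have h5 := hval ⟨k, hk⟩
          rw [if_neg hg] at h5
          exact h5
        rw [h4]
        constructor
        · rintro ⟨f, ⟨w, hw, rfl⟩, h5⟩
          exact ⟨w, hw, (hpp w hw x val hval).1 h5⟩
        · rintro ⟨w, hw, h5⟩
          exact ⟨_, ⟨w, hw, rfl⟩, (hpp w hw x val hval).2 h5⟩
    obtain ⟨f, hf, hff⟩ := key
    refine ⟨insert f T₁, h1.trans (Set.subset_insert _ _), h2.one hf, ?_⟩
    intro i hi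
    rcases Nat.lt_succ_iff_lt_or_eq.1 hi with h4 | h4
    · obtain ⟨q, hq, h5⟩ := h3 i h4
      exact ⟨q, Or.inr hq, h5⟩
    · have h5 : i = ⟨k, hk⟩ := Fin.ext h4
      subst h5
      exact ⟨f, Or.inl rfl, hff⟩

theorem reach_subst_accepts {W : Type} {s h s₀ : ℕ} {T : Set (SliceCircuits.BF W)}
    (D : Circuit V s₀) (σ : (W → Prop) → (V × Bool → Prop)) (hR : SliceCircuits.Reach s h T)
    (hσ : ∀ l, (fun x => σ x l) ∈ T) :
    ∃ T₁, T ⊆ T₁ ∧ SliceCircuits.Reach (s + s₀) h T₁ ∧ (fun x => D.Accepts (σ x)) ∈ T₁ := by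
  obtain ⟨T₁, h1, h2, h3⟩ := reach_subst D σ hR hσ s₀
  obtain ⟨p, hp, hpp⟩ := h3 D.out D.out.2
  refine ⟨T₁, h1, h2, ?_⟩
  have h4 : (fun x => D.Accepts (σ x)) = p := by
    funext x
    obtain ⟨val, hval⟩ := D.exists_eval (σ x)
    apply propext
    rw [hpp x val hval]
    constructor
    · rintro ⟨val', h7, h8⟩
      rw [hval.unique h7]
      exact h8
    · exact fun h7 => ⟨val, hval, h7⟩
  rw [h4]
  exact hp

end Pool.Agent.HazardCircuits
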