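import Mathlib

/-!
Families of colourings of a finite set which separate all small subsets.
-/

namespace Pool.Agent.HazardCircuits

open Finset

variable {V : Type} [Fintype V] [DecidableEq V]

/-- The colourings which are injective on `U`. -/
def injCol (m : ℕ) (U : Finset V) : Finset (V → Fin m) :=
  univ.filter fun ω => ∀ u ∈ U, ∀ v ∈ U, ω u = ω v → u = v

theorem mem_injCol {m : ℕ} {U : Finset V} {ω : V → Fin m} :
    ω ∈ injCol m U ↔ ∀ u ∈ U, ∀ v ∈ U, ω u = ω v → u = v := by
  unfold injCol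
  simp

theorem injCol_insert (m : ℕ) (U : Finset V) (a : V) (ha : a ∉ U) (hm : 2 * U.card ≤ m) :
    (injCol m U).card ≤ 2 * (injCol m (insert a U)).card := by
  classical
  rcases Nat.eq_zero_or_pos m with rfl | hm0
  · have : (injCol 0 U).card = 0 := by
      rw [card_eq_zero, eq_empty_iff_forall_notMem]
      intro ω _
      exact (ω a).elim0
    omega
  -- pairs (ω, c) with ω injective on U and update ω a c injective on insert a U
  set P := (injCol m U ×ˢ (univ : Finset (Fin m))).filter fun p =>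
    Function.update p.1 a p.2 ∈ injCol m (insert a U) with hP
  have h1 : P.card = (injCol m (insert a U)).card * m := by
    have h2 : ((injCol m (insert a U)) ×ˢ (univ : Finset (Fin m))).card =
        (injCol m (insert a U)).card * m := by
      rw [card_product, card_univ, Fintype.card_fin]
    rw [← h2]
    refine card_bij' (fun p _ => (Function.update p.1 a p.2, p.1 a))
      (fun p _ => (Function.update p.1 a p.2, p.1 a)) ?_ ?_ ?_ ?_
    · intro p hp
      exact mem_product.2 ⟨(mem_filter.1 hp).2, mem_univ _⟩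
    · intro p hp
      have hp1 := (mem_product.1 hp).1
      rw [hP, mem_filter, mem_product]
      refine ⟨⟨?_, mem_univ _⟩, ?_⟩
      · rw [mem_injCol] at hp1 ⊢
        intro u hu v hv huv
        have hua : u ≠ a := fun h => ha (h ▸ hu)
        have hva : v ≠ a := fun h => ha (h ▸ hv)
        simp only [Function.update_of_ne hua, Function.update_of_ne hva] at huv
        exact hp1 u (mem_insert_of_mem hu) v (mem_insert_of_mem hv) huv
      · simp only [Function.update_idem, Function.update_eq_self]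
        exact hp1
    · intro p _
      simp
    · intro p _
      simp
  have h2 : (injCol m U).card * m ≤ 2 * P.card := by
    have h3 : P.card = ∑ ω ∈ injCol m U,
        ((univ : Finset (Fin m)).filter fun c =>
          Function.update ω a c ∈ injCol m (insert a U)).card := by
      rw [hP, card_filter, sum_product]
      refine sum_congr rfl fun ω _ => ?_
      rw [card_filter]
    rw [h3, mul_sum, ← smul_eq_mul, ← sum_const]
    refine sum_le_sum fun ω hω => ?_
    have h4 : (univ : Finset (Fin m)) \ U.image ω ⊆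
        (univ : Finset (Fin m)).filter fun c =>
          Function.update ω a c ∈ injCol m (insert a U) := by
      intro c hc
      have hc' := (mem_sdiff.1 hc).2
      refine mem_filter.2 ⟨mem_univ _, ?_⟩
      rw [mem_injCol] at hω ⊢
      intro u hu v hv huv
      rcases mem_insert.1 hu with hu | hu <;> rcases mem_insert.1 hv with hv | hv
      · rw [hu, hv]
      · have hva : v ≠ a := fun h => ha (h ▸ hv)
        rw [hu, Function.update_self, Function.update_of_ne hva] at huv
        exact absurd (mem_image.2 ⟨v, hv, huv.symm⟩) hc'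
      · have hua : u ≠ a := fun h => ha (h ▸ hu)
        rw [hv, Function.update_self, Function.update_of_ne hua] at huv
        exact absurd (mem_image.2 ⟨u, hu, huv⟩) hc'
      · have hua : u ≠ a := fun h => ha (h ▸ hu)
        have hva : v ≠ a := fun h => ha (h ▸ hv)
        rw [Function.update_of_ne hua, Function.update_of_ne hva] at huv
        exact hω u hu v hv huv
    have h5 := card_le_card h4
    have h6 : ((univ : Finset (Fin m)) \ U.image ω).card + (U.image ω).card = m := by
      rw [card_sdiff_add_card_eq_card (subset_univ _), card_univ, Fintype.card_fin]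
    have h7 : (U.image ω).card ≤ U.card := card_image_le
    omega
  rw [h1] at h2
  have h3 : (injCol m U).card * m ≤ 2 * (injCol m (insert a U)).card * m := by
    calc (injCol m U).card * m ≤ 2 * ((injCol m (insert a U)).card * m) := h2
      _ = _ := by ring
  exact Nat.le_of_mul_le_mul_right h3 hm0

/-- A fraction of at least `2 ^ (-|U|)` of all colourings is injective on `U`. -/
theorem card_injCol (m k : ℕ) (hm : 2 * k ≤ m) (U : Finset V) (hU : U.card ≤ k) :
    m ^ Fintype.card V ≤ 2 ^ U.card * (injCol m U).card := by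
  classical
  induction U using Finset.induction_on with
  | empty =>
    have h1 : injCol m (∅ : Finset V) = univ := by
      ext ω
      simp [injCol]
    rw [h1, card_univ, Fintype.card_fun, Fintype.card_fin]
    simp
  | insert a U ha ih =>
    rw [card_insert_of_notMem ha] at hU ⊢
    have h1 := ih (by omega)
    have h2 := injCol_insert m U a ha (by omega)
    calc m ^ Fintype.card V ≤ 2 ^ U.card * (injCol m U).card := h1
      _ ≤ 2 ^ U.card * (2 * (injCol m (insert a U)).card) := Nat.mul_le_mul_left _ h2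
      _ = 2 ^ (U.card + 1) * (injCol m (insert a U)).card := by ring

/-- One colouring separates a fraction of at least `2 ^ (-k)` of the sets in `S`. -/
theorem exists_col (m k : ℕ) (hm : 2 * k ≤ m) (hm0 : 0 < m) (S : Finset (Finset V))
    (hS : ∀ U ∈ S, U.card ≤ k) :
    ∃ ω : V → Fin m, S.card ≤ 2 ^ k * (S.filter fun U => ω ∈ injCol m U).card := by
  classical
  by_contra hcon
  push Not at hcon
  have h1 : ∑ ω : V → Fin m, 2 ^ k * (S.filter fun U => ω ∈ injCol m U).card <
      ∑ _ω : V → Fin m, S.card := by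
    refine sum_lt_sum_of_nonempty ?_ fun ω _ => hcon ω
    have : Nonempty (Fin m) := ⟨⟨0, hm0⟩⟩
    exact univ_nonempty
  rw [sum_const, card_univ, Fintype.card_fun, Fintype.card_fin, smul_eq_mul, ← mul_sum] at h1
  have h2 : ∑ ω : V → Fin m, (S.filter fun U => ω ∈ injCol m U).card =
      ∑ U ∈ S, (injCol m U).card := by
    simp only [card_filter]
    rw [sum_comm]
    refine sum_congr rfl fun U _ => ?_
    rw [← card_filter]
    congr 1
    ext ω
    simp
  rw [h2, mul_sum] at h1
  have h3 : ∑ U ∈ S, m ^ Fintype.card V ≤ ∑ U ∈ S, 2 ^ k * (injCol m U).card := by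
    refine sum_le_sum fun U hU => ?_
    refine (card_injCol m k hm U (hS U hU)).trans ?_
    exact Nat.mul_le_mul_right _ (Nat.pow_le_pow_right (by norm_num) (hS U hU))
  rw [sum_const, smul_eq_mul] at h3
  have h4 : m ^ Fintype.card V * S.card = S.card * m ^ Fintype.card V := Nat.mul_comm _ _
  omega

/-- After `j` colourings at most a fraction of `(1 - 2 ^ (-k)) ^ j` of the sets is left. -/
theorem exists_family_aux (m k : ℕ) (hm : 2 * k ≤ m) (hm0 : 0 < m) (S : Finset (Finset V))
    (hS : ∀ U ∈ S, U.card ≤ k) (j : ℕ) :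
    ∃ Ω : Finset (V → Fin m), Ω.card ≤ j ∧
      (2 ^ k) ^ j * (S.filter fun U => ∀ ω ∈ Ω, ω ∉ injCol m U).card ≤
        (2 ^ k - 1) ^ j * S.card := by
  classical
  induction j with
  | zero =>
    refine ⟨∅, by simp, ?_⟩
    simp
  | succ j ih =>
    obtain ⟨Ω, h1, h2⟩ := ih
    set S' := S.filter fun U => ∀ ω ∈ Ω, ω ∉ injCol m U with hS'
    obtain ⟨ω, hω⟩ := exists_col m k hm hm0 S' (fun U hU => hS U (mem_filter.1 hU).1)
    refine ⟨insert ω Ω, (card_insert_le _ _).trans (by omega), ?_⟩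
    have h3 : (S.filter fun U => ∀ ω' ∈ insert ω Ω, ω' ∉ injCol m U) =
        S'.filter fun U => ¬ ω ∈ injCol m U := by
      ext U
      simp only [hS', mem_filter, mem_insert, forall_eq_or_imp]
      tauto
    rw [h3]
    have h4 := card_filter_add_card_filter_not (s := S') (fun U => ω ∈ injCol m U)
    set A := (S'.filter fun U => ω ∈ injCol m U).card with hA
    set B := (S'.filter fun U => ¬ ω ∈ injCol m U).card with hB
    have h5 : 2 ^ k * B ≤ (2 ^ k - 1) * S'.card := by
      have h6 : 1 ≤ 2 ^ k := Nat.one_le_two_pow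
      have h7 : (2 ^ k - 1) * S'.card + S'.card = 2 ^ k * S'.card := by
        obtain ⟨q, hq⟩ : ∃ q, 2 ^ k = q + 1 := ⟨2 ^ k - 1, by omega⟩
        rw [hq, Nat.add_sub_cancel]
        ring
      have h8 : 2 ^ k * S'.card = 2 ^ k * A + 2 ^ k * B := by
        rw [← h4]
        ring
      omega
    calc (2 ^ k) ^ (j + 1) * B = (2 ^ k) ^ j * (2 ^ k * B) := by ring
      _ ≤ (2 ^ k) ^ j * ((2 ^ k - 1) * S'.card) := Nat.mul_le_mul_left _ h5
      _ = (2 ^ k - 1) * ((2 ^ k) ^ j * S'.card) := by ring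
      _ ≤ (2 ^ k - 1) * ((2 ^ k - 1) ^ j * S.card) := Nat.mul_le_mul_left _ h2
      _ = (2 ^ k - 1) ^ (j + 1) * S.card := by ring

/-- `2 (q - 1) ^ q ≤ q ^ q`. -/
theorem two_mul_pow_le (q : ℕ) (hq : 1 ≤ q) : 2 * (q - 1) ^ q ≤ q ^ q := by
  obtain ⟨p, rfl⟩ : ∃ p, q = p + 1 := ⟨q - 1, by omega⟩
  rw [Nat.add_sub_cancel]
  -- (p + 1) ^ (p + 1) ≥ p ^ (p + 1) + (p + 1) p ^ p ≥ 2 p ^ (p + 1)
  have h1 : p ^ (p + 1) + (p + 1) * p ^ p ≤ (p + 1) ^ (p + 1) := by
    have h2 := add_pow p 1 (p + 1)
    rw [h2]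
    simp only [one_pow, mul_one]
    rw [sum_range_succ, sum_range_succ]
    simp only [Nat.choose_self, Nat.cast_one, mul_one]
    have h3 : (p + 1).choose p = p + 1 := by
      rw [Nat.choose_succ_self_right]
    rw [h3]
    have h4 : (p + 1) * p ^ p = p ^ p * ((p + 1 : ℕ) : ℕ) := Nat.mul_comm _ _
    simp only [Nat.cast_id]
    omega
  have h3 : p ^ (p + 1) ≤ (p + 1) * p ^ p := by
    rw [pow_succ, Nat.mul_comm]
    exact Nat.mul_le_mul_right _ (Nat.le_succ p)
  omega

theorem exists_family (m k : ℕ) (hm : 2 * k ≤ m) (hm0 : 0 < m) (t : ℕ) (S : Finset (Finset V))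
    (hS : ∀ U ∈ S, U.card ≤ k) (ht : S.card < 2 ^ t) :
    ∃ Ω : Finset (V → Fin m), Ω.card ≤ 2 ^ k * t ∧ ∀ U ∈ S, ∃ ω ∈ Ω, ω ∈ injCol m U := by
  classical
  obtain ⟨Ω, h1, h2⟩ := exists_family_aux m k hm hm0 S hS (2 ^ k * t)
  refine ⟨Ω, h1, fun U hU => ?_⟩
  by_contra hcon
  push Not at hcon
  have h3 : 1 ≤ (S.filter fun U => ∀ ω ∈ Ω, ω ∉ injCol m U).card :=
    card_pos.2 ⟨U, mem_filter.2 ⟨hU, hcon⟩⟩
  obtain ⟨q, hq⟩ : ∃ q, q = 2 ^ k := ⟨_, rfl⟩
  have hq1 : 1 ≤ q := by
    rw [hq]
    exact Nat.one_le_two_pow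
  rw [← hq] at h2
  have h4 : 2 ^ t * (q - 1) ^ (q * t) ≤ q ^ (q * t) := by
    rw [pow_mul, pow_mul, ← mul_pow]
    exact Nat.pow_le_pow_left (two_mul_pow_le q hq1) t
  have h5 : q ^ (q * t) ≤ (q - 1) ^ (q * t) * S.card := by
    calc q ^ (q * t) = q ^ (q * t) * 1 := (mul_one _).symm
      _ ≤ _ := (Nat.mul_le_mul_left _ h3).trans h2
  have h6 : 0 < q ^ (q * t) := Nat.pow_pos (by omega)
  have h7 : 0 < (q - 1) ^ (q * t) := by
    rcases Nat.eq_zero_or_pos ((q - 1) ^ (q * t)) with h | h
    · rw [h] at h5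
      omega
    · exact h
  have h8 : (q - 1) ^ (q * t) * S.card < (q - 1) ^ (q * t) * 2 ^ t :=
    Nat.mul_lt_mul_of_pos_left ht h7
  have h9 : (q - 1) ^ (q * t) * 2 ^ t = 2 ^ t * (q - 1) ^ (q * t) := Nat.mul_comm _ _
  omega

/-- A family of `4 ^ k (log₂ N + 1)` colourings with `2 k` colours which separates every set of at
most `k` elements. -/
theorem hash_family (k : ℕ) (hk : 1 ≤ k) :
    ∃ Ω : Finset (V → Fin (2 * k)), Ω.card ≤ 4 ^ k * (Nat.log 2 (Fintype.card V) + 2) ∧
      ∀ U : Finset V, U.card ≤ k → ∃ ω ∈ Ω, ∀ u ∈ U, ∀ v ∈ U, ω u = ω v → u = v := by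
  classical
  set N := Fintype.card V with hN
  set L := Nat.log 2 N with hL
  set S := (univ : Finset (Finset V)).filter fun U => U.card ≤ k with hS
  have hNL : N < 2 ^ (L + 1) := Nat.lt_pow_succ_log_self (by norm_num) N
  have hcard : S.card < 2 ^ ((L + 2) * k + 1) := by
    have h1 : S ⊆ (range (k + 1)).biUnion fun j => powersetCard j univ := by
      intro U hU
      refine mem_biUnion.2 ⟨U.card, mem_range.2 (Nat.lt_succ_of_le (mem_filter.1 hU).2), ?_⟩
      exact mem_powersetCard.2 ⟨subset_univ _, rfl⟩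
    have h2 : S.card ≤ ∑ j ∈ range (k + 1), N.choose j := by
      refine (card_le_card h1).trans (card_biUnion_le.trans ?_)
      refine sum_le_sum fun j _ => ?_
      rw [card_powersetCard, card_univ]
    have h3 : ∑ j ∈ range (k + 1), N.choose j ≤ ∑ j ∈ range (k + 1), (2 ^ (L + 1)) ^ k := by
      refine sum_le_sum fun j hj => ?_
      have hj' : j ≤ k := Nat.lt_succ_iff.1 (mem_range.1 hj)
      calc N.choose j ≤ N ^ j := Nat.choose_le_pow _ _
        _ ≤ (2 ^ (L + 1)) ^ j := Nat.pow_le_pow_left hNL.le _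
        _ ≤ (2 ^ (L + 1)) ^ k := Nat.pow_le_pow_right (by positivity) hj'
    rw [sum_const, card_range, smul_eq_mul] at h3
    have h4 : k + 1 ≤ 2 ^ k := Nat.lt_two_pow_self
    calc S.card ≤ (k + 1) * (2 ^ (L + 1)) ^ k := h2.trans h3
      _ ≤ 2 ^ k * (2 ^ (L + 1)) ^ k := Nat.mul_le_mul_right _ h4
      _ = 2 ^ ((L + 2) * k) := by rw [← pow_mul, ← pow_add]; congr 1; ring
      _ < 2 ^ ((L + 2) * k + 1) := Nat.pow_lt_pow_right (by norm_num) (Nat.lt_succ_self _)
  obtain ⟨Ω, h1, h2⟩ := exists_family (2 * k) k le_rfl (by omega) ((L + 2) * k + 1) S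
    (fun U hU => (mem_filter.1 hU).2) hcard
  refine ⟨Ω, h1.trans ?_, fun U hU => ?_⟩
  · have h4 : k + 1 ≤ 2 ^ k := Nat.lt_two_pow_self
    have h5 : (L + 2) * k + 1 ≤ 2 ^ k * (L + 2) := by
      calc (L + 2) * k + 1 ≤ (L + 2) * k + (L + 2) := by omega
        _ = (k + 1) * (L + 2) := by ring
        _ ≤ 2 ^ k * (L + 2) := Nat.mul_le_mul_right _ h4
    calc 2 ^ k * ((L + 2) * k + 1) ≤ 2 ^ k * (2 ^ k * (L + 2)) := Nat.mul_le_mul_left _ h5
      _ = (2 * 2) ^ k * (L + 2) := by
        rw [← mul_assoc, ← mul_pow]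
      _ = 4 ^ k * (L + 2) := rfl
  · obtain ⟨ω, hω, h3⟩ := h2 U (mem_filter.2 ⟨mem_univ _, hU⟩)
    exact ⟨ω, hω, mem_injCol.1 h3⟩

end Pool.Agent.HazardCircuits
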