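import Mathlib
import Pool.Agent.Lib.MP_0a1b52_lc_HAZ.Conv
import Pool.Agent.Lib.MP_0a1b52_lc_HAZ.Hash
import Pool.Agent.Lib.MP_0a1b52_lc_SLICE.Thr

/-!
Every function has a circuit without 0-hazards of at most `k` bits whose size is at most
`30 * 16 ^ k` times the cube of its circuit size.
-/

namespace Pool.Agent.HazardCircuits

open Finset

variable {V : Type}

/-- The monotone extension of `the parity of the variables in A is τ`. -/
def Par (A : Finset V) (τ : Bool) : SliceCircuits.BF (V × Bool) := fun z =>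
  ∃ B ⊆ A, (B.card % 2 = 1 ↔ τ = true) ∧ (∀ j ∈ B, z (j, true)) ∧ ∀ j ∈ A, j ∉ B → z (j, false)

theorem par_empty (τ : Bool) (z : V × Bool → Prop) : Par ∅ τ z ↔ τ = false := by
  constructor
  · rintro ⟨B, hB, h1, -, -⟩
    rw [subset_empty.1 hB, card_empty] at h1
    cases τ with
    | false => rfl
    | true => exact absurd (h1.2 rfl) (by norm_num)
  · rintro rfl
    exact ⟨∅, subset_rfl, by simp, fun j hj => absurd hj (notMem_empty j),
      fun j hj => absurd hj (notMem_empty j)⟩

theorem par_insert [DecidableEq V] {A : Finset V} {a : V} (ha : a ∉ A) (τ : Bool)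
    (z : V × Bool → Prop) :
    Par (insert a A) τ z ↔ (z (a, true) ∧ Par A (!τ) z) ∨ (z (a, false) ∧ Par A τ z) := by
  constructor
  · rintro ⟨B, hB, h1, h2, h3⟩
    by_cases haB : a ∈ B
    · refine Or.inl ⟨h2 a haB, B.erase a, ?_, ?_, ?_, ?_⟩
      · intro j hj
        exact (mem_insert.1 (hB (mem_of_mem_erase hj))).resolve_left (ne_of_mem_erase hj)
      · have h4 : (B.erase a).card + 1 = B.card := card_erase_add_one haB
        have h5 : ((B.erase a).card % 2 = 1 ↔ ¬ B.card % 2 = 1) := by omega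
        rw [h5, h1]
        cases τ <;> simp
      · exact fun j hj => h2 j (mem_of_mem_erase hj)
      · intro j hj hjB
        refine h3 j (mem_insert_of_mem hj) fun h4 => hjB (mem_erase.2 ⟨?_, h4⟩)
        rintro rfl
        exact ha hj
    · refine Or.inr ⟨h3 a (mem_insert_self _ _) haB, B, ?_, h1, h2, ?_⟩
      · intro j hj
        refine (mem_insert.1 (hB hj)).resolve_left ?_
        rintro rfl
        exact haB hj
      · exact fun j hj hjB => h3 j (mem_insert_of_mem hj) hjB
  · rintro (⟨h0, B, hB, h1, h2, h3⟩ | ⟨h0, B, hB, h1, h2, h3⟩)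
    · have haB : a ∉ B := fun h4 => ha (hB h4)
      refine ⟨insert a B, insert_subset_insert a hB, ?_, ?_, ?_⟩
      · rw [card_insert_of_notMem haB]
        have h5 : ((B.card + 1) % 2 = 1 ↔ ¬ B.card % 2 = 1) := by omega
        rw [h5, h1]
        cases τ <;> simp
      · intro j hj
        rcases mem_insert.1 hj with rfl | hj
        · exact h0
        · exact h2 j hj
      · intro j hj hjB
        rcases mem_insert.1 hj with rfl | hj
        · exact absurd (mem_insert_self _ _) hjB
        · exact h3 j hj fun h4 => hjB (mem_insert_of_mem h4)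
    · have haB : a ∉ B := fun h4 => ha (hB h4)
      refine ⟨B, hB.trans (subset_insert a A), h1, h2, ?_⟩
      intro j hj hjB
      rcases mem_insert.1 hj with rfl | hj
      · exact h0
      · exact h3 j hj hjB

/-- The value of `Par` if the literals of the variables in `A` are proper. -/
theorem par_exact [DecidableEq V] {A : Finset V} {x : V → Prop} {z : V × Bool → Prop}
    (hz : ∀ j ∈ A, ∀ b : Bool, z (j, b) ↔ (x j ↔ b = true)) (τ : Bool) :
    Par A τ z ↔ ¬ Par A (!τ) z := by
  induction A using Finset.induction_on generalizing τ with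
  | empty =>
    rw [par_empty, par_empty]
    cases τ <;> simp
  | insert a A ha ih =>
    rw [par_insert ha, par_insert ha]
    have h1 := hz a (mem_insert_self _ _) true
    have h2 := hz a (mem_insert_self _ _) false
    have h3 := ih (fun j hj => hz j (mem_insert_of_mem hj)) τ
    have h4 := ih (fun j hj => hz j (mem_insert_of_mem hj)) (!τ)
    have h5 : (!!τ) = τ := Bool.not_not τ
    rw [h5] at h4 ⊢
    by_cases hx : x a
    · simp only [hx] at h1 h2
      simp only [h1, h2]
      simp
      exact h4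
    · simp only [hx] at h1 h2
      simp only [h1, h2]
      simp
      exact h3

theorem reach_par [DecidableEq V] {s h : ℕ} {T : Set (SliceCircuits.BF (V × Bool))}
    (hR : SliceCircuits.Reach s h T) (hlit : ∀ l, (fun z : V × Bool → Prop => z l) ∈ T)
    (h1 : (fun _ : V × Bool → Prop => True) ∈ T) (h0 : (fun _ : V × Bool → Prop => False) ∈ T)
    (A : Finset V) :
    ∃ T₁, T ⊆ T₁ ∧ SliceCircuits.Reach (s + 6 * A.card) h T₁ ∧ ∀ τ, Par A τ ∈ T₁ := by
  classical
  induction A using Finset.induction_on with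
  | empty =>
    refine ⟨T, subset_rfl, by simpa using hR, fun τ => ?_⟩
    have h2 : Par (∅ : Finset V) τ = fun _ => (τ = false) := by
      funext z
      exact propext (par_empty τ z)
    rw [h2]
    cases τ
    · simpa using h1
    · simpa using h0
  | insert a A ha ih =>
    obtain ⟨T₁, hT, hR₁, hP⟩ := ih
    have step : ∀ (τ : Bool) (s' : ℕ) (T' : Set (SliceCircuits.BF (V × Bool))), T₁ ⊆ T' →
        SliceCircuits.Reach s' h T' → ∃ T₂, T' ⊆ T₂ ∧ SliceCircuits.Reach (s' + 3) h T₂ ∧
          Par (insert a A) τ ∈ T₂ := by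
      intro τ s' T' hT' hR'
      have r1 := hR'.one (SliceCircuits.oneGate_and (hT' (hT (hlit (a, true))))
        (hT' (hP (!τ))))
      have r2 := r1.one (SliceCircuits.oneGate_and
        (Set.mem_insert_of_mem _ (hT' (hT (hlit (a, false)))))
        (Set.mem_insert_of_mem _ (hT' (hP τ))))
      have r3 := r2.one (SliceCircuits.oneGate_or
        (Set.mem_insert_of_mem _ (Set.mem_insert _ _)) (Set.mem_insert _ _))
      refine ⟨_, fun f hf => Or.inr (Or.inr (Or.inr hf)), r3, Or.inl ?_⟩
      funext z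
      exact propext (par_insert ha τ z)
    obtain ⟨T₂, h2, h3, h4⟩ := step true _ T₁ subset_rfl hR₁
    obtain ⟨T₃, h5, h6, h7⟩ := step false _ T₂ h2 h3
    refine ⟨T₃, (hT.trans h2).trans h5, h6.mono ?_ le_rfl subset_rfl, fun τ => ?_⟩
    · rw [card_insert_of_notMem ha]
      omega
    · cases τ
      · exact h7
      · exact h5 h4

/-- The other elements with the same colour as `i`. -/
def cls [Fintype V] [DecidableEq V] {m : ℕ} (ω : V → Fin m) (i : V) : Finset V :=
  (univ.filter fun j => ω j = ω i).erase i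

/-- The literals, each one combined with the monotone extension of the parity of its class. -/
def sub [Fintype V] [DecidableEq V] {m : ℕ} (ω : V → Fin m) (v : Fin m → Bool)
    (z : V × Bool → Prop) : V × Bool → Prop :=
  fun l => z l ∧ Par (cls ω l.1) (xor (v (ω l.1)) l.2) z

/-- On a proper assignment, the substitution with the right parities is the identity. -/
theorem exists_sub_eq [Fintype V] [DecidableEq V] {m : ℕ} (ω : V → Fin m) (x : V → Prop) :
    ∃ v : Fin m → Bool, ∀ l, lit x l → sub ω v (lit x) l := by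
  classical
  refine ⟨fun c => decide (Par (univ.filter fun j => ω j = c) true (lit x)), ?_⟩
  rintro ⟨i, b⟩ hl
  refine ⟨hl, ?_⟩
  have hpr : ∀ A : Finset V, ∀ j ∈ A, ∀ b : Bool, lit x (j, b) ↔ (x j ↔ b = true) :=
    fun _ _ _ _ => Iff.rfl
  set v : Bool := decide (Par (univ.filter fun j => ω j = ω i) true (lit x)) with hv
  have hi : i ∈ univ.filter fun j => ω j = ω i := mem_filter.2 ⟨mem_univ _, rfl⟩
  have hi' : i ∉ cls ω i := notMem_erase _ _
  have hins : insert i (cls ω i) = univ.filter fun j => ω j = ω i := insert_erase hi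
  have h1 : Par (univ.filter fun j => ω j = ω i) v (lit x) := by
    by_cases h2 : Par (univ.filter fun j => ω j = ω i) true (lit x)
    · have h3 : v = true := by rw [hv]; exact decide_eq_true h2
      rw [h3]
      exact h2
    · have h3 : v = false := by rw [hv]; exact decide_eq_false h2
      rw [h3]
      by_contra h4
      exact h2 ((par_exact (hpr _) true).2 h4)
  rw [← hins, par_insert hi'] at h1
  show Par (cls ω i) (xor v b) (lit x)
  cases b with
  | true =>
    have hx : x i := hl.2 rfl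
    rw [Bool.xor_true]
    rcases h1 with ⟨-, h2⟩ | ⟨h2, -⟩
    · exact h2
    · exact absurd (h2.1 hx) (by simp)
  | false =>
    have hx : ¬ x i := fun h => absurd (hl.1 h) (by simp)
    rw [Bool.xor_false]
    rcases h1 with ⟨h2, -⟩ | ⟨-, h2⟩
    · exact absurd (h2.2 rfl) hx
    · exact h2

/-- If `ω` is injective on `U`, the substitution is below a proper assignment which agrees with `x`
outside `U`. -/
theorem sub_le_lit [Fintype V] [DecidableEq V] {m : ℕ} (ω : V → Fin m) (v : Fin m → Bool)
    (x : V → Prop) (U : Finset V) (hω : ∀ a ∈ U, ∀ b ∈ U, ω a = ω b → a = b) :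
    ∃ y : V → Prop, (∀ a, a ∉ U → (y a ↔ x a)) ∧
      ∀ l, sub ω v (fun l => l.1 ∈ U ∨ lit x l) l → lit y l := by
  classical
  set z : V × Bool → Prop := fun l => l.1 ∈ U ∨ lit x l with hz
  refine ⟨fun i => if i ∈ U then Par (cls ω i) (xor (v (ω i)) true) z else x i, ?_, ?_⟩
  · intro a ha
    show (if a ∈ U then _ else x a) ↔ x a
    rw [if_neg ha]
  rintro ⟨i, b⟩ ⟨h1, h2⟩
  show (if i ∈ U then _ else x i) ↔ b = true
  by_cases hi : i ∈ U
  swap
  · rw [if_neg hi]
    exact h1.resolve_left hi
  rw [if_pos hi]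
  have hpr : ∀ j ∈ cls ω i, ∀ b : Bool, z (j, b) ↔ (x j ↔ b = true) := by
    intro j hj b
    obtain ⟨h3, h4⟩ := mem_erase.1 hj
    have hj' : j ∉ U := fun h5 => h3 (hω j h5 i hi (mem_filter.1 h4).2)
    exact ⟨fun h5 => h5.resolve_left hj', fun h5 => Or.inr h5⟩
  cases b with
  | true => exact ⟨fun _ => rfl, fun _ => h2⟩
  | false =>
    have h3 : Par (cls ω i) (xor (v (ω i)) false) z := h2
    rw [par_exact hpr] at h3
    have h4 : (!(xor (v (ω i)) false)) = xor (v (ω i)) true := by
      cases v (ω i) <;> rfl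
    rw [h4] at h3
    exact ⟨fun h5 => absurd h5 h3, fun h5 => absurd h5 (by simp)⟩

/-- The numerical estimate. -/
theorem size_bound {N s P L : ℕ} (hs : 1 ≤ s) (hP : 1 ≤ P) (hL : L ≤ N) :
    2 + P * (L + 2) * (6 * N * N + (P * (2 * N + s) + 1)) + 1 ≤ 30 * P ^ 2 * (N + s) ^ 3 := by
  obtain ⟨a, ha⟩ : ∃ a, a = N + s := ⟨_, rfl⟩
  have h1 : 1 ≤ a := by omega
  have h2 : L + 2 ≤ 2 * a := by omega
  have h3 : 6 * N * N + (P * (2 * N + s) + 1) ≤ P * (9 * a ^ 2) := by
    have h4 : 6 * N * N ≤ P * (6 * a ^ 2) := by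
      calc 6 * N * N ≤ 6 * a * a := by gcongr <;> omega
        _ = 1 * (6 * a ^ 2) := by ring
        _ ≤ P * (6 * a ^ 2) := Nat.mul_le_mul_right _ hP
    have h5 : P * (2 * N + s) ≤ P * (2 * a ^ 2) := by
      refine Nat.mul_le_mul_left _ ?_
      calc 2 * N + s ≤ 2 * a := by omega
        _ = 2 * a * 1 := by ring
        _ ≤ 2 * a * a := Nat.mul_le_mul_left _ h1
        _ = 2 * a ^ 2 := by ring
    have h6 : 1 ≤ P * a ^ 2 := Nat.mul_pos hP (pow_pos h1 2)
    have e1 : P * (9 * a ^ 2) = P * (6 * a ^ 2) + (P * (2 * a ^ 2) + P * a ^ 2) := by ring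
    omega
  have h4 : P * (L + 2) * (6 * N * N + (P * (2 * N + s) + 1)) ≤
      P * (2 * a) * (P * (9 * a ^ 2)) := by gcongr
  have h5 : 1 ≤ P ^ 2 * a ^ 3 := Nat.mul_pos (pow_pos hP 2) (pow_pos h1 3)
  have e2 : P * (2 * a) * (P * (9 * a ^ 2)) = 18 * (P ^ 2 * a ^ 3) := by ring
  have e3 : 30 * P ^ 2 * (N + s) ^ 3 = 30 * (P ^ 2 * a ^ 3) := by rw [← ha]; ring
  omega

end Pool.Agent.HazardCircuits
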