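import Mathlib
import Pool.Agent.Lib.MP_0a1b52_lc_HAZ.Upper

/-!
Every function has a circuit without 0-hazards of at most `k` bits (and one without 1-hazards of at
most `k` bits) whose size is at most `30 * 16 ^ k` times the cube of its circuit size.
-/

namespace Pool.Agent.HazardCircuits

open Finset

variable {V : Type}

/-- The new function. -/
def newF [Fintype V] [DecidableEq V] {s m : ℕ} (D : Circuit V s) (Ω : Finset (V → Fin m)) :
    SliceCircuits.BF (V × Bool) :=
  fun z => ∀ ω ∈ Ω, ∃ v : Fin m → Bool, D.Accepts (sub ω v z)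

theorem newF_lit [Fintype V] [DecidableEq V] {s m : ℕ} (D : Circuit V s)
    (Ω : Finset (V → Fin m)) (hΩ : Ω.Nonempty) (x : V → Prop) :
    newF D Ω (lit x) ↔ D.Accepts (lit x) := by
  constructor
  · intro h
    obtain ⟨ω, hω⟩ := hΩ
    obtain ⟨v, hv⟩ := h ω hω
    exact D.mono (fun l hl => hl.1) hv
  · intro h ω _
    obtain ⟨v, hv⟩ := exists_sub_eq ω x
    exact ⟨v, D.mono hv h⟩

theorem newF_stable [Fintype V] [DecidableEq V] {s m : ℕ} (D : Circuit V s)
    (Ω : Finset (V → Fin m)) (x : V → Prop) (U : Finset V)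
    (hU : ∃ ω ∈ Ω, ∀ a ∈ U, ∀ b ∈ U, ω a = ω b → a = b)
    (hx : ∀ y : V → Prop, (∀ v, v ∉ U → (y v ↔ x v)) → ¬ D.Accepts (lit y)) :
    ¬ newF D Ω (fun l => l.1 ∈ U ∨ lit x l) := by
  intro h
  obtain ⟨ω, hω, hinj⟩ := hU
  obtain ⟨v, hv⟩ := h ω hω
  obtain ⟨y, hy, hle⟩ := sub_le_lit ω v x U hinj
  exact hx y hy (D.mono hle hv)

theorem reach_newF [Fintype V] [DecidableEq V] {s₀ m : ℕ} (D : Circuit V s₀)
    (Ω : Finset (V → Fin m)) :
    ∃ T, SliceCircuits.Reach (2 + Ω.card * (6 * Fintype.card V * Fintype.card V +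
      (2 ^ m * (2 * Fintype.card V + s₀) + 1))) 0 T ∧
      ∀ ω ∈ Ω, (fun z => ∃ v : Fin m → Bool, D.Accepts (sub ω v z)) ∈ T := by
  classical
  set N := Fintype.card V with hN
  have r0 := SliceCircuits.reach_vars (V := V × Bool)
  have r1 := (r0.one SliceCircuits.oneGate_true).one SliceCircuits.oneGate_false
  set T := insert (fun _ : V × Bool → Prop => False) (insert (fun _ : V × Bool → Prop => True)
    {f : SliceCircuits.BF (V × Bool) | ∃ v, f = fun x => x v}) with hT
  have hlit : ∀ l, (fun z : V × Bool → Prop => z l) ∈ T := fun l => Or.inr (Or.inr ⟨l, rfl⟩)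
  have h1 : (fun _ : V × Bool → Prop => True) ∈ T := Or.inr (Or.inl rfl)
  have h0 : (fun _ : V × Bool → Prop => False) ∈ T := Or.inl rfl
  have step : ∀ ω ∈ Ω, ∀ s T₁, T ⊆ T₁ → SliceCircuits.Reach s 0 T₁ → ∃ T₂, T₁ ⊆ T₂ ∧
      SliceCircuits.Reach (s + (6 * N * N + (2 ^ m * (2 * N + s₀) + 1))) 0 T₂ ∧
      (fun z => ∃ v : Fin m → Bool, D.Accepts (sub ω v z)) ∈ T₂ := by
    intro ω _ s T₁ hT₁ hR₁
    -- the parities
    obtain ⟨T₂, h12, hR₂, hpar⟩ := SliceCircuits.Reach.family (h := 0) (T := T₁)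
      (univ : Finset V) (6 * N) (fun i T' => ∀ τ, Par (cls ω i) τ ∈ T')
      (fun i T' T'' h2 h3 τ => h2 (h3 τ))
      (by
        intro i _ s' T' hT' hR'
        obtain ⟨T'', h2, h3, h4⟩ := reach_par hR' (fun l => hT' (hT₁ (hlit l))) (hT' (hT₁ h1))
          (hT' (hT₁ h0)) (cls ω i)
        refine ⟨T'', h2, h3.mono ?_ le_rfl subset_rfl, h4⟩
        have h5 : (cls ω i).card ≤ N := card_le_univ _
        omega)
      hR₁
    -- all guesses
    obtain ⟨T₃, h23, hR₃, hacc⟩ := SliceCircuits.Reach.family (h := 0) (T := T₂)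
      (univ : Finset (Fin m → Bool)) (2 * N + s₀)
      (fun v T' => (fun z => D.Accepts (sub ω v z)) ∈ T') (fun i T' T'' h2 h3 => h2 h3)
      (by
        intro v _ s' T' hT' hR'
        obtain ⟨T'', h2, h3, h4⟩ := SliceCircuits.Reach.family (h := 0) (T := T')
          (univ : Finset (V × Bool)) 1
          (fun l T₀ => (fun z => sub ω v z l) ∈ T₀) (fun i T' T'' h2 h3 => h2 h3)
          (by
            intro l _ s'' T₀ hT₀ hR₀
            exact ⟨_, Set.subset_insert _ _, hR₀.one (SliceCircuits.oneGate_and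
              (hT₀ (hT' (h12 (hT₁ (hlit l)))))
              (hT₀ (hT' (hpar l.1 (mem_univ _) (xor (v (ω l.1)) l.2))))), Set.mem_insert _ _⟩)
          hR'
        obtain ⟨T₃, h5, h6, h7⟩ := reach_subst_accepts D (sub ω v) h3
          (fun l => h4 l (mem_univ l))
        refine ⟨T₃, h2.trans h5, h6.mono ?_ le_rfl subset_rfl, h7⟩
        have h8 : (univ : Finset (V × Bool)).card = N * 2 := by
          rw [card_univ, Fintype.card_prod, Fintype.card_bool]
        rw [h8]
        omega)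
      hR₂
    have r4 : SliceCircuits.OneGate T₃ (fun z => ∃ v : Fin m → Bool, D.Accepts (sub ω v z)) := by
      refine Or.inr ⟨Set.range fun v : Fin m → Bool => fun z => D.Accepts (sub ω v z),
        Set.finite_range _, ?_, ?_⟩
      · rintro f ⟨v, rfl⟩
        exact hacc v (mem_univ v)
      · funext z
        refine propext ⟨?_, ?_⟩
        · rintro ⟨v, hv⟩
          exact ⟨_, ⟨v, rfl⟩, hv⟩
        · rintro ⟨f, ⟨v, rfl⟩, hv⟩
          exact ⟨v, hv⟩
    refine ⟨_, (h12.trans h23).trans (Set.subset_insert _ _), (hR₃.one r4).mono ?_ le_rfl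
      subset_rfl, Set.mem_insert _ _⟩
    have h8 : (univ : Finset (Fin m → Bool)).card = 2 ^ m := by
      rw [card_univ, Fintype.card_fun, Fintype.card_bool, Fintype.card_fin]
    rw [h8, card_univ, ← hN]
    have h9 : N * (6 * N) = 6 * N * N := by ring
    omega
  obtain ⟨T₁, -, h3, h4⟩ := SliceCircuits.Reach.family (h := 0) (T := T) Ω
    (6 * N * N + (2 ^ m * (2 * N + s₀) + 1))
    (fun ω T' => (fun z => ∃ v : Fin m → Bool, D.Accepts (sub ω v z)) ∈ T')
    (fun i T' T'' h2 h3 => h2 h3) step r1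
  exact ⟨T₁, h3.mono (by omega) le_rfl subset_rfl, h4⟩

/-- Circuits without 0-hazards of at most `k` bits. -/
theorem few_hazards0 [Fintype V] {s : ℕ} (D : Circuit V s) (k : ℕ) :
    ∃ s' ≤ 30 * 16 ^ k * (Fintype.card V + s) ^ 3, ∃ D' : Circuit V s',
      (∀ x, D'.Accepts (lit x) ↔ D.Accepts (lit x)) ∧
      ∀ (x : V → Prop) (U : Finset V), U.card ≤ k → ¬ D'.Hazard0 x U := by
  classical
  have hs : 1 ≤ s := by
    have := D.out.2
    omega
  rcases Nat.eq_zero_or_pos k with rfl | hk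
  · refine ⟨s, ?_, D, fun x => Iff.rfl, ?_⟩
    · obtain ⟨a, ha⟩ : ∃ a, a = Fintype.card V + s := ⟨_, rfl⟩
      rw [← ha]
      calc s ≤ a := by omega
        _ = 1 * a := (one_mul a).symm
        _ ≤ (30 * 16 ^ 0 * a ^ 2) * a := by
          refine Nat.mul_le_mul_right _ ?_
          have : 1 ≤ a ^ 2 := Nat.one_le_pow _ _ (by omega)
          omega
        _ = 30 * 16 ^ 0 * a ^ 3 := by ring
    · rintro x U hU ⟨h1, h2⟩
      obtain rfl := card_eq_zero.1 (Nat.le_zero.1 hU)
      exact h1 x (fun _ _ => Iff.rfl) (D.mono (fun l hl => hl.resolve_left (notMem_empty _)) h2)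
  obtain ⟨Ω, hΩ, hinj⟩ := hash_family (V := V) k hk
  have hne : Ω.Nonempty := by
    obtain ⟨ω, hω, -⟩ := hinj ∅ (by simp)
    exact ⟨ω, hω⟩
  obtain ⟨T, hR, hT⟩ := reach_newF D Ω
  obtain ⟨s', hs', E, hE, hacc⟩ := hR.circuit (f := newF D Ω) (by
    refine Or.inl ⟨(fun ω => fun z => ∃ v : Fin (2 * k) → Bool, D.Accepts (sub ω v z)) ''
      (Ω : Set (V → Fin (2 * k))), Ω.finite_toSet.image _, ?_, ?_⟩
    · rintro f ⟨ω, hω, rfl⟩
      exact hT ω hω
    · funext z
      refine propext ⟨?_, fun h ω hω => h _ ⟨ω, hω, rfl⟩⟩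
      rintro h f ⟨ω, hω, rfl⟩
      exact h ω hω)
  obtain ⟨D', hD'⟩ := exists_lit_circuit E (Nat.le_zero.1 hE)
  refine ⟨s', hs'.trans ?_, D', fun x => ?_, ?_⟩
  · have h1 : (2 : ℕ) ^ (2 * k) = 4 ^ k := by rw [pow_mul]; norm_num
    have h2 : Nat.log 2 (Fintype.card V) ≤ Fintype.card V := Nat.log_le_self _ _
    have h3 := size_bound (P := 4 ^ k) hs (Nat.one_le_pow _ _ (by norm_num)) h2
    rw [h1]
    have h4 : ((4 : ℕ) ^ k) ^ 2 = 16 ^ k := by rw [← pow_mul, mul_comm k 2, pow_mul]; norm_num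
    rw [h4] at h3
    refine le_trans ?_ h3
    gcongr
  · rw [hD', hacc, newF_lit D Ω hne]
  · rintro x U hU ⟨h1, h2⟩
    rw [hD', hacc] at h2
    refine newF_stable D Ω x U (hinj U hU) (fun y hy h3 => h1 y hy ?_) h2
    rw [hD', hacc, newF_lit D Ω hne]
    exact h3

/-- The dual circuit. -/
def Circuit.dual {s : ℕ} (D : Circuit V s) : Circuit V s where
  isAnd i := !D.isAnd i
  wires := D.wires
  acyclic := D.acyclic
  out := D.out

theorem Circuit.dual_isEval {s : ℕ} (D : Circuit V s) (z : V × Bool → Prop)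
    (val : Fin s → Prop) :
    D.dual.IsEval z val ↔ D.IsEval (fun l => ¬ z l) fun i => ¬ val i := by
  have h1 : ∀ w : (V × Bool) ⊕ Fin s, Sum.elim (fun l => ¬ z l) (fun i => ¬ val i) w ↔
      ¬ Sum.elim z val w := by
    intro w
    cases w <;> exact Iff.rfl
  refine forall_congr' fun i => ?_
  show (val i ↔ if (!D.isAnd i) = true then ∀ w ∈ D.wires i, Sum.elim z val w
    else ∃ w ∈ D.wires i, Sum.elim z val w) ↔ (¬ val i ↔ if D.isAnd i = true then
      ∀ w ∈ D.wires i, Sum.elim (fun l => ¬ z l) (fun i => ¬ val i) w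
    else ∃ w ∈ D.wires i, Sum.elim (fun l => ¬ z l) (fun i => ¬ val i) w)
  simp only [h1]
  cases D.isAnd i with
  | true =>
    simp only [Bool.not_true, Bool.false_eq_true, if_false, if_true]
    constructor
    · intro h2
      rw [h2]
      push Not
      exact Iff.rfl
    · intro h2
      rw [← not_iff_not, h2]
      push Not
      exact Iff.rfl
  | false =>
    simp only [Bool.not_false, Bool.false_eq_true, if_false, if_true]
    constructor
    · intro h2
      rw [h2]
      push Not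
      exact Iff.rfl
    · intro h2
      rw [← not_iff_not, h2]
      push Not
      exact Iff.rfl

theorem Circuit.dual_accepts {s : ℕ} (D : Circuit V s) (z : V × Bool → Prop) :
    D.dual.Accepts z ↔ ¬ D.Accepts fun l => ¬ z l := by
  obtain ⟨val, hval⟩ := D.dual.exists_eval z
  have h1 := (D.dual_isEval z val).1 hval
  constructor
  · rintro ⟨val', h2, h3⟩ ⟨val'', h4, h5⟩
    have h6 := h1.unique h4
    rw [hval.unique h2] at h6
    rw [← h6] at h5
    exact h5 h3
  · intro h2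
    refine ⟨val, hval, ?_⟩
    by_contra h3
    exact h2 ⟨_, h1, h3⟩

theorem not_lit (x : V → Prop) (l : V × Bool) : ¬ lit x l ↔ lit (fun v => ¬ x v) l := by
  obtain ⟨v, b⟩ := l
  show ¬ (x v ↔ b = true) ↔ (¬ x v ↔ b = true)
  tauto

theorem Circuit.dual_accepts_lit {s : ℕ} (D : Circuit V s) (x : V → Prop) :
    D.dual.Accepts (lit x) ↔ ¬ D.Accepts (lit fun v => ¬ x v) := by
  rw [D.dual_accepts]
  have : (fun l => ¬ lit x l) = lit fun v => ¬ x v := by
    funext l
    exact propext (not_lit x l)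
  rw [this]

theorem Circuit.hazard1_iff {s : ℕ} (D : Circuit V s) (x : V → Prop) (U : Finset V) :
    D.dual.Hazard1 x U ↔ D.Hazard0 (fun v => ¬ x v) U := by
  unfold Circuit.Hazard0 Circuit.Hazard1
  refine and_congr ?_ ?_
  · constructor
    · intro h y hy h1
      have h2 := h (fun v => ¬ y v) fun v hv => by rw [hy v hv]; exact not_not
      rw [D.dual_accepts_lit] at h2
      simp only [not_not] at h2
      exact h2 h1
    · intro h y hy
      rw [D.dual_accepts_lit]
      exact h _ fun v hv => not_congr (hy v hv)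
  · rw [D.dual_accepts, not_not]
    have : (fun l : V × Bool => ¬ (l.1 ∉ U ∧ lit x l)) =
        fun l => l.1 ∈ U ∨ lit (fun v => ¬ x v) l := by
      funext l
      rw [← not_lit]
      exact propext (by tauto)
    rw [this]

/-- Circuits without 1-hazards of at most `k` bits. -/
theorem few_hazards1 [Fintype V] {s : ℕ} (D : Circuit V s) (k : ℕ) :
    ∃ s' ≤ 30 * 16 ^ k * (Fintype.card V + s) ^ 3, ∃ D' : Circuit V s',
      (∀ x, D'.Accepts (lit x) ↔ D.Accepts (lit x)) ∧
      ∀ (x : V → Prop) (U : Finset V), U.card ≤ k → ¬ D'.Hazard1 x U := by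
  obtain ⟨s', hs', D', h1, h2⟩ := few_hazards0 D.dual k
  refine ⟨s', hs', D'.dual, fun x => ?_, fun x U hU => ?_⟩
  · rw [D'.dual_accepts_lit, h1, D.dual_accepts_lit]
    simp only [not_not]
  · rw [D'.hazard1_iff]
    exact h2 _ U hU

end Pool.Agent.HazardCircuits
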