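import Mathlib
import Pool.Agent.Lib.MP_0a1b52_lc_HAZ.Defs2
import Pool.Agent.Lib.MP_0a1b52_lc_HAZ.Few
import Pool.Agent.Lib.MP_0a1b52_lc_WIN.QP

/-!
The asymptotic forms.
-/

namespace Pool.Agent.HazardCircuits

open Finset

open SliceCircuits (EdgeVar)

/-- The lower bound. -/
def LowerHaz : Prop :=
  ∃ C : ℕ, ∀ (n s : ℕ) (D : Circuit (EdgeVar n) s), D.Computes (cliqueFn n) →
    C * (Nat.log 2 (n * s) + 1) ^ 8 ≤ n → ∀ T : Finset (EdgeVar n),
    C * (Nat.log 2 (n * s) + 1) ^ 8 < T.card →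
    (∃ x U, U ⊆ T ∧ D.Hazard0 x U) ∧ ∃ x U, U ⊆ T ∧ D.Hazard1 x U

theorem cliqueFn_eq (n : ℕ) : cliqueFn n = SliceCircuits.clq n := rfl

/-- From circuits with NOT gates to circuits over literals. -/
theorem exists_of_slice {n s : ℕ} (hn : 2 ≤ n) (D : SliceCircuits.Circuit (EdgeVar n) s) :
    ∃ s' ≤ 2 + s * (2 * (n.choose 2 + s)) + 1, ∃ E : Circuit (EdgeVar n) s',
      ∀ x, E.Accepts (lit x) ↔ D.Accepts x := by
  classical
  have : Nonempty (EdgeVar n) := ⟨⟨(⟨0, by omega⟩, ⟨1, by omega⟩), by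
    show (0 : ℕ) < 1
    norm_num⟩⟩
  obtain ⟨s', hs', P, o, hP⟩ := SliceCircuits.to_fan2 D
  rw [SliceCircuits.card_var] at hs'
  refine ⟨s', hs', ⟨P.op, fun i => {P.a i, P.b i}, ?_, o⟩, fun x => ?_⟩
  · intro i j h
    rcases mem_insert.1 h with h | h
    · exact (P.acyclic i j).1 h.symm
    · exact (P.acyclic i j).2 (mem_singleton.1 h).symm
  have key : ∀ val : Fin s' → Prop, (⟨P.op, fun i => {P.a i, P.b i}, (by
      intro i j h
      rcases mem_insert.1 h with h | h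
      · exact (P.acyclic i j).1 h.symm
      · exact (P.acyclic i j).2 (mem_singleton.1 h).symm), o⟩ : Circuit (EdgeVar n) s').IsEval
        (lit x) val ↔ P.IsEval x val := by
    intro val
    refine forall_congr' fun i => ?_
    refine iff_congr Iff.rfl ?_
    show (if P.op i = true then ∀ w ∈ ({P.a i, P.b i} : Finset _), Sum.elim (lit x) val w
      else ∃ w ∈ ({P.a i, P.b i} : Finset _), Sum.elim (lit x) val w) ↔
      if P.op i = true then SliceCircuits.wv x val (P.a i) ∧ SliceCircuits.wv x val (P.b i)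
      else SliceCircuits.wv x val (P.a i) ∨ SliceCircuits.wv x val (P.b i)
    split_ifs
    · constructor
      · exact fun h => ⟨h _ (mem_insert_self _ _), h _ (mem_insert_of_mem (mem_singleton_self _))⟩
      · rintro ⟨h1, h2⟩ w hw
        rcases mem_insert.1 hw with rfl | hw
        · exact h1
        · rw [mem_singleton.1 hw]
          exact h2
    · constructor
      · rintro ⟨w, hw, h⟩
        rcases mem_insert.1 hw with rfl | hw
        · exact Or.inl h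
        · rw [mem_singleton.1 hw] at h
          exact Or.inr h
      · rintro (h | h)
        · exact ⟨_, mem_insert_self _ _, h⟩
        · exact ⟨_, mem_insert_of_mem (mem_singleton_self _), h⟩
  constructor
  · rintro ⟨val, h1, h2⟩
    exact (hP x val ((key val).1 h1)).1 h2
  · intro h
    obtain ⟨val, hval⟩ := P.exists_eval x
    exact ⟨val, (key val).2 hval, (hP x val hval).2 h⟩

/-- From circuits over literals to circuits with NOT gates. -/
theorem exists_slice {V : Type} [Fintype V] {s : ℕ} (D : Circuit V s) :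
    ∃ s' ≤ Fintype.card V + s + 1, ∃ E : SliceCircuits.Circuit V s',
      ∀ x, E.Accepts x ↔ D.Accepts (lit x) := by
  classical
  obtain ⟨T₁, h1, h2, h3⟩ := SliceCircuits.Reach.family' (univ : Finset V) 1
    (fun v T => (fun x : V → Prop => ¬ x v) ∈ T) (fun v T₁ T₂ h1 h2 => h1 h2)
    (by
      intro v _ s T₁ h1 h2
      exact ⟨_, Set.subset_insert _ _, h2.not (h1 ⟨v, rfl⟩), Or.inl rfl⟩)
    (SliceCircuits.reach_vars (V := V))
  rw [card_univ, Nat.zero_add, Nat.mul_one] at h2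
  obtain ⟨T₂, -, h4, h5⟩ := reach_subst_accepts D (fun x : V → Prop => lit x) h2 (by
    rintro ⟨v, b⟩
    cases b with
    | true =>
      have : (fun x : V → Prop => lit x (v, true)) = fun x => x v := by
        funext x
        show (x v ↔ true = true) = x v
        simp
      rw [this]
      exact h1 ⟨v, rfl⟩
    | false =>
      have : (fun x : V → Prop => lit x (v, false)) = fun x => ¬ x v := by
        funext x
        show (x v ↔ false = true) = ¬ x v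
        simp
      rw [this]
      exact h3 v (mem_univ v))
  obtain ⟨s', hs', E, -, hE⟩ := h4.circuit (SliceCircuits.oneGate_self h5)
  exact ⟨s', hs', E, hE⟩

theorem choose_le (n : ℕ) : n.choose 2 ≤ n * n := by
  have := CliqueModules.two_mul_choose_two_le n
  omega

/-- Circuits of polynomial size over literals show that Q1 is false. -/
theorem not_Q1_of_poly (h : ∃ c N : ℕ, ∀ n ≥ N, ∃ s ≤ n ^ c, ∃ D : Circuit (EdgeVar n) s,
    D.Computes (cliqueFn n)) : ¬ SliceCircuits.Q1 := by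
  obtain ⟨c, N, h⟩ := h
  refine SliceCircuits.not_Q1_of_polyAll ⟨2 + (c + 2) * 2, N + 2, fun n hn => ?_⟩
  obtain ⟨s, hs, D, hD⟩ := h n (by omega)
  have hs1 : 1 ≤ s := by
    have := D.out.2
    omega
  obtain ⟨s', hs', E, hE⟩ := exists_slice D
  refine ⟨s', ?_, E, ?_⟩
  · refine le_trans ?_ (SliceCircuits.poly_bound 2 c n s 2 (by omega) hs)
    rw [SliceCircuits.card_var] at hs'
    have h3 := choose_le n
    have h4 : 2 * (n + s) ^ 2 = 2 * (n * n) + 4 * (n * s) + 2 * (s * s) := by ring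
    have h5 : s ≤ s * s := Nat.le_mul_self s
    rw [h4]
    omega
  · rw [SliceCircuits.correctOn_iff]
    intro x _
    rw [hE, hD x, cliqueFn_eq]

/-- If Q1 is false, there are circuits of polynomial size over literals. -/
theorem poly_of_not_Q1 (h : ¬ SliceCircuits.Q1) : ∃ c N : ℕ, ∀ n ≥ N, ∃ s ≤ n ^ c,
    ∃ D : Circuit (EdgeVar n) s, D.Computes (cliqueFn n) := by
  obtain ⟨k, N, h⟩ := SliceCircuits.polyAll_of_not_Q1 h
  refine ⟨6 + (k + 2) * 3, N + 2, fun n hn => ?_⟩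
  obtain ⟨s, hs, D, hD⟩ := h n (by omega)
  have hs1 : 1 ≤ s := by
    have := D.out.2
    omega
  obtain ⟨s', hs', E, hE⟩ := exists_of_slice (by omega) D
  refine ⟨s', ?_, E, fun x => ?_⟩
  · refine le_trans ?_ (SliceCircuits.poly_bound 6 k n s 3 (by omega) hs)
    refine hs'.trans ?_
    have h3 := CliqueModules.two_mul_choose_two_le n
    set P := n + s with hP
    have h4 : 2 * (n.choose 2 + s) ≤ 3 * (P * P) := by
      have h5 : P * P = n * n + 2 * (n * s) + s * s := by rw [hP]; ring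
      have h6 : s ≤ s * s := Nat.le_mul_self s
      omega
    have h5 : s * (2 * (n.choose 2 + s)) ≤ P * (3 * (P * P)) := Nat.mul_le_mul (by omega) h4
    have h6 : 6 * P ^ 3 = 6 * (P * (P * P)) := by ring
    have h7 : P * (3 * (P * P)) = 3 * (P * (P * P)) := by ring
    have h8 : 1 ≤ P * (P * P) := Nat.mul_pos (by omega) (Nat.mul_pos (by omega) (by omega))
    rw [h6]
    rw [h7] at h5
    omega
  · rw [hE, cliqueFn_eq]
    rw [SliceCircuits.correctOn_iff] at hD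
    exact hD x (Set.mem_univ _)

/-- The size of the new circuits. -/
theorem poly_size (c k n s s' : ℕ) (hn : 2 ≤ n) (hs : s ≤ n ^ k)
    (hs' : s' ≤ 30 * 16 ^ (c * Nat.log 2 n) * (n.choose 2 + s) ^ 3) :
    s' ≤ n ^ (4 * c + (30 + (k + 2) * 6)) := by
  have h1 : (16 : ℕ) ^ (c * Nat.log 2 n) ≤ n ^ (4 * c) := by
    have h2 : (16 : ℕ) = 2 ^ 4 := by norm_num
    rw [h2, ← pow_mul]
    calc 2 ^ (4 * (c * Nat.log 2 n)) = (2 ^ Nat.log 2 n) ^ (4 * c) := by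
          rw [← pow_mul]
          congr 1
          ring
      _ ≤ n ^ (4 * c) := Nat.pow_le_pow_left (Nat.pow_log_le_self 2 (by omega)) _
  have h3 : n.choose 2 + s ≤ (n + s) ^ 2 := by
    have h4 := choose_le n
    have h5 : (n + s) ^ 2 = n * n + 2 * (n * s) + s * s := by ring
    have h6 : s ≤ s * s := Nat.le_mul_self s
    omega
  have h4 : (n.choose 2 + s) ^ 3 ≤ (n + s) ^ 6 := by
    calc (n.choose 2 + s) ^ 3 ≤ ((n + s) ^ 2) ^ 3 := Nat.pow_le_pow_left h3 3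
      _ = (n + s) ^ 6 := by rw [← pow_mul]
  have h5 := SliceCircuits.poly_bound 30 k n s 6 hn hs
  calc s' ≤ 30 * 16 ^ (c * Nat.log 2 n) * (n.choose 2 + s) ^ 3 := hs'
    _ ≤ 30 * n ^ (4 * c) * (n + s) ^ 6 := by gcongr
    _ = n ^ (4 * c) * (30 * (n + s) ^ 6) := by ring
    _ ≤ n ^ (4 * c) * n ^ (30 + (k + 2) * 6) := Nat.mul_le_mul_left _ h5
    _ = _ := (pow_add _ _ _).symm

theorem Q1_iff0 (c : ℕ) : SliceCircuits.Q1 ↔ ¬ PolyFree0 fun n => c * Nat.log 2 n := by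
  rw [← not_iff_not, not_not]
  constructor
  · intro h
    obtain ⟨k, N, h⟩ := poly_of_not_Q1 h
    refine ⟨4 * c + (30 + (k + 2) * 6), N + 2, fun n hn => ?_⟩
    obtain ⟨s, hs, D, hD⟩ := h n (by omega)
    obtain ⟨s', hs', D', h1, h2⟩ := few_hazards0 D (c * Nat.log 2 n)
    rw [SliceCircuits.card_var] at hs'
    exact ⟨s', poly_size c k n s s' (by omega) hs hs', D', fun x => (h1 x).trans (hD x), h2⟩
  · rintro ⟨k, N, h⟩
    exact not_Q1_of_poly ⟨k, N, fun n hn => by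
      obtain ⟨s, hs, D, hD, -⟩ := h n hn
      exact ⟨s, hs, D, hD⟩⟩

theorem Q1_iff1 (c : ℕ) : SliceCircuits.Q1 ↔ ¬ PolyFree1 fun n => c * Nat.log 2 n := by
  rw [← not_iff_not, not_not]
  constructor
  · intro h
    obtain ⟨k, N, h⟩ := poly_of_not_Q1 h
    refine ⟨4 * c + (30 + (k + 2) * 6), N + 2, fun n hn => ?_⟩
    obtain ⟨s, hs, D, hD⟩ := h n (by omega)
    obtain ⟨s', hs', D', h1, h2⟩ := few_hazards1 D (c * Nat.log 2 n)
    rw [SliceCircuits.card_var] at hs'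
    exact ⟨s', poly_size c k n s s' (by omega) hs hs', D', fun x => (h1 x).trans (hD x), h2⟩
  · rintro ⟨k, N, h⟩
    exact not_Q1_of_poly ⟨k, N, fun n hn => by
      obtain ⟨s, hs, D, hD, -⟩ := h n hn
      exact ⟨s, hs, D, hD⟩⟩

/-- A set of edges of the right size. -/
theorem exists_edges {n m : ℕ} (h : m ≤ n.choose 2) : ∃ T : Finset (EdgeVar n), T.card = m := by
  obtain ⟨T, -, hT⟩ := exists_subset_card_eq (s := (univ : Finset (EdgeVar n))) (n := m) (by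
    rw [card_univ, SliceCircuits.card_var]
    exact h)
  exact ⟨T, hT⟩

theorem le_choose {n m : ℕ} (hn : 4 ≤ n) (h : m ≤ Nat.sqrt n) : m + 1 ≤ n.choose 2 := by
  have h1 := CliqueModules.two_mul_choose_two n
  have h2 : Nat.sqrt n * 2 ≤ n := by
    have h3 : 2 ≤ Nat.sqrt n := Nat.le_sqrt.2 (by omega)
    exact (Nat.mul_le_mul_left _ h3).trans (Nat.sqrt_le n)
  have h3 : n * 3 ≤ n * (n - 1) := Nat.mul_le_mul_left _ (by omega)
  omega

/-- The lower bound for polynomial size. -/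
theorem poly_lower (hL : LowerHaz) (k : ℕ → ℕ)
    (hk : ∀ C : ℕ, ∃ n₀ : ℕ, ∀ n ≥ n₀, C * Nat.log 2 n ^ 8 ≤ k n) :
    ¬ PolyFree0 k ∧ ¬ PolyFree1 k := by
  obtain ⟨C, hC⟩ := hL
  have key : ∀ c : ℕ, ∃ n₁ : ℕ, ∀ n ≥ n₁, ∀ s ≤ n ^ c, ∀ D : Circuit (EdgeVar n) s,
      D.Computes (cliqueFn n) → ¬ D.Free0 (k n) ∧ ¬ D.Free1 (k n) := by
    intro c
    obtain ⟨n₁, h1⟩ := hk (C * (2 * c + 2) ^ 8 + 1)
    obtain ⟨n₂, h2⟩ := SliceCircuits.log_pow_le_sqrt (C * (2 * c + 2) ^ 8)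
    refine ⟨n₁ + n₂ + 4, fun n hn s hs D hD => ?_⟩
    have h3 := SliceCircuits.log_size n s c (by omega) hs
    have h4 := h1 n (by omega)
    have h5 := h2 n (by omega)
    have hC' := hC n s D hD
    obtain ⟨L, hLdef⟩ : ∃ L, L = Nat.log 2 (n * s) + 1 := ⟨_, rfl⟩
    rw [← hLdef] at h3 hC'
    have hl1 : 1 ≤ Nat.log 2 n := Nat.le_log_of_pow_le (by norm_num) (by omega)
    have hl8 : 1 ≤ Nat.log 2 n ^ 8 := Nat.one_le_pow _ _ hl1
    have h6 : C * L ^ 8 ≤ C * (2 * c + 2) ^ 8 * Nat.log 2 n ^ 8 := by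
      calc C * L ^ 8 ≤ C * ((2 * c + 2) * Nat.log 2 n) ^ 8 :=
            Nat.mul_le_mul_left _ (Nat.pow_le_pow_left h3 8)
        _ = C * (2 * c + 2) ^ 8 * Nat.log 2 n ^ 8 := by rw [mul_pow, mul_assoc]
    have h7 : C * (2 * c + 2) ^ 8 * Nat.log 2 n ^ 8 + 1 ≤ k n := by
      calc C * (2 * c + 2) ^ 8 * Nat.log 2 n ^ 8 + 1 ≤
            C * (2 * c + 2) ^ 8 * Nat.log 2 n ^ 8 + Nat.log 2 n ^ 8 := by omega
        _ = (C * (2 * c + 2) ^ 8 + 1) * Nat.log 2 n ^ 8 := by ring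
        _ ≤ k n := h4
    obtain ⟨T, hT⟩ := exists_edges (n := n) (m := C * L ^ 8 + 1)
      (le_choose (by omega) (h6.trans h5))
    obtain ⟨⟨x, U, hU, hx⟩, ⟨x', U', hU', hx'⟩⟩ := hC'
      ((h6.trans h5).trans (Nat.sqrt_le_self n)) T (by omega)
    have h8 := card_le_card hU
    have h9 := card_le_card hU'
    exact ⟨fun h => h x U (by omega) hx, fun h => h x' U' (by omega) hx'⟩
  constructor
  · rintro ⟨c, N, h⟩
    obtain ⟨n₁, h1⟩ := key c
    obtain ⟨s, hs, D, hD, hF⟩ := h (N + n₁) (by omega)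
    exact (h1 (N + n₁) (by omega) s hs D hD).1 hF
  · rintro ⟨c, N, h⟩
    obtain ⟨n₁, h1⟩ := key c
    obtain ⟨s, hs, D, hD, hF⟩ := h (N + n₁) (by omega)
    exact (h1 (N + n₁) (by omega) s hs D hD).2 hF

/-- The lower bound for quasi-polynomial size. -/
theorem qp_lower (hL : LowerHaz) (c : ℕ) : ∃ d n₁ : ℕ, ∀ n ≥ n₁, ∀ s ≤ 2 ^ Nat.log 2 n ^ c,
    ∀ D : Circuit (EdgeVar n) s, D.Computes (cliqueFn n) → ∀ k : ℕ, D.Free0 k ∨ D.Free1 k →
      k ≤ Nat.log 2 n ^ d := by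
  obtain ⟨C, hC⟩ := hL
  obtain ⟨n₂, h2⟩ := SliceCircuits.log_pow_le_sqrt' C (8 * (c + 2))
  obtain ⟨K, hK⟩ : ∃ K, K = 2 ^ C := ⟨_, rfl⟩
  refine ⟨8 * (c + 2) + 1, n₂ + 4 + K, fun n hn s hs D hD k hk => ?_⟩
  have h3 := SliceCircuits.log_size' n s c (by omega) hs
  have h5 := h2 n (by omega)
  have hC' := hC n s D hD
  obtain ⟨L, hLdef⟩ : ∃ L, L = Nat.log 2 (n * s) + 1 := ⟨_, rfl⟩
  rw [← hLdef] at h3 hC'
  have hl : C ≤ Nat.log 2 n := Nat.le_log_of_pow_le (by norm_num) (by rw [← hK]; omega)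
  have h6 : L ^ 8 ≤ Nat.log 2 n ^ (8 * (c + 2)) := by
    calc L ^ 8 ≤ (Nat.log 2 n ^ (c + 2)) ^ 8 := Nat.pow_le_pow_left h3 8
      _ = _ := by rw [← pow_mul, mul_comm]
  have h7 : C * L ^ 8 ≤ C * Nat.log 2 n ^ (8 * (c + 2)) := Nat.mul_le_mul_left _ h6
  have h8 : C * L ^ 8 ≤ Nat.log 2 n ^ (8 * (c + 2) + 1) := by
    calc C * L ^ 8 ≤ Nat.log 2 n * Nat.log 2 n ^ (8 * (c + 2)) := Nat.mul_le_mul hl h6
      _ = _ := by rw [pow_succ, mul_comm]
  obtain ⟨T, hT⟩ := exists_edges (n := n) (m := C * L ^ 8 + 1)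
    (le_choose (by omega) (h7.trans h5))
  obtain ⟨⟨x, U, hU, hx⟩, ⟨x', U', hU', hx'⟩⟩ := hC'
    ((h7.trans h5).trans (Nat.sqrt_le_self n)) T (by omega)
  have h9 := card_le_card hU
  have h10 := card_le_card hU'
  by_contra h11
  rcases hk with h | h
  · exact h x U (by omega) hx
  · exact h x' U' (by omega) hx'

/-- The size of the new circuits. -/
theorem qp_size {l k d n s s' m : ℕ} (hl : 2 ≤ l) (hn : n < 2 ^ (l + 1)) (hs : s ≤ 2 ^ l ^ k)
    (hm : m ≤ l ^ d) (hs' : s' ≤ 30 * 16 ^ m * (n.choose 2 + s) ^ 3) :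
    s' ≤ 2 ^ l ^ (k + d + 8) := by
  have h1 : (16 : ℕ) ^ m ≤ 2 ^ (4 * l ^ d) := by
    have h2 : (16 : ℕ) = 2 ^ 4 := by norm_num
    rw [h2, ← pow_mul]
    exact Nat.pow_le_pow_right (by norm_num) (by omega)
  have h3 : n.choose 2 ≤ 2 ^ (2 * l + 2) := by
    calc n.choose 2 ≤ n * n := choose_le n
      _ ≤ 2 ^ (l + 1) * 2 ^ (l + 1) := Nat.mul_le_mul hn.le hn.le
      _ = _ := by rw [← pow_add]; congr 1; ring
  have h4 : n.choose 2 + s ≤ 2 ^ (2 * l + 2 + l ^ k) := by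
    have h5 : 1 ≤ l ^ k := Nat.one_le_pow _ _ (by omega)
    have h6 : (2 : ℕ) ^ (2 * l + 2) * 2 ≤ 2 ^ (2 * l + 2) * 2 ^ l ^ k :=
      Nat.mul_le_mul_left _ (by simpa using Nat.pow_le_pow_right (n := 2) (by norm_num) h5)
    have h7 : (4 : ℕ) * 2 ^ l ^ k ≤ 2 ^ (2 * l + 2) * 2 ^ l ^ k := by
      refine Nat.mul_le_mul_right _ ?_
      calc 4 = 2 ^ 2 := by norm_num
        _ ≤ 2 ^ (2 * l + 2) := Nat.pow_le_pow_right (by norm_num) (by omega)
    rw [pow_add]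
    omega
  have h5 : 30 * 16 ^ m * (n.choose 2 + s) ^ 3 ≤
      2 ^ (5 + 4 * l ^ d + (2 * l + 2 + l ^ k) * 3) := by
    calc 30 * 16 ^ m * (n.choose 2 + s) ^ 3 ≤
        2 ^ 5 * 2 ^ (4 * l ^ d) * (2 ^ (2 * l + 2 + l ^ k)) ^ 3 := by
          gcongr
          norm_num
      _ = _ := by rw [← pow_mul, ← pow_add, ← pow_add]
  refine hs'.trans (h5.trans (Nat.pow_le_pow_right (by norm_num) ?_))
  -- `5 + 4 l ^ d + 3 (2 l + 2 + l ^ k) ≤ l ^ (k + d + 8)`
  have ha : l ^ d ≤ l ^ (k + d + 1) := Nat.pow_le_pow_right (by omega) (by omega)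
  have hb : l ^ k ≤ l ^ (k + d + 1) := Nat.pow_le_pow_right (by omega) (by omega)
  have hc : l ≤ l ^ (k + d + 1) := Nat.le_self_pow (by omega) l
  have hd : l ^ (k + d + 8) = l ^ (k + d + 1) * l ^ 7 := by rw [← pow_add]
  have he : 128 ≤ l ^ 7 := by
    calc 128 = 2 ^ 7 := by norm_num
      _ ≤ l ^ 7 := Nat.pow_le_pow_left hl 7
  have hf : l ^ (k + d + 1) * 128 ≤ l ^ (k + d + 1) * l ^ 7 := Nat.mul_le_mul_left _ he
  omega

theorem qp_iff0 (hL : LowerHaz) (k : ℕ → ℕ) : QuasiPolyFree0 k ↔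
    QuasiPoly ∧ ∃ d n₀ : ℕ, ∀ n ≥ n₀, k n ≤ Nat.log 2 n ^ d := by
  constructor
  · rintro ⟨c, N, h⟩
    refine ⟨⟨c, N, fun n hn => ?_⟩, ?_⟩
    · obtain ⟨s, hs, D, hD, -⟩ := h n hn
      exact ⟨s, hs, D, hD⟩
    · obtain ⟨d, n₁, h1⟩ := qp_lower hL c
      refine ⟨d, N + n₁, fun n hn => ?_⟩
      obtain ⟨s, hs, D, hD, hF⟩ := h n (by omega)
      exact h1 n (by omega) s hs D hD (k n) (Or.inl hF)
  · rintro ⟨⟨c, N, h⟩, d, n₀, hd⟩
    refine ⟨c + d + 8, N + n₀ + 4, fun n hn => ?_⟩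
    obtain ⟨s, hs, D, hD⟩ := h n (by omega)
    obtain ⟨s', hs', D', h1, h2⟩ := few_hazards0 D (k n)
    rw [SliceCircuits.card_var] at hs'
    have hl : 2 ≤ Nat.log 2 n := Nat.le_log_of_pow_le (by norm_num) (by omega)
    exact ⟨s', qp_size hl (Nat.lt_pow_succ_log_self (by norm_num) n) hs (hd n (by omega)) hs',
      D', fun x => (h1 x).trans (hD x), h2⟩

theorem qp_iff1 (hL : LowerHaz) (k : ℕ → ℕ) : QuasiPolyFree1 k ↔
    QuasiPoly ∧ ∃ d n₀ : ℕ, ∀ n ≥ n₀, k n ≤ Nat.log 2 n ^ d := by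
  constructor
  · rintro ⟨c, N, h⟩
    refine ⟨⟨c, N, fun n hn => ?_⟩, ?_⟩
    · obtain ⟨s, hs, D, hD, -⟩ := h n hn
      exact ⟨s, hs, D, hD⟩
    · obtain ⟨d, n₁, h1⟩ := qp_lower hL c
      refine ⟨d, N + n₁, fun n hn => ?_⟩
      obtain ⟨s, hs, D, hD, hF⟩ := h n (by omega)
      exact h1 n (by omega) s hs D hD (k n) (Or.inr hF)
  · rintro ⟨⟨c, N, h⟩, d, n₀, hd⟩
    refine ⟨c + d + 8, N + n₀ + 4, fun n hn => ?_⟩
    obtain ⟨s, hs, D, hD⟩ := h n (by omega)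
    obtain ⟨s', hs', D', h1, h2⟩ := few_hazards1 D (k n)
    rw [SliceCircuits.card_var] at hs'
    have hl : 2 ≤ Nat.log 2 n := Nat.le_log_of_pow_le (by norm_num) (by omega)
    exact ⟨s', qp_size hl (Nat.lt_pow_succ_log_self (by norm_num) n) hs (hd n (by omega)) hs',
      D', fun x => (h1 x).trans (hD x), h2⟩

end Pool.Agent.HazardCircuits
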