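import Mathlib
import Pool.Agent.Lib.MP_0a1b52_lc_HAZ.Defs2

/-!
Circuits for the clique function with some property.
-/

namespace Pool.Agent.HazardCircuits

/-- There are circuits of polynomial size for `CLIQUE_n`, for all large `n`, with the property
`P`. -/
def PolyWith (P : ∀ n s : ℕ, Circuit (SliceCircuits.EdgeVar n) s → Prop) : Prop :=
  ∃ c N : ℕ, ∀ n ≥ N, ∃ s ≤ n ^ c, ∃ D : Circuit (SliceCircuits.EdgeVar n) s,
    D.Computes (cliqueFn n) ∧ P n s D

/-- There are circuits of quasi-polynomial size for `CLIQUE_n`, for all large `n`, with the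
property `P`. -/
def QuasiPolyWith (P : ∀ n s : ℕ, Circuit (SliceCircuits.EdgeVar n) s → Prop) : Prop :=
  ∃ c N : ℕ, ∀ n ≥ N, ∃ s ≤ 2 ^ Nat.log 2 n ^ c, ∃ D : Circuit (SliceCircuits.EdgeVar n) s,
    D.Computes (cliqueFn n) ∧ P n s D

end Pool.Agent.HazardCircuits
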