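import Mathlib
import Pool.Agent.Lib.MP_0a1b52_lc_HAZ.Conv
import Pool.Agent.Lib.MP_0a1b52_lc_HAZ.Defs2
import Pool.Agent.Lib.MP_0a1b52_lc_SLICE.Thr

/-!
Circuits without hazards of either kind inside a given small set of variables.
-/

namespace Pool.Agent.HazardCircuits

open Finset

variable {V : Type} [DecidableEq V]

/-- The variables in `T` are fixed: those in `A` have the value 1, the others the value 0. -/
def fixT (T A : Finset V) (z : V × Bool → Prop) : V × Bool → Prop :=
  fun l => if l.1 ∈ T then (l.1 ∈ A ↔ l.2 = true) else z l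

/-- The term of the partial assignment which fixes the variables in `P` to 1 and those in `Q` to
0. -/
def term {s : ℕ} (D : Circuit V s) (T P Q : Finset V) : SliceCircuits.BF (V × Bool) :=
  fun z => (∀ i ∈ P, z (i, true)) ∧ (∀ i ∈ Q, z (i, false)) ∧
    ∀ A ⊆ T, P ⊆ A → Disjoint Q A → D.Accepts (fixT T A z)

/-- The new function. -/
def muxF {s : ℕ} (D : Circuit V s) (T : Finset V) : SliceCircuits.BF (V × Bool) :=
  fun z => ∃ P ⊆ T, ∃ Q ⊆ T, Disjoint P Q ∧ term D T P Q z

/-- The assignment `x` with the variables in `T` changed. -/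
def setT (T A : Finset V) (x : V → Prop) : V → Prop := fun v => if v ∈ T then v ∈ A else x v

theorem fixT_lit (T A : Finset V) (x : V → Prop) : fixT T A (lit x) = lit (setT T A x) := by
  funext l
  apply propext
  unfold fixT lit setT
  by_cases h : l.1 ∈ T
  · rw [if_pos h, if_pos h]
  · rw [if_neg h, if_neg h]

theorem fixT_congr {T A : Finset V} {z z' : V × Bool → Prop} (h : ∀ l, l.1 ∉ T → (z l ↔ z' l)) :
    fixT T A z = fixT T A z' := by
  funext l
  apply propext
  unfold fixT
  by_cases h1 : l.1 ∈ T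
  · rw [if_pos h1, if_pos h1]
  · rw [if_neg h1, if_neg h1]
    exact h l h1

/-- The new function has no 0-hazard inside `T`. -/
theorem muxF_up {s : ℕ} (D : Circuit V s) (T U : Finset V) (hU : U ⊆ T) (x : V → Prop)
    (hx : ∀ y : V → Prop, (∀ v, v ∉ U → (y v ↔ x v)) → ¬ D.Accepts (lit y)) :
    ¬ muxF D T fun l => l.1 ∈ U ∨ lit x l := by
  classical
  rintro ⟨P, hP, Q, hQ, hPQ, h1, h2, h3⟩
  -- the assignment: `P` on `U`, `x` outside
  obtain ⟨A, hA⟩ : ∃ A, A = T.filter fun v => if v ∈ U then v ∈ P else x v := ⟨_, rfl⟩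
  have hPA : P ⊆ A := by
    intro i hi
    rw [hA]
    refine mem_filter.2 ⟨hP hi, ?_⟩
    by_cases h4 : i ∈ U
    · rw [if_pos h4]
      exact hi
    · rw [if_neg h4]
      exact ((h1 i hi).resolve_left h4).2 rfl
  have hQA : Disjoint Q A := by
    rw [disjoint_left]
    intro i hi hiA
    rw [hA] at hiA
    have h5 := (mem_filter.1 hiA).2
    by_cases h4 : i ∈ U
    · rw [if_pos h4] at h5
      exact disjoint_left.1 hPQ h5 hi
    · rw [if_neg h4] at h5
      exact absurd (((h2 i hi).resolve_left h4).1 h5) (by simp)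
  have h4 := h3 A (by rw [hA]; exact filter_subset _ _) hPA hQA
  rw [fixT_congr (z' := lit x) (fun l hl => ⟨fun h => h.resolve_left fun h5 => hl (hU h5),
    fun h => Or.inr h⟩), fixT_lit] at h4
  refine hx _ (fun v hv => ?_) h4
  show (if v ∈ T then v ∈ A else x v) ↔ x v
  by_cases h5 : v ∈ T
  · rw [if_pos h5, hA, mem_filter, if_neg hv]
    exact ⟨fun h => h.2, fun h => ⟨h5, h⟩⟩
  · rw [if_neg h5]

/-- The new function has no 1-hazard inside `T`. -/
theorem muxF_down {s : ℕ} (D : Circuit V s) (T U : Finset V) (hU : U ⊆ T) (x : V → Prop)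
    (hx : ∀ y : V → Prop, (∀ v, v ∉ U → (y v ↔ x v)) → D.Accepts (lit y)) :
    muxF D T fun l => l.1 ∉ U ∧ lit x l := by
  classical
  refine ⟨(T \ U).filter fun v => x v, (filter_subset _ _).trans sdiff_subset,
    (T \ U).filter fun v => ¬ x v, (filter_subset _ _).trans sdiff_subset,
    disjoint_filter_filter_not _ _ _, ?_, ?_, ?_⟩
  · intro i hi
    obtain ⟨h1, h2⟩ := mem_filter.1 hi
    exact ⟨(mem_sdiff.1 h1).2, iff_of_true h2 rfl⟩
  · intro i hi
    obtain ⟨h1, h2⟩ := mem_filter.1 hi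
    exact ⟨(mem_sdiff.1 h1).2, iff_of_false h2 (by simp)⟩
  · intro A hA hPA hQA
    rw [fixT_congr (z' := lit x) (fun l hl => ⟨fun h => h.2,
      fun h => ⟨fun h5 => hl (hU h5), h⟩⟩), fixT_lit]
    refine hx _ fun v hv => ?_
    show (if v ∈ T then v ∈ A else x v) ↔ x v
    by_cases h5 : v ∈ T
    · rw [if_pos h5]
      by_cases h6 : x v
      · exact iff_of_true (hPA (mem_filter.2 ⟨mem_sdiff.2 ⟨h5, hv⟩, h6⟩)) h6
      · refine iff_of_false (fun h7 => ?_) h6
        exact disjoint_left.1 hQA (mem_filter.2 ⟨mem_sdiff.2 ⟨h5, hv⟩, h6⟩) h7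
    · rw [if_neg h5]

theorem muxF_lit {s : ℕ} (D : Circuit V s) (T : Finset V) (x : V → Prop) :
    muxF D T (lit x) ↔ D.Accepts (lit x) := by
  constructor
  · intro h
    by_contra h1
    refine muxF_up D T ∅ (empty_subset _) x (fun y hy => ?_) ?_
    · have : y = x := funext fun v => propext (hy v (notMem_empty v))
      rw [this]
      exact h1
    · have : (fun l : V × Bool => l.1 ∈ (∅ : Finset V) ∨ lit x l) = lit x := by
        funext l
        simp
      rw [this]
      exact h
  · intro h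
    have h1 := muxF_down D T ∅ (empty_subset _) x (fun y hy => by
      have : y = x := funext fun v => propext (hy v (notMem_empty v))
      rw [this]
      exact h)
    have : (fun l : V × Bool => l.1 ∉ (∅ : Finset V) ∧ lit x l) = lit x := by
      funext l
      simp
    rw [this] at h1
    exact h1

theorem reach_mux {s₀ s : ℕ} (D : Circuit V s₀) (T : Finset V)
    {S : Set (SliceCircuits.BF (V × Bool))} (hR : SliceCircuits.Reach s 0 S)
    (hlit : ∀ l, (fun z : V × Bool → Prop => z l) ∈ S)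
    (h1 : (fun _ : V × Bool → Prop => True) ∈ S) (h0 : (fun _ : V × Bool → Prop => False) ∈ S) :
    ∃ S₂, S ⊆ S₂ ∧ SliceCircuits.Reach (s + (2 ^ T.card * s₀ + 4 ^ T.card)) 0 S₂ ∧
      ∀ P ⊆ T, ∀ Q ⊆ T, term D T P Q ∈ S₂ := by
  classical
  obtain ⟨S₁, h01, hR₁, hacc⟩ := SliceCircuits.Reach.family (h := 0) (T := S)
    T.powerset s₀ (fun A S' => (fun z => D.Accepts (fixT T A z)) ∈ S')
    (fun i T' T'' h2 h3 => h2 h3)
    (by
      intro A _ s S' hS' hR'
      obtain ⟨S₂, h2, h3, h4⟩ := reach_subst_accepts D (fixT T A) hR' (by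
        intro l
        by_cases hl : l.1 ∈ T
        · by_cases h5 : (l.1 ∈ A ↔ l.2 = true)
          · have : (fun z : V × Bool → Prop => fixT T A z l) = fun _ => True := by
              funext z
              unfold fixT
              rw [if_pos hl]
              exact propext (iff_true_intro h5)
            rw [this]
            exact hS' h1
          · have : (fun z : V × Bool → Prop => fixT T A z l) = fun _ => False := by
              funext z
              unfold fixT
              rw [if_pos hl]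
              exact propext (iff_false_intro h5)
            rw [this]
            exact hS' h0
        · have : (fun z : V × Bool → Prop => fixT T A z l) = fun z => z l := by
            funext z
            unfold fixT
            rw [if_neg hl]
          rw [this]
          exact hS' (hlit l))
      exact ⟨S₂, h2, h3, h4⟩)
    hR
  obtain ⟨S₂, h12, hR₂, hterm⟩ := SliceCircuits.Reach.family (h := 0) (T := S₁)
    (T.powerset ×ˢ T.powerset) 1 (fun p S' => term D T p.1 p.2 ∈ S')
    (fun i T' T'' h2 h3 => h2 h3)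
    (by
      intro p _ s S' hS' hR'
      have hg : SliceCircuits.OneGate S' (term D T p.1 p.2) := by
        refine Or.inl ⟨((fun i => fun z : V × Bool → Prop => z (i, true)) '' (p.1 : Set V)) ∪
          ((fun i => fun z : V × Bool → Prop => z (i, false)) '' (p.2 : Set V)) ∪
          ((fun A => fun z => D.Accepts (fixT T A z)) ''
            ((T.powerset.filter fun A => p.1 ⊆ A ∧ Disjoint p.2 A : Finset (Finset V)) :
              Set (Finset V))),
          ((p.1.finite_toSet.image _).union (p.2.finite_toSet.image _)).union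
            ((Finset.finite_toSet _).image _), ?_, ?_⟩
        · rintro f ((⟨i, -, rfl⟩ | ⟨i, -, rfl⟩) | ⟨A, hA, rfl⟩)
          · exact hS' (h01 (hlit _))
          · exact hS' (h01 (hlit _))
          · exact hS' (hacc A (mem_filter.1 (mem_coe.1 hA)).1)
        · funext z
          refine propext ⟨?_, ?_⟩
          · rintro ⟨h2, h3, h4⟩ f ((⟨i, hi, rfl⟩ | ⟨i, hi, rfl⟩) | ⟨A, hA, rfl⟩)
            · exact h2 i hi
            · exact h3 i hi
            · obtain ⟨h5, h6, h7⟩ := mem_filter.1 (mem_coe.1 hA)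
              exact h4 A (mem_powerset.1 h5) h6 h7
          · intro h2
            refine ⟨fun i hi => h2 _ (Or.inl (Or.inl ⟨i, hi, rfl⟩)),
              fun i hi => h2 _ (Or.inl (Or.inr ⟨i, hi, rfl⟩)), fun A hA h5 h6 => ?_⟩
            exact h2 _ (Or.inr ⟨A, mem_coe.2 (mem_filter.2 ⟨mem_powerset.2 hA, h5, h6⟩), rfl⟩)
      exact ⟨_, Set.subset_insert _ _, hR'.one hg, Set.mem_insert _ _⟩)
    hR₁
  refine ⟨S₂, h01.trans h12, hR₂.mono ?_ le_rfl subset_rfl, fun P hP Q hQ =>
    hterm (P, Q) (mem_product.2 ⟨mem_powerset.2 hP, mem_powerset.2 hQ⟩)⟩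
  rw [card_product, card_powerset]
  have h4 : (4 : ℕ) ^ T.card = 2 ^ T.card * 2 ^ T.card := by
    rw [← mul_pow]
    norm_num
  rw [h4]
  omega

theorem oneGate_mux {s : ℕ} (D : Circuit V s) (T : Finset V)
    {S : Set (SliceCircuits.BF (V × Bool))} (hS : ∀ P ⊆ T, ∀ Q ⊆ T, term D T P Q ∈ S) :
    SliceCircuits.OneGate S (muxF D T) := by
  classical
  refine Or.inr ⟨(fun p : Finset V × Finset V => term D T p.1 p.2) ''
    (((T.powerset ×ˢ T.powerset).filter fun p => Disjoint p.1 p.2 :
      Finset (Finset V × Finset V)) : Set (Finset V × Finset V)),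
    (Finset.finite_toSet _).image _, ?_, ?_⟩
  · rintro f ⟨p, hp, rfl⟩
    obtain ⟨h1, -⟩ := mem_filter.1 (mem_coe.1 hp)
    obtain ⟨h2, h3⟩ := mem_product.1 h1
    exact hS _ (mem_powerset.1 h2) _ (mem_powerset.1 h3)
  · funext z
    refine propext ⟨?_, ?_⟩
    · rintro ⟨P, hP, Q, hQ, hPQ, h⟩
      exact ⟨_, ⟨(P, Q), mem_coe.2 (mem_filter.2 ⟨mem_product.2 ⟨mem_powerset.2 hP,
        mem_powerset.2 hQ⟩, hPQ⟩), rfl⟩, h⟩
    · rintro ⟨f, ⟨p, hp, rfl⟩, h⟩
      obtain ⟨h1, h4⟩ := mem_filter.1 (mem_coe.1 hp)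
      obtain ⟨h2, h3⟩ := mem_product.1 h1
      exact ⟨p.1, mem_powerset.1 h2, p.2, mem_powerset.1 h3, h4, h⟩

/-- The literals and the constants. -/
theorem exists_base (V : Type) : ∃ S : Set (SliceCircuits.BF (V × Bool)),
    SliceCircuits.Reach 2 0 S ∧ (∀ l, (fun z : V × Bool → Prop => z l) ∈ S) ∧
    (fun _ : V × Bool → Prop => True) ∈ S ∧ (fun _ : V × Bool → Prop => False) ∈ S :=
  ⟨_, ((SliceCircuits.reach_vars (V := V × Bool)).one SliceCircuits.oneGate_true).one
    SliceCircuits.oneGate_false, fun l => Or.inr (Or.inr ⟨l, rfl⟩), Or.inr (Or.inl rfl),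
    Or.inl rfl⟩

/-- Circuits without hazards of either kind inside `T`. -/
theorem no_hazards_in {s : ℕ} (D : Circuit V s) (T : Finset V) :
    ∃ s' ≤ 2 ^ T.card * s + 4 ^ T.card + 3, ∃ D' : Circuit V s',
      (∀ x, D'.Accepts (lit x) ↔ D.Accepts (lit x)) ∧
      ∀ (x : V → Prop) (U : Finset V), U ⊆ T → ¬ D'.Hazard0 x U ∧ ¬ D'.Hazard1 x U := by
  classical
  obtain ⟨S₀, r0, hlit, ht, hf⟩ := exists_base V
  obtain ⟨S, -, hR, hS⟩ := reach_mux D T r0 hlit ht hf
  obtain ⟨s', hs', E, hE, hacc⟩ := hR.circuit (oneGate_mux D T hS)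
  obtain ⟨D', hD'⟩ := exists_lit_circuit E (Nat.le_zero.1 hE)
  have key : ∀ x, D'.Accepts (lit x) ↔ D.Accepts (lit x) := fun x => by
    rw [hD', hacc, muxF_lit]
  refine ⟨s', hs'.trans (by omega), D', key, fun x U hU => ⟨?_, ?_⟩⟩
  · rintro ⟨h1, h2⟩
    rw [hD', hacc] at h2
    exact muxF_up D T U hU x (fun y hy h3 => h1 y hy ((key y).2 h3)) h2
  · rintro ⟨h1, h2⟩
    rw [hD', hacc] at h2
    exact h2 (muxF_down D T U hU x fun y hy => (key y).1 (h1 y hy))

end Pool.Agent.HazardCircuits
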