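import Mathlib
import Pool.Agent.Lib.MP_0a1b52_lc_HAZ.Fixed
import Pool.Agent.Lib.MP_0a1b52_lc_SLICE2.Up2

/-!
Circuits without hazards of either kind of at most `k` bits (the construction of Ikenmeyer,
Komarath, Lenzen, Lysikov, Mokhov and Sreenivasaiah, 2018).
-/

namespace Pool.Agent.HazardCircuits

open Finset

variable {V : Type} [DecidableEq V]

/-- The new function. -/
def twoF {s : ℕ} (D : Circuit V s) (k : ℕ) : SliceCircuits.BF (V × Bool) :=
  fun z => ∃ I : Finset V, I.card ≤ k ∧ ∀ J : Finset V, J.card ≤ k → muxF D (I ∪ J) z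

theorem reach_two [Fintype V] {s₀ k : ℕ} (D : Circuit V s₀) :
    ∃ S, SliceCircuits.Reach (2 + ((Fintype.card V + 1) ^ k * (Fintype.card V + 1) ^ k *
      (4 ^ k * s₀ + 16 ^ k + 1) + (Fintype.card V + 1) ^ k)) 0 S ∧
      ∀ I : Finset V, I.card ≤ k →
        (fun z => ∀ J : Finset V, J.card ≤ k → muxF D (I ∪ J) z) ∈ S := by
  classical
  obtain ⟨S₀, r0, hlit, ht, hf⟩ := exists_base V
  obtain ⟨S₁, h01, hR₁, h1⟩ := SliceCircuits.Reach.family (h := 0) (T := S₀)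
    (SliceCircuits.small V k ×ˢ SliceCircuits.small V k) (4 ^ k * s₀ + 16 ^ k + 1)
    (fun p S' => muxF D (p.1 ∪ p.2) ∈ S') (fun i T' T'' h2 h3 => h2 h3)
    (by
      intro p hp s S' hS' hR'
      obtain ⟨h2, h3⟩ := mem_product.1 hp
      have hc : (p.1 ∪ p.2).card ≤ 2 * k := by
        have h4 := card_union_le p.1 p.2
        have h5 := SliceCircuits.mem_small.1 h2
        have h6 := SliceCircuits.mem_small.1 h3
        omega
      obtain ⟨S₂, h4, h5, h6⟩ := reach_mux D (p.1 ∪ p.2) hR' (fun l => hS' (hlit l)) (hS' ht)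
        (hS' hf)
      refine ⟨_, h4.trans (Set.subset_insert _ _), (h5.one (oneGate_mux D _ h6)).mono ?_ le_rfl
        subset_rfl, Set.mem_insert _ _⟩
      have h7 : (2 : ℕ) ^ (p.1 ∪ p.2).card ≤ 4 ^ k := by
        calc (2 : ℕ) ^ (p.1 ∪ p.2).card ≤ 2 ^ (2 * k) := Nat.pow_le_pow_right (by norm_num) hc
          _ = 4 ^ k := by rw [pow_mul]; norm_num
      have h8 : (4 : ℕ) ^ (p.1 ∪ p.2).card ≤ 16 ^ k := by
        calc (4 : ℕ) ^ (p.1 ∪ p.2).card ≤ 4 ^ (2 * k) := Nat.pow_le_pow_right (by norm_num) hc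
          _ = 16 ^ k := by rw [pow_mul]; norm_num
      have h9 : 2 ^ (p.1 ∪ p.2).card * s₀ ≤ 4 ^ k * s₀ := Nat.mul_le_mul_right _ h7
      omega)
    r0
  obtain ⟨S₂, h12, hR₂, h2⟩ := SliceCircuits.Reach.family (h := 0) (T := S₁)
    (SliceCircuits.small V k) 1
    (fun I S' => (fun z => ∀ J : Finset V, J.card ≤ k → muxF D (I ∪ J) z) ∈ S')
    (fun i T' T'' h2 h3 => h2 h3)
    (by
      intro I hI s S' hS' hR'
      have hg : SliceCircuits.OneGate S'
          (fun z => ∀ J : Finset V, J.card ≤ k → muxF D (I ∪ J) z) := by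
        refine Or.inl ⟨(fun J => muxF D (I ∪ J)) '' (SliceCircuits.small V k : Set (Finset V)),
          (Finset.finite_toSet _).image _, ?_, ?_⟩
        · rintro f ⟨J, hJ, rfl⟩
          exact hS' (h1 (I, J) (mem_product.2 ⟨hI, hJ⟩))
        · funext z
          refine propext ⟨?_, ?_⟩
          · rintro h f ⟨J, hJ, rfl⟩
            exact h J (SliceCircuits.mem_small.1 hJ)
          · exact fun h J hJ => h _ ⟨J, mem_coe.2 (SliceCircuits.mem_small.2 hJ), rfl⟩
      exact ⟨_, Set.subset_insert _ _, hR'.one hg, Set.mem_insert _ _⟩)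
    hR₁
  refine ⟨S₂, hR₂.mono ?_ le_rfl subset_rfl, fun I hI => h2 I (SliceCircuits.mem_small.2 hI)⟩
  have h3 := SliceCircuits.card_small (V := V) k
  rw [card_product, Nat.mul_one]
  have h4 : (SliceCircuits.small V k).card * (SliceCircuits.small V k).card *
      (4 ^ k * s₀ + 16 ^ k + 1) ≤ (Fintype.card V + 1) ^ k * (Fintype.card V + 1) ^ k *
      (4 ^ k * s₀ + 16 ^ k + 1) := Nat.mul_le_mul_right _ (Nat.mul_le_mul h3 h3)
  omega

/-- Circuits without hazards of at most `k` bits. -/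
theorem no_hazards [Fintype V] {s : ℕ} (D : Circuit V s) (k : ℕ) :
    ∃ s' ≤ 16 ^ k * (Fintype.card V + 1) ^ (2 * k) * (s + 6), ∃ D' : Circuit V s',
      (∀ x, D'.Accepts (lit x) ↔ D.Accepts (lit x)) ∧ D'.Free0 k ∧ D'.Free1 k := by
  classical
  obtain ⟨S, hR, hS⟩ := reach_two (k := k) D
  obtain ⟨s', hs', E, hE, hacc⟩ := hR.circuit (f := twoF D k) (by
    refine Or.inr ⟨(fun I => fun z => ∀ J : Finset V, J.card ≤ k → muxF D (I ∪ J) z) ''
      (SliceCircuits.small V k : Set (Finset V)), (Finset.finite_toSet _).image _, ?_, ?_⟩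
    · rintro f ⟨I, hI, rfl⟩
      exact hS I (SliceCircuits.mem_small.1 hI)
    · funext z
      refine propext ⟨?_, ?_⟩
      · rintro ⟨I, hI, h⟩
        exact ⟨_, ⟨I, mem_coe.2 (SliceCircuits.mem_small.2 hI), rfl⟩, h⟩
      · rintro ⟨f, ⟨I, hI, rfl⟩, h⟩
        exact ⟨I, SliceCircuits.mem_small.1 hI, h⟩)
  obtain ⟨D', hD'⟩ := exists_lit_circuit E (Nat.le_zero.1 hE)
  have key : ∀ x, D'.Accepts (lit x) ↔ D.Accepts (lit x) := fun x => by
    rw [hD', hacc]
    constructor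
    · rintro ⟨I, -, h⟩
      exact (muxF_lit D _ x).1 (h ∅ (by simp))
    · exact fun h => ⟨∅, by simp, fun J _ => (muxF_lit D _ x).2 h⟩
  refine ⟨s', hs'.trans ?_, D', key, ?_, ?_⟩
  · obtain ⟨q, hq⟩ : ∃ q, q = (Fintype.card V + 1) ^ k := ⟨_, rfl⟩
    have h1 : 1 ≤ q := by
      rw [hq]
      exact Nat.one_le_pow _ _ (by omega)
    have h2 : (Fintype.card V + 1) ^ (2 * k) = q * q := by rw [hq, two_mul, pow_add]
    rw [h2, ← hq]
    have h3 : q ≤ q * q := Nat.le_mul_self q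
    have h4 : 1 ≤ (16 : ℕ) ^ k := Nat.one_le_pow _ _ (by norm_num)
    have h5 : (4 : ℕ) ^ k ≤ 16 ^ k := Nat.pow_le_pow_left (by norm_num) k
    have h6 : 4 ^ k * s + 16 ^ k + 1 + 4 ≤ 16 ^ k * (s + 6) := by
      have h7 : 4 ^ k * s ≤ 16 ^ k * s := Nat.mul_le_mul_right _ h5
      have h8 : 16 ^ k * (s + 6) = 16 ^ k * s + 6 * 16 ^ k := by ring
      omega
    calc 2 + (q * q * (4 ^ k * s + 16 ^ k + 1) + q) + 1 ≤
        q * q * (4 ^ k * s + 16 ^ k + 1) + 4 * (q * q) := by omega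
      _ = q * q * (4 ^ k * s + 16 ^ k + 1 + 4) := by ring
      _ ≤ q * q * (16 ^ k * (s + 6)) := Nat.mul_le_mul_left _ h6
      _ = 16 ^ k * (q * q) * (s + 6) := by ring
  · rintro x U hU ⟨h1, h2⟩
    rw [hD', hacc] at h2
    obtain ⟨I, -, h⟩ := h2
    exact muxF_up D (I ∪ U) U subset_union_right x (fun y hy h3 => h1 y hy ((key y).2 h3))
      (h U hU)
  · rintro x U hU ⟨h1, h2⟩
    rw [hD', hacc] at h2
    exact h2 ⟨U, hU, fun J _ => muxF_down D (U ∪ J) U subset_union_left x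
      fun y hy => (key y).1 (h1 y hy)⟩

end Pool.Agent.HazardCircuits
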