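import Mathlib
import Pool.Agent.Lib.MP_0a1b52_lc_HAZ.Defs3
import Pool.Agent.Lib.MP_0a1b52_lc_HAZ.Asym
import Pool.Agent.Lib.MP_0a1b52_lc_HAZ.Two

/-!
The asymptotic forms, part 2.
-/

namespace Pool.Agent.HazardCircuits

open Finset

open SliceCircuits (EdgeVar)

theorem PolyWith.not_Q1 {P : ∀ n s : ℕ, Circuit (EdgeVar n) s → Prop} (h : PolyWith P) :
    ¬ SliceCircuits.Q1 := by
  obtain ⟨k, N, h⟩ := h
  exact not_Q1_of_poly ⟨k, N, fun n hn => by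
    obtain ⟨s, hs, D, hD, -⟩ := h n hn
    exact ⟨s, hs, D, hD⟩⟩

/-- Hazards of either kind, `c` bits. -/
theorem Q1_iff_both (c : ℕ) :
    SliceCircuits.Q1 ↔ ¬ PolyWith fun _ _ D => D.Free0 c ∧ D.Free1 c := by
  rw [← not_iff_not, not_not]
  constructor
  · intro h
    obtain ⟨k, N, h⟩ := poly_of_not_Q1 h
    refine ⟨16 ^ c + 4 * c + (6 + (k + 2) * 1), N + 2, fun n hn => ?_⟩
    obtain ⟨s, hs, D, hD⟩ := h n (by omega)
    obtain ⟨s', hs', D', h1, h2, h3⟩ := no_hazards D c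
    rw [SliceCircuits.card_var] at hs'
    refine ⟨s', hs'.trans ?_, D', fun x => (h1 x).trans (hD x), h2, h3⟩
    have h4 : (16 : ℕ) ^ c ≤ n ^ 16 ^ c :=
      (Nat.lt_pow_self (by omega)).le
    have h5 : n.choose 2 + 1 ≤ n ^ 2 := by
      have h6 := CliqueModules.two_mul_choose_two n
      have h7 : n * (n - 1) + n = n * n := by
        have : n - 1 + 1 = n := by omega
        calc n * (n - 1) + n = n * (n - 1 + 1) := by ring
          _ = n * n := by rw [this]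
      rw [pow_two]
      omega
    have h6 : (n.choose 2 + 1) ^ (2 * c) ≤ n ^ (4 * c) := by
      calc (n.choose 2 + 1) ^ (2 * c) ≤ (n ^ 2) ^ (2 * c) := Nat.pow_le_pow_left h5 _
        _ = n ^ (4 * c) := by
          rw [← pow_mul]
          congr 1
          ring
    have h7 : s + 6 ≤ n ^ (6 + (k + 2) * 1) := by
      refine le_trans ?_ (SliceCircuits.poly_bound 6 k n s 1 (by omega) hs)
      rw [pow_one]
      omega
    calc 16 ^ c * (n.choose 2 + 1) ^ (2 * c) * (s + 6) ≤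
        n ^ 16 ^ c * n ^ (4 * c) * n ^ (6 + (k + 2) * 1) :=
          Nat.mul_le_mul (Nat.mul_le_mul h4 h6) h7
      _ = _ := by rw [← pow_add, ← pow_add]
  · exact fun h => h.not_Q1

/-- Hazards of either kind inside a small set. -/
theorem Q1_iff_in (c : ℕ) (T : ∀ n, Finset (EdgeVar n)) (hT : ∀ n, (T n).card ≤ c * Nat.log 2 n) :
    SliceCircuits.Q1 ↔ ¬ PolyWith fun n _ D => D.FreeIn (T n) := by
  classical
  rw [← not_iff_not, not_not]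
  constructor
  · intro h
    obtain ⟨k, N, h⟩ := poly_of_not_Q1 h
    refine ⟨2 * c + (4 + (k + 2) * 1), N + 2, fun n hn => ?_⟩
    obtain ⟨s, hs, D, hD⟩ := h n (by omega)
    have hs1 : 1 ≤ s := by
      have := D.out.2
      omega
    obtain ⟨s', hs', D', h1, h2⟩ := no_hazards_in D (T n)
    refine ⟨s', hs'.trans ?_, D', fun x => (h1 x).trans (hD x), h2⟩
    have h3 : (2 : ℕ) ^ (T n).card ≤ n ^ c := by
      calc (2 : ℕ) ^ (T n).card ≤ 2 ^ (c * Nat.log 2 n) :=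
            Nat.pow_le_pow_right (by norm_num) (hT n)
        _ = (2 ^ Nat.log 2 n) ^ c := by rw [← pow_mul, mul_comm]
        _ ≤ n ^ c := Nat.pow_le_pow_left (Nat.pow_log_le_self 2 (by omega)) _
    have h4 : (4 : ℕ) ^ (T n).card ≤ n ^ (2 * c) := by
      calc (4 : ℕ) ^ (T n).card = (2 ^ (T n).card) ^ 2 := by
            rw [← pow_mul, mul_comm, pow_mul]
            norm_num
        _ ≤ (n ^ c) ^ 2 := Nat.pow_le_pow_left h3 2
        _ = _ := by rw [← pow_mul, mul_comm]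
    have h5 : (2 : ℕ) ^ (T n).card * s ≤ n ^ (2 * c) * s := by
      refine Nat.mul_le_mul_right _ (h3.trans (Nat.pow_le_pow_right (by omega) (by omega)))
    have h6 : 1 ≤ n ^ (2 * c) := Nat.one_le_pow _ _ (by omega)
    have h7 : 4 * (n + s) ^ 1 ≤ n ^ (4 + (k + 2) * 1) :=
      SliceCircuits.poly_bound 4 k n s 1 (by omega) hs
    rw [pow_one] at h7
    calc 2 ^ (T n).card * s + 4 ^ (T n).card + 3 ≤
        n ^ (2 * c) * s + n ^ (2 * c) + 3 * n ^ (2 * c) := by omega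
      _ = n ^ (2 * c) * (s + 4) := by ring
      _ ≤ n ^ (2 * c) * n ^ (4 + (k + 2) * 1) := Nat.mul_le_mul_left _ (by omega)
      _ = _ := (pow_add _ _ _).symm
  · exact fun h => h.not_Q1

/-- The lower bound for polynomial size. -/
theorem poly_lower_in (hL : LowerHaz) (T : ∀ n, Finset (EdgeVar n))
    (hT : ∀ C : ℕ, ∃ n₀ : ℕ, ∀ n ≥ n₀, C * Nat.log 2 n ^ 8 ≤ (T n).card) (c : ℕ) :
    ∃ n₁ : ℕ, ∀ n ≥ n₁, ∀ s ≤ n ^ c, ∀ D : Circuit (EdgeVar n) s, D.Computes (cliqueFn n) →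
      (∃ x U, U ⊆ T n ∧ D.Hazard0 x U) ∧ ∃ x U, U ⊆ T n ∧ D.Hazard1 x U := by
  obtain ⟨C, hC⟩ := hL
  obtain ⟨n₁, h1⟩ := hT (C * (2 * c + 2) ^ 8 + 1)
  obtain ⟨n₂, h2⟩ := SliceCircuits.log_pow_le_sqrt (C * (2 * c + 2) ^ 8)
  refine ⟨n₁ + n₂ + 4, fun n hn s hs D hD => ?_⟩
  have h3 := SliceCircuits.log_size n s c (by omega) hs
  have h4 := h1 n (by omega)
  have h5 := h2 n (by omega)
  have hC' := hC n s D hD
  obtain ⟨L, hLdef⟩ : ∃ L, L = Nat.log 2 (n * s) + 1 := ⟨_, rfl⟩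
  rw [← hLdef] at h3 hC'
  have hl1 : 1 ≤ Nat.log 2 n := Nat.le_log_of_pow_le (by norm_num) (by omega)
  have hl8 : 1 ≤ Nat.log 2 n ^ 8 := Nat.one_le_pow _ _ hl1
  have h6 : C * L ^ 8 ≤ C * (2 * c + 2) ^ 8 * Nat.log 2 n ^ 8 := by
    calc C * L ^ 8 ≤ C * ((2 * c + 2) * Nat.log 2 n) ^ 8 :=
          Nat.mul_le_mul_left _ (Nat.pow_le_pow_left h3 8)
      _ = C * (2 * c + 2) ^ 8 * Nat.log 2 n ^ 8 := by rw [mul_pow, mul_assoc]
  have h7 : C * (2 * c + 2) ^ 8 * Nat.log 2 n ^ 8 + 1 ≤ (T n).card := by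
    calc C * (2 * c + 2) ^ 8 * Nat.log 2 n ^ 8 + 1 ≤
          C * (2 * c + 2) ^ 8 * Nat.log 2 n ^ 8 + Nat.log 2 n ^ 8 := by omega
      _ = (C * (2 * c + 2) ^ 8 + 1) * Nat.log 2 n ^ 8 := by ring
      _ ≤ _ := h4
  exact hC' ((h6.trans h5).trans (Nat.sqrt_le_self n)) (T n) (by omega)

/-- Numerical facts for quasi-polynomial bounds. -/
theorem qp_arith {l k d : ℕ} (hl : 2 ≤ l) :
    4 * l ^ d + (2 * l + 2) * (2 * l ^ d) + (l ^ k + 3) ≤ l ^ (k + d + 8) := by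
  have ha : l ^ d ≤ l ^ (k + d + 1) := Nat.pow_le_pow_right (by omega) (by omega)
  have hb : l ^ k ≤ l ^ (k + d + 1) := Nat.pow_le_pow_right (by omega) (by omega)
  have hc : l * l ^ d ≤ l ^ (k + d + 1) := by
    rw [← pow_succ']
    exact Nat.pow_le_pow_right (by omega) (by omega)
  have h1 : 1 ≤ l ^ (k + d + 1) := Nat.one_le_pow _ _ (by omega)
  have hd : l ^ (k + d + 8) = l ^ (k + d + 1) * l ^ 7 := by rw [← pow_add]
  have he : 128 ≤ l ^ 7 := by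
    calc 128 = 2 ^ 7 := by norm_num
      _ ≤ l ^ 7 := Nat.pow_le_pow_left hl 7
  have hf : l ^ (k + d + 1) * 128 ≤ l ^ (k + d + 1) * l ^ 7 := Nat.mul_le_mul_left _ he
  have hg : (2 * l + 2) * (2 * l ^ d) = 4 * (l * l ^ d) + 4 * l ^ d := by ring
  omega

theorem qp_size_both {l k d n s s' m : ℕ} (hl : 2 ≤ l) (hn0 : 1 ≤ n) (hn : n < 2 ^ (l + 1))
    (hs : s ≤ 2 ^ l ^ k) (hm : m ≤ l ^ d)
    (hs' : s' ≤ 16 ^ m * (n.choose 2 + 1) ^ (2 * m) * (s + 6)) :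
    s' ≤ 2 ^ l ^ (k + d + 8) := by
  have h1 : (16 : ℕ) ^ m ≤ 2 ^ (4 * l ^ d) := by
    have h2 : (16 : ℕ) = 2 ^ 4 := by norm_num
    rw [h2, ← pow_mul]
    exact Nat.pow_le_pow_right (by norm_num) (by omega)
  have h3 : n.choose 2 + 1 ≤ 2 ^ (2 * l + 2) := by
    have h6 := CliqueModules.two_mul_choose_two n
    have h7 : n * (n - 1) + n = n * n := by
      have : n - 1 + 1 = n := by omega
      calc n * (n - 1) + n = n * (n - 1 + 1) := by ring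
        _ = n * n := by rw [this]
    have h8 : n * n ≤ 2 ^ (2 * l + 2) := by
      calc n * n ≤ 2 ^ (l + 1) * 2 ^ (l + 1) := Nat.mul_le_mul hn.le hn.le
        _ = _ := by rw [← pow_add]; congr 1; ring
    have h9 : 1 ≤ (2 : ℕ) ^ (2 * l + 2) := Nat.one_le_pow _ _ (by norm_num)
    rcases Nat.lt_or_ge n 2 with h10 | h10
    · have : n.choose 2 = 0 := Nat.choose_eq_zero_of_lt h10
      omega
    · omega
  have h4 : (n.choose 2 + 1) ^ (2 * m) ≤ 2 ^ ((2 * l + 2) * (2 * l ^ d)) := by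
    calc (n.choose 2 + 1) ^ (2 * m) ≤ (2 ^ (2 * l + 2)) ^ (2 * m) := Nat.pow_le_pow_left h3 _
      _ = 2 ^ ((2 * l + 2) * (2 * m)) := (pow_mul _ _ _).symm
      _ ≤ _ := Nat.pow_le_pow_right (by norm_num) (Nat.mul_le_mul_left _ (by omega))
  have h5 : s + 6 ≤ 2 ^ (l ^ k + 3) := by
    rw [pow_add]
    have h9 : 1 ≤ (2 : ℕ) ^ l ^ k := Nat.one_le_pow _ _ (by norm_num)
    omega
  calc s' ≤ 16 ^ m * (n.choose 2 + 1) ^ (2 * m) * (s + 6) := hs'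
    _ ≤ 2 ^ (4 * l ^ d) * 2 ^ ((2 * l + 2) * (2 * l ^ d)) * 2 ^ (l ^ k + 3) :=
      Nat.mul_le_mul (Nat.mul_le_mul h1 h4) h5
    _ = 2 ^ (4 * l ^ d + (2 * l + 2) * (2 * l ^ d) + (l ^ k + 3)) := by
      rw [← pow_add, ← pow_add]
    _ ≤ _ := Nat.pow_le_pow_right (by norm_num) (qp_arith hl)

/-- The exact theorem for quasi-polynomial size. -/
theorem qp_both (hL : LowerHaz) (k : ℕ → ℕ) :
    (QuasiPolyWith (fun n _ D => D.Free0 (k n) ∧ D.Free1 (k n)) ↔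
      QuasiPolyWith (fun _ _ _ => True) ∧ ∃ d n₀ : ℕ, ∀ n ≥ n₀, k n ≤ Nat.log 2 n ^ d) ∧
    (QuasiPolyWith (fun n _ D => D.Free0 (k n) ∨ D.Free1 (k n)) ↔
      QuasiPolyWith (fun _ _ _ => True) ∧ ∃ d n₀ : ℕ, ∀ n ≥ n₀, k n ≤ Nat.log 2 n ^ d) := by
  have up : (QuasiPolyWith (fun _ _ _ => True) ∧ ∃ d n₀ : ℕ, ∀ n ≥ n₀, k n ≤ Nat.log 2 n ^ d) →
      QuasiPolyWith (fun n _ D => D.Free0 (k n) ∧ D.Free1 (k n)) := by
    rintro ⟨⟨c, N, h⟩, d, n₀, hd⟩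
    refine ⟨c + d + 8, N + n₀ + 4, fun n hn => ?_⟩
    obtain ⟨s, hs, D, hD, -⟩ := h n (by omega)
    obtain ⟨s', hs', D', h1, h2, h3⟩ := no_hazards D (k n)
    rw [SliceCircuits.card_var] at hs'
    have hl : 2 ≤ Nat.log 2 n := Nat.le_log_of_pow_le (by norm_num) (by omega)
    exact ⟨s', qp_size_both hl (by omega) (Nat.lt_pow_succ_log_self (by norm_num) n) hs
      (hd n (by omega)) hs', D', fun x => (h1 x).trans (hD x), h2, h3⟩
  have low : QuasiPolyWith (fun n _ D => D.Free0 (k n) ∨ D.Free1 (k n)) →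
      (QuasiPolyWith (fun _ _ _ => True) ∧ ∃ d n₀ : ℕ, ∀ n ≥ n₀, k n ≤ Nat.log 2 n ^ d) := by
    rintro ⟨c, N, h⟩
    refine ⟨⟨c, N, fun n hn => ?_⟩, ?_⟩
    · obtain ⟨s, hs, D, hD, -⟩ := h n hn
      exact ⟨s, hs, D, hD, trivial⟩
    · obtain ⟨d, n₁, h1⟩ := qp_lower hL c
      refine ⟨d, N + n₁, fun n hn => ?_⟩
      obtain ⟨s, hs, D, hD, hF⟩ := h n (by omega)
      exact h1 n (by omega) s hs D hD (k n) hF
  have mid : QuasiPolyWith (fun n _ D => D.Free0 (k n) ∧ D.Free1 (k n)) →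
      QuasiPolyWith (fun n _ D => D.Free0 (k n) ∨ D.Free1 (k n)) := by
    rintro ⟨c, N, h⟩
    refine ⟨c, N, fun n hn => ?_⟩
    obtain ⟨s, hs, D, hD, hF⟩ := h n hn
    exact ⟨s, hs, D, hD, Or.inl hF.1⟩
  exact ⟨⟨fun h => low (mid h), up⟩, ⟨low, fun h => mid (up h)⟩⟩

/-- The lower bound for quasi-polynomial size inside a set. -/
theorem qp_lower_in (hL : LowerHaz) (c : ℕ) : ∃ d n₁ : ℕ, ∀ n ≥ n₁,
    ∀ s ≤ 2 ^ Nat.log 2 n ^ c, ∀ D : Circuit (EdgeVar n) s, D.Computes (cliqueFn n) →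
      ∀ T : Finset (EdgeVar n), Nat.log 2 n ^ d < T.card →
        (∃ x U, U ⊆ T ∧ D.Hazard0 x U) ∧ ∃ x U, U ⊆ T ∧ D.Hazard1 x U := by
  obtain ⟨C, hC⟩ := hL
  obtain ⟨n₂, h2⟩ := SliceCircuits.log_pow_le_sqrt' C (8 * (c + 2))
  obtain ⟨K, hK⟩ : ∃ K, K = 2 ^ C := ⟨_, rfl⟩
  refine ⟨8 * (c + 2) + 1, n₂ + 4 + K, fun n hn s hs D hD T hT => ?_⟩
  have h3 := SliceCircuits.log_size' n s c (by omega) hs
  have h5 := h2 n (by omega)
  have hC' := hC n s D hD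
  obtain ⟨L, hLdef⟩ : ∃ L, L = Nat.log 2 (n * s) + 1 := ⟨_, rfl⟩
  rw [← hLdef] at h3 hC'
  have hl : C ≤ Nat.log 2 n := Nat.le_log_of_pow_le (by norm_num) (by rw [← hK]; omega)
  have h6 : L ^ 8 ≤ Nat.log 2 n ^ (8 * (c + 2)) := by
    calc L ^ 8 ≤ (Nat.log 2 n ^ (c + 2)) ^ 8 := Nat.pow_le_pow_left h3 8
      _ = _ := by rw [← pow_mul, mul_comm]
  have h7 : C * L ^ 8 ≤ C * Nat.log 2 n ^ (8 * (c + 2)) := Nat.mul_le_mul_left _ h6
  have h8 : C * L ^ 8 ≤ Nat.log 2 n ^ (8 * (c + 2) + 1) := by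
    calc C * L ^ 8 ≤ Nat.log 2 n * Nat.log 2 n ^ (8 * (c + 2)) := Nat.mul_le_mul hl h6
      _ = _ := by rw [pow_succ, mul_comm]
  exact hC' ((h7.trans h5).trans (Nat.sqrt_le_self n)) T (by omega)

/-- The exact theorem for quasi-polynomial size and hazards inside a given set. -/
theorem qp_in (hL : LowerHaz) (T : ∀ n, Finset (EdgeVar n)) :
    QuasiPolyWith (fun n _ D => D.FreeIn (T n)) ↔
      QuasiPolyWith (fun _ _ _ => True) ∧ ∃ d n₀ : ℕ, ∀ n ≥ n₀,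
        (T n).card ≤ Nat.log 2 n ^ d := by
  classical
  constructor
  · rintro ⟨c, N, h⟩
    refine ⟨⟨c, N, fun n hn => ?_⟩, ?_⟩
    · obtain ⟨s, hs, D, hD, -⟩ := h n hn
      exact ⟨s, hs, D, hD, trivial⟩
    · obtain ⟨d, n₁, h1⟩ := qp_lower_in hL c
      refine ⟨d, N + n₁, fun n hn => ?_⟩
      obtain ⟨s, hs, D, hD, hF⟩ := h n (by omega)
      by_contra h2
      obtain ⟨⟨x, U, hU, hx⟩, -⟩ := h1 n (by omega) s hs D hD (T n) (by omega)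
      exact (hF x U hU).1 hx
  · rintro ⟨hQ, d, n₀, hd⟩
    obtain ⟨c, N, h⟩ := hQ
    refine ⟨c + d + 8, N + n₀ + 4, fun n hn => ?_⟩
    obtain ⟨s, hs, D, hD, -⟩ := h n (by omega)
    obtain ⟨s', hs', D', h1, h2⟩ := no_hazards_in D (T n)
    have hl : 2 ≤ Nat.log 2 n := Nat.le_log_of_pow_le (by norm_num) (by omega)
    have hs1 : 1 ≤ s := by
      have := D.out.2
      omega
    refine ⟨s', ?_, D', fun x => (h1 x).trans (hD x), h2⟩
    have hd' := hd n (by omega)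
    obtain ⟨l, hldef⟩ : ∃ l, l = Nat.log 2 n := ⟨_, rfl⟩
    rw [← hldef] at hl hd' hs ⊢
    have h3 : (2 : ℕ) ^ (T n).card ≤ 2 ^ (2 * l ^ d) :=
      Nat.pow_le_pow_right (by norm_num) (by omega)
    have h4 : (4 : ℕ) ^ (T n).card ≤ 2 ^ (2 * l ^ d) := by
      have h5 : (4 : ℕ) = 2 ^ 2 := by norm_num
      rw [h5, ← pow_mul]
      exact Nat.pow_le_pow_right (by norm_num) (by omega)
    have h5 : 1 ≤ (2 : ℕ) ^ (2 * l ^ d) := Nat.one_le_pow _ _ (by norm_num)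
    have h6 : 2 ^ (T n).card * s ≤ 2 ^ (2 * l ^ d) * s := Nat.mul_le_mul_right _ h3
    have h7 : s + 6 ≤ 2 ^ (l ^ c + 3) := by
      rw [pow_add]
      have h9 : 1 ≤ (2 : ℕ) ^ l ^ c := Nat.one_le_pow _ _ (by norm_num)
      omega
    have h8 := qp_arith (k := c) (d := d) hl
    calc s' ≤ 2 ^ (T n).card * s + 4 ^ (T n).card + 3 := hs'
      _ ≤ 2 ^ (2 * l ^ d) * s + 2 ^ (2 * l ^ d) + 3 * 2 ^ (2 * l ^ d) := by omega
      _ = 2 ^ (2 * l ^ d) * (s + 4) := by ring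
      _ ≤ 2 ^ (2 * l ^ d) * 2 ^ (l ^ c + 3) := Nat.mul_le_mul_left _ (by omega)
      _ = 2 ^ (2 * l ^ d + (l ^ c + 3)) := (pow_add _ _ _).symm
      _ ≤ _ := Nat.pow_le_pow_right (by norm_num) (by omega)

end Pool.Agent.HazardCircuits
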