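import Mathlib
import Pool.Agent.Lib.MP_0a1b52_lc_HAZ.Circ

/-!
The clique function and circuits for it.
-/

namespace Pool.Agent.CliqueHazards

open HazardCircuits (Circuit lit)

/-- The Boolean variables `x_{ij}`, `i < j`, of graphs on the vertex set `Fin n`. -/
abbrev EdgeVar (n : ℕ) : Type := {p : Fin n × Fin n // p.1 < p.2}

/-- The assignment given by the graph `G`. -/
def edges {n : ℕ} (G : SimpleGraph (Fin n)) : EdgeVar n → Prop := fun e => G.Adj e.1.1 e.1.2

/-- `G` has a clique with more than `√n` vertices, i.e. `CLIQUE_n` is true on `G`. -/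
def HasClique {n : ℕ} (G : SimpleGraph (Fin n)) : Prop :=
  ∃ K : Finset (Fin n), G.IsClique (K : Set (Fin n)) ∧ Real.sqrt n < K.card

/-- `D` computes `CLIQUE_n`. -/
def Clq {n s : ℕ} (D : Circuit (EdgeVar n) s) : Prop :=
  ∀ G : SimpleGraph (Fin n), D.Accepts (lit (edges G)) ↔ HasClique G

/-- There are circuits of polynomial size for `CLIQUE_n`, for all large `n`, with the property
`P`. -/
def PolyWith (P : ∀ n s : ℕ, Circuit (EdgeVar n) s → Prop) : Prop :=
  ∃ c N : ℕ, ∀ n ≥ N, ∃ s ≤ n ^ c, ∃ D : Circuit (EdgeVar n) s, Clq D ∧ P n s D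

/-- There are circuits of quasi-polynomial size for `CLIQUE_n`, for all large `n`, with the
property `P`. -/
def QuasiPolyWith (P : ∀ n s : ℕ, Circuit (EdgeVar n) s → Prop) : Prop :=
  ∃ c N : ℕ, ∀ n ≥ N, ∃ s ≤ 2 ^ Nat.log 2 n ^ c, ∃ D : Circuit (EdgeVar n) s, Clq D ∧ P n s D

/-- Q1, word for word as in the frozen statement `S14355`: for all `k` and `N` there is `n ≥ N` such
that every circuit of AND gates and OR gates of fan-in 2 over literals which computes `CLIQUE_n`
has more than `n ^ k` gates. -/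
def Q1 : Prop :=
    ∀ k N : ℕ, ∃ n : ℕ, N ≤ n ∧
      ∀ s : ℕ, ∀ (op : Fin s → Bool)
        (a b : Fin s → ({p : Fin n × Fin n // p.1 < p.2} × Bool) ⊕ Fin s) (o : Fin s),
        (∀ i j : Fin s, (a i = Sum.inr j → j < i) ∧ (b i = Sum.inr j → j < i)) →
        (∀ G : SimpleGraph (Fin n), ∃ val : Fin s → Prop,
          (∀ i : Fin s, val i ↔
            (if op i = true then
              (Sum.elim (fun l : {p : Fin n × Fin n // p.1 < p.2} × Bool =>
                  (G.Adj l.1.1.1 l.1.1.2 ↔ l.2 = true)) val (a i) ∧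
               Sum.elim (fun l : {p : Fin n × Fin n // p.1 < p.2} × Bool =>
                  (G.Adj l.1.1.1 l.1.1.2 ↔ l.2 = true)) val (b i))
            else
              (Sum.elim (fun l : {p : Fin n × Fin n // p.1 < p.2} × Bool =>
                  (G.Adj l.1.1.1 l.1.1.2 ↔ l.2 = true)) val (a i) ∨
               Sum.elim (fun l : {p : Fin n × Fin n // p.1 < p.2} × Bool =>
                  (G.Adj l.1.1.1 l.1.1.2 ↔ l.2 = true)) val (b i)))) ∧
          (val o ↔ ∃ c : Finset (Fin n), G.IsClique (c : Set (Fin n)) ∧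
              Real.sqrt (n : ℝ) < (c.card : ℝ))) →
        n ^ k < s

end Pool.Agent.CliqueHazards
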