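import Mathlib
import Pool.Agent.Lib.MP_0a1b52_lc_BAND.Subcube
import Pool.Agent.Lib.MP_0a1b52_lc_HAZ.Defs

/-!
A small circuit for the clique function has a 0-hazard and a 1-hazard inside every set of
polylogarithmically many variables.
-/

namespace Pool.Agent.HazardCircuits

open Finset

variable {V : Type} {s : ℕ}

/-- A circuit over literals as a circuit without special gates. -/
def Circuit.toMod (D : Circuit V s) : CliqueModules.Circuit (V × Bool) s where
  gate i := if D.isAnd i = true then .and (D.wires i) else .or (D.wires i)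
  acyclic i j h := by
    refine D.acyclic i j ?_
    by_cases hi : D.isAnd i = true
    · rw [if_pos hi] at h
      exact h
    · rw [if_neg hi] at h
      exact h
  out := D.out

theorem Circuit.toMod_acc (D : Circuit V s) (z : V × Bool → Prop) :
    D.toMod.Acc z ↔ D.Accepts z := by
  refine exists_congr fun val => and_congr_left fun _ => forall_congr' fun i => ?_
  show (val i ↔ (if D.isAnd i = true then CliqueModules.Gate.and (D.wires i)
    else CliqueModules.Gate.or (D.wires i)).value _) ↔ _
  by_cases hi : D.isAnd i = true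
  · rw [if_pos hi, if_pos hi]
    exact Iff.rfl
  · rw [if_neg hi, if_neg hi]
    exact Iff.rfl

theorem Circuit.val_mono (D : Circuit V s) {z z' : V × Bool → Prop} (hz : ∀ l, z l → z' l)
    {val val' : Fin s → Prop} (h : D.IsEval z val) (h' : D.IsEval z' val') (k : ℕ) :
    ∀ i : Fin s, i.1 < k → val i → val' i := by
  induction k with
  | zero => exact fun i hi => absurd hi (by simp)
  | succ k ih =>
    intro i hi hv
    have hw : ∀ w ∈ D.wires i, Sum.elim z val w → Sum.elim z' val' w := by
      intro w hw
      cases w with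
      | inl v => exact hz v
      | inr j =>
        refine ih j ?_
        have := D.acyclic i j hw
        have : j.1 < i.1 := this
        omega
    have h1 := (h i).1 hv
    refine (h' i).2 ?_
    by_cases hi : D.isAnd i = true
    · rw [if_pos hi] at h1 ⊢
      exact fun w hw' => hw w hw' (h1 w hw')
    · rw [if_neg hi] at h1 ⊢
      obtain ⟨w, hw', h2⟩ := h1
      exact ⟨w, hw', hw w hw' h2⟩

theorem Circuit.accepts_mono (D : Circuit V s) {z z' : V × Bool → Prop}
    (hz : ∀ l, z l → z' l) (h : D.Accepts z) : D.Accepts z' := by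
  obtain ⟨val, hval, hout⟩ := h
  obtain ⟨val', hval', -⟩ : ∃ val', D.IsEval z' val' ∧ True := by
    obtain ⟨val', h'⟩ := D.toMod.exists_eval z'
    refine ⟨val', fun i => ?_, trivial⟩
    have h1 := h' i
    change (val' i ↔ (if D.isAnd i = true then CliqueModules.Gate.and (D.wires i)
      else CliqueModules.Gate.or (D.wires i)).value _) at h1
    by_cases hi : D.isAnd i = true
    · rw [if_pos hi] at h1 ⊢
      exact h1
    · rw [if_neg hi] at h1 ⊢
      exact h1
  exact ⟨val', hval', D.val_mono hz hval hval' s D.out D.out.2 hout⟩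

theorem Circuit.toMod_weight [Fintype V] (D : Circuit V s) (T : Finset (V × Bool)) :
    D.toMod.weight T = 1 := by
  classical
  have h : D.toMod.modules = ∅ := by
    unfold CliqueModules.Circuit.modules
    rw [eq_empty_iff_forall_notMem]
    intro J hJ
    obtain ⟨i, f, hi⟩ := (mem_filter.1 hJ).2
    change (if D.isAnd i = true then CliqueModules.Gate.and (D.wires i)
      else CliqueModules.Gate.or (D.wires i)) = CliqueModules.Gate.special J f at hi
    by_cases h : D.isAnd i = true
    · rw [if_pos h] at hi
      cases hi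
    · rw [if_neg h] at hi
      cases hi
  have h2 : D.toMod.chains = {∅} := by
    unfold CliqueModules.Circuit.chains
    rw [h, powerset_empty]
    refine filter_true_of_mem fun S hS => ?_
    rw [mem_singleton.1 hS]
    intro J hJ
    exact absurd hJ (notMem_empty J)
  unfold CliqueModules.Circuit.weight
  rw [h2, sum_singleton, prod_empty]

/-- The assignment given by a graph. -/
def ofGraph {n : ℕ} (G : SimpleGraph (Fin n)) : SliceCircuits.EdgeVar n → Prop :=
  fun e => G.Adj e.1.1 e.1.2

theorem graphOf_mono {n : ℕ} {x y : SliceCircuits.EdgeVar n → Prop} (h : ∀ e, x e → y e) :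
    graphOf x ≤ graphOf y := by
  intro u v huv
  rcases huv with ⟨h1, h2⟩ | ⟨h1, h2⟩
  · exact Or.inl ⟨h1, h _ h2⟩
  · exact Or.inr ⟨h1, h _ h2⟩

theorem graphOf_ofGraph {n : ℕ} (G : SimpleGraph (Fin n)) : graphOf (ofGraph G) = G := by
  ext u v
  constructor
  · rintro (⟨_, h⟩ | ⟨_, h⟩)
    · exact h
    · exact h.symm
  · intro h
    rcases lt_trichotomy u v with h1 | h1 | h1
    · exact Or.inl ⟨h1, h⟩
    · exact absurd h1 h.ne
    · exact Or.inr ⟨h1, h.symm⟩

theorem hasClique_mono {n : ℕ} {G G' : SimpleGraph (Fin n)} (h : G ≤ G')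
    (hG : SliceCircuits.HasClique G) : SliceCircuits.HasClique G' := by
  obtain ⟨K, hK, hK'⟩ := hG
  exact ⟨K, hK.mono h, hK'⟩

/-- The literals of the variables in `T` of the form `(e, false)` have the value `c`, the literals
of the variables outside `T` have their values for `G0`. -/
noncomputable def railMap {n : ℕ} (T : Finset (SliceCircuits.EdgeVar n))
    (G0 : SimpleGraph (Fin n)) (c : Prop) :
    SliceCircuits.EdgeVar n × Bool → CliqueModules.EdgeVar n ⊕ Prop := by
  classical
  exact fun l => if l.1 ∈ T then (if l.2 = true then Sum.inl l.1 else Sum.inr c)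
    else Sum.inr (lit (ofGraph G0) l)

theorem lift_railMap {n : ℕ} (T : Finset (SliceCircuits.EdgeVar n)) (G0 : SimpleGraph (Fin n))
    (c : Prop) (G : SimpleGraph (Fin n)) (l : SliceCircuits.EdgeVar n × Bool) :
    CliqueModules.lift (railMap T G0 c) G l ↔
      (l.1 ∈ T ∧ ((l.2 = true ∧ ofGraph G l.1) ∨ (l.2 = false ∧ c))) ∨
      (l.1 ∉ T ∧ lit (ofGraph G0) l) := by
  classical
  unfold CliqueModules.lift railMap
  by_cases h1 : l.1 ∈ T
  · by_cases h2 : l.2 = true
    · simp [h1, h2, ofGraph]
    · simp [h1, h2]
  · simp [h1]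

theorem haz_lower : ∃ C : ℕ, ∀ (n s : ℕ) (D : Circuit (SliceCircuits.EdgeVar n) s),
    D.Computes (cliqueFn n) → C * (Nat.log 2 (n * s) + 1) ^ 8 ≤ n →
    ∀ T : Finset (SliceCircuits.EdgeVar n), C * (Nat.log 2 (n * s) + 1) ^ 8 < T.card →
      (∃ x U, U ⊆ T ∧ D.Hazard0 x U) ∧ (∃ x U, U ⊆ T ∧ D.Hazard1 x U) := by
  classical
  obtain ⟨C, hC⟩ := CliqueModules.main3
  refine ⟨C, fun n s D hD hn T hT => ?_⟩
  obtain ⟨G0, N, P, Q, hN, hP, hQ, hP', hQ', h⟩ := hC n n s le_rfl hn T (by omega)
  have hN' : (0 : ℝ) < N := by exact_mod_cast hN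
  have hTR : (C : ℝ) * (Nat.log 2 (n * s) + 1) ^ 8 < T.card := by exact_mod_cast hT
  have hT0 : (0 : ℝ) < T.card := lt_of_le_of_lt (by positivity) hTR
  have key : ∀ c : Prop,
      (D.toMod.accP (fun i => CliqueModules.lift (railMap T G0 c) (P i)) -
        D.toMod.accP fun i => CliqueModules.lift (railMap T G0 c) (Q i)) < 1 := by
    intro c
    have h1 := h (SliceCircuits.EdgeVar n × Bool) s D.toMod (railMap T G0 c) univ
      (fun v hv => absurd (mem_univ v) hv) le_rfl
    rw [D.toMod_weight] at h1
    push_cast at h1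
    rw [mul_one] at h1
    by_contra h2
    have h3 := mul_le_mul_of_nonneg_right (not_lt.1 h2) hT0.le
    linarith
  -- the values of the literals
  have hout : ∀ G : SimpleGraph (Fin n), CliqueModules.Between T G0 G →
      ∀ e, e ∉ T → (ofGraph G e ↔ ofGraph G0 e) := fun G hG e he => ⟨hG.2 e he, hG.1 e⟩
  have hacc : ∀ G : SimpleGraph (Fin n), D.Accepts (lit (ofGraph G)) ↔
      SliceCircuits.HasClique G := by
    intro G
    rw [hD (ofGraph G)]
    unfold cliqueFn
    rw [graphOf_ofGraph]
  have h0 : ∀ G : SimpleGraph (Fin n), CliqueModules.Between T G0 G →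
      CliqueModules.lift (railMap T G0 True) G =
        fun l => l.1 ∈ T.filter (ofGraph G) ∨ lit (ofGraph G) l := by
    intro G hG
    funext l
    apply propext
    rw [lift_railMap, mem_filter]
    unfold lit
    rcases l with ⟨e, b⟩
    by_cases h1 : e ∈ T
    · by_cases h2 : ofGraph G e <;> cases b <;> simp [h1, h2]
    · have h2 := hout G hG e h1
      simp [h1, h2]
  have h1 : ∀ G : SimpleGraph (Fin n), CliqueModules.Between T G0 G →
      CliqueModules.lift (railMap T G0 False) G =
        fun l => l.1 ∉ T.filter (fun e => ¬ ofGraph G e) ∧ lit (ofGraph G) l := by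
    intro G hG
    funext l
    apply propext
    rw [lift_railMap, mem_filter]
    unfold lit
    rcases l with ⟨e, b⟩
    by_cases h1 : e ∈ T
    · by_cases h2 : ofGraph G e <;> cases b <;> simp [h1, h2]
    · have h2 := hout G hG e h1
      simp [h1, h2]
  have hmono : ∀ z z' : SliceCircuits.EdgeVar n × Bool → Prop, (∀ l, z l → z' l) →
      D.Accepts z → D.Accepts z' := fun z z' hz => D.accepts_mono hz
  constructor
  · -- the 0-hazard
    have hP1 : D.toMod.accP (fun i => CliqueModules.lift (railMap T G0 True) (P i)) = 1 := by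
      unfold CliqueModules.Circuit.accP
      rw [filter_true_of_mem, card_univ, Fintype.card_fin]
      · exact div_self hN'.ne'
      · intro i _
        show D.toMod.Acc (CliqueModules.lift (railMap T G0 True) (P i))
        rw [D.toMod_acc, h0 _ (hP' i)]
        exact hmono _ _ (fun l hl => Or.inr hl) ((hacc (P i)).2 (hP i))
    have hQ1 : ∃ i, D.toMod.Acc (CliqueModules.lift (railMap T G0 True) (Q i)) := by
      by_contra hcon
      push Not at hcon
      have h2 := key True
      rw [hP1] at h2
      unfold CliqueModules.Circuit.accP at h2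
      rw [filter_false_of_mem fun i _ => hcon i, card_empty] at h2
      simp at h2
    obtain ⟨i, hi⟩ := hQ1
    rw [D.toMod_acc, h0 _ (hQ' i)] at hi
    refine ⟨ofGraph (Q i), T.filter (ofGraph (Q i)), filter_subset _ _, fun y hy hy' => ?_, hi⟩
    rw [hD y] at hy'
    refine hQ i (hasClique_mono ?_ hy')
    rw [← graphOf_ofGraph (Q i)]
    refine graphOf_mono fun e he => ?_
    by_cases h2 : e ∈ T.filter (ofGraph (Q i))
    · exact (mem_filter.1 h2).2
    · exact (hy e h2).1 he
  · -- the 1-hazard
    have hQ1 : D.toMod.accP (fun i => CliqueModules.lift (railMap T G0 False) (Q i)) = 0 := by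
      unfold CliqueModules.Circuit.accP
      rw [filter_false_of_mem, card_empty]
      · simp
      · intro i _
        show ¬ D.toMod.Acc (CliqueModules.lift (railMap T G0 False) (Q i))
        rw [D.toMod_acc, h1 _ (hQ' i)]
        intro hc
        exact hQ i ((hacc (Q i)).1 (hmono _ _ (fun l hl => hl.2) hc))
    have hP1 : ∃ i, ¬ D.toMod.Acc (CliqueModules.lift (railMap T G0 False) (P i)) := by
      by_contra hcon
      push Not at hcon
      have h2 := key False
      rw [hQ1] at h2
      unfold CliqueModules.Circuit.accP at h2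
      rw [filter_true_of_mem fun i _ => hcon i, card_univ, Fintype.card_fin,
        div_self hN'.ne'] at h2
      simp at h2
    obtain ⟨i, hi⟩ := hP1
    rw [D.toMod_acc, h1 _ (hP' i)] at hi
    refine ⟨ofGraph (P i), T.filter (fun e => ¬ ofGraph (P i) e), filter_subset _ _,
      fun y hy => ?_, hi⟩
    rw [hD y]
    refine hasClique_mono ?_ (hP i)
    rw [← graphOf_ofGraph (P i)]
    refine graphOf_mono fun e he => ?_
    by_cases h2 : e ∈ T.filter (fun e => ¬ ofGraph (P i) e)
    · exact absurd he (mem_filter.1 h2).2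
    · exact (hy e h2).2 he

end Pool.Agent.HazardCircuits
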