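import Mathlib
import Pool.Agent.Lib.MP_0a1b52_lc_HAZ.Lower

/-!
Hard families for hazards, which do not depend on the circuit.
-/

namespace Pool.Agent.HazardCircuits

open Finset

open SliceCircuits (EdgeVar HasClique)

open Classical in
theorem haz_avg : ∃ C : ℕ, ∀ n S : ℕ, C * (Nat.log 2 (n * S) + 1) ^ 8 ≤ n →
    ∀ T : Finset (EdgeVar n), T.Nonempty →
    ∃ (N : ℕ) (P Q : Fin N → SimpleGraph (Fin n)),
      0 < N ∧ (∀ i, HasClique (P i)) ∧ (∀ i, ¬ HasClique (Q i)) ∧
      ∀ s ≤ S, ∀ D : Circuit (EdgeVar n) s, D.Computes (cliqueFn n) →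
        (univ.filter fun i => ¬ ∃ U ⊆ T,
          D.Hazard0 (fun e => (Q i).Adj e.1.1 e.1.2) U).card * T.card ≤
            C * (Nat.log 2 (n * S) + 1) ^ 8 * N ∧
        (univ.filter fun i => ¬ ∃ U ⊆ T,
          D.Hazard1 (fun e => (P i).Adj e.1.1 e.1.2) U).card * T.card ≤
            C * (Nat.log 2 (n * S) + 1) ^ 8 * N := by
  obtain ⟨C, hC⟩ := CliqueModules.main3
  refine ⟨C, fun n S hn T hT => ?_⟩
  obtain ⟨G0, N, P, Q, hN, hP, hQ, hP', hQ', h⟩ := hC n n S le_rfl hn T (card_pos.2 hT)
  refine ⟨N, P, Q, hN, hP, hQ, fun s hs D hD => ?_⟩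
  have hN' : (0 : ℝ) < N := by exact_mod_cast hN
  have key : ∀ c : Prop,
      (D.toMod.accP (fun i => CliqueModules.lift (railMap T G0 c) (P i)) -
        D.toMod.accP fun i => CliqueModules.lift (railMap T G0 c) (Q i)) * T.card ≤
          C * (Nat.log 2 (n * S) + 1) ^ 8 := by
    intro c
    have h1 := h (SliceCircuits.EdgeVar n × Bool) s D.toMod (railMap T G0 c) univ
      (fun v hv => absurd (mem_univ v) hv) hs
    rw [D.toMod_weight] at h1
    push_cast at h1
    rw [mul_one] at h1
    exact h1
  -- the values of the literals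
  have hout : ∀ G : SimpleGraph (Fin n), CliqueModules.Between T G0 G →
      ∀ e, e ∉ T → (ofGraph G e ↔ ofGraph G0 e) := fun G hG e he => ⟨hG.2 e he, hG.1 e⟩
  have hacc : ∀ G : SimpleGraph (Fin n), D.Accepts (lit (ofGraph G)) ↔
      SliceCircuits.HasClique G := by
    intro G
    rw [hD (ofGraph G)]
    unfold cliqueFn
    rw [graphOf_ofGraph]
  have h0 : ∀ G : SimpleGraph (Fin n), CliqueModules.Between T G0 G →
      CliqueModules.lift (railMap T G0 True) G =
        fun l => l.1 ∈ T.filter (ofGraph G) ∨ lit (ofGraph G) l := by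
    intro G hG
    funext l
    apply propext
    rw [lift_railMap, mem_filter]
    unfold lit
    rcases l with ⟨e, b⟩
    by_cases h1 : e ∈ T
    · by_cases h2 : ofGraph G e <;> cases b <;> simp [h1, h2]
    · have h2 := hout G hG e h1
      simp [h1, h2]
  have h1 : ∀ G : SimpleGraph (Fin n), CliqueModules.Between T G0 G →
      CliqueModules.lift (railMap T G0 False) G =
        fun l => l.1 ∉ T.filter (fun e => ¬ ofGraph G e) ∧ lit (ofGraph G) l := by
    intro G hG
    funext l
    apply propext
    rw [lift_railMap, mem_filter]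
    unfold lit
    rcases l with ⟨e, b⟩
    by_cases h1 : e ∈ T
    · by_cases h2 : ofGraph G e <;> cases b <;> simp [h1, h2]
    · have h2 := hout G hG e h1
      simp [h1, h2]
  constructor
  · -- 0-hazards
    have hP1 : D.toMod.accP (fun i => CliqueModules.lift (railMap T G0 True) (P i)) = 1 := by
      unfold CliqueModules.Circuit.accP
      rw [filter_true_of_mem, card_univ, Fintype.card_fin]
      · exact div_self hN'.ne'
      · intro i _
        show D.toMod.Acc (CliqueModules.lift (railMap T G0 True) (P i))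
        rw [D.toMod_acc, h0 _ (hP' i)]
        exact D.accepts_mono (fun l hl => Or.inr hl) ((hacc (P i)).2 (hP i))
    have h2 := key True
    rw [hP1] at h2
    unfold CliqueModules.Circuit.accP at h2
    set A := univ.filter fun i : Fin N =>
      D.toMod.Acc (CliqueModules.lift (railMap T G0 True) (Q i)) with hA
    have h3 : (univ.filter fun i => ¬ ∃ U ⊆ T,
        D.Hazard0 (fun e => (Q i).Adj e.1.1 e.1.2) U) ⊆ Aᶜ := by
      intro i hi
      rw [mem_compl]
      intro hiA
      refine (mem_filter.1 hi).2 ?_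
      have hi' := (mem_filter.1 hiA).2
      rw [D.toMod_acc, h0 _ (hQ' i)] at hi'
      refine ⟨T.filter (ofGraph (Q i)), filter_subset _ _, fun y hy hy' => ?_, hi'⟩
      rw [hD y] at hy'
      refine hQ i (hasClique_mono ?_ hy')
      rw [← graphOf_ofGraph (Q i)]
      refine graphOf_mono fun e he => ?_
      by_cases h2 : e ∈ T.filter (ofGraph (Q i))
      · exact (mem_filter.1 h2).2
      · exact (hy e h2).1 he
    have h4 := card_le_card h3
    have h5 : A.card + Aᶜ.card = N := by
      rw [card_add_card_compl, Fintype.card_fin]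
    have h6 : (Aᶜ.card : ℝ) * T.card ≤ C * (Nat.log 2 (n * S) + 1) ^ 8 * N := by
      have h7 : (A.card : ℝ) + Aᶜ.card = N := by exact_mod_cast h5
      have h8 : (Aᶜ.card : ℝ) = (1 - (A.card : ℝ) / N) * N := by
        field_simp
        linarith
      calc (Aᶜ.card : ℝ) * T.card = (1 - (A.card : ℝ) / N) * T.card * N := by rw [h8]; ring
        _ ≤ _ := mul_le_mul_of_nonneg_right h2 hN'.le
    calc _ ≤ Aᶜ.card * T.card := Nat.mul_le_mul_right _ h4
      _ ≤ _ := by exact_mod_cast h6
  · -- 1-hazards
    have hQ1 : D.toMod.accP (fun i => CliqueModules.lift (railMap T G0 False) (Q i)) = 0 := by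
      unfold CliqueModules.Circuit.accP
      rw [filter_false_of_mem, card_empty]
      · simp
      · intro i _
        show ¬ D.toMod.Acc (CliqueModules.lift (railMap T G0 False) (Q i))
        rw [D.toMod_acc, h1 _ (hQ' i)]
        intro hc
        exact hQ i ((hacc (Q i)).1 (D.accepts_mono (fun l hl => hl.2) hc))
    have h2 := key False
    rw [hQ1, sub_zero] at h2
    unfold CliqueModules.Circuit.accP at h2
    set A := univ.filter fun i : Fin N =>
      D.toMod.Acc (CliqueModules.lift (railMap T G0 False) (P i)) with hA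
    have h3 : (univ.filter fun i => ¬ ∃ U ⊆ T,
        D.Hazard1 (fun e => (P i).Adj e.1.1 e.1.2) U) ⊆ A := by
      intro i hi
      by_contra hiA
      refine (mem_filter.1 hi).2 ?_
      have hi' : ¬ D.toMod.Acc (CliqueModules.lift (railMap T G0 False) (P i)) :=
        fun h4 => hiA (mem_filter.2 ⟨mem_univ _, h4⟩)
      rw [D.toMod_acc, h1 _ (hP' i)] at hi'
      refine ⟨T.filter (fun e => ¬ ofGraph (P i) e), filter_subset _ _, fun y hy => ?_, hi'⟩
      rw [hD y]
      refine hasClique_mono ?_ (hP i)
      rw [← graphOf_ofGraph (P i)]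
      refine graphOf_mono fun e he => ?_
      by_cases h2 : e ∈ T.filter (fun e => ¬ ofGraph (P i) e)
      · exact absurd he (mem_filter.1 h2).2
      · exact (hy e h2).2 he
    have h4 := card_le_card h3
    have h6 : (A.card : ℝ) * T.card ≤ C * (Nat.log 2 (n * S) + 1) ^ 8 * N := by
      have h8 : (A.card : ℝ) = ((A.card : ℝ) / N) * N := by
        field_simp
      calc (A.card : ℝ) * T.card = ((A.card : ℝ) / N) * T.card * N := by
            conv_lhs => rw [h8]
            ring
        _ ≤ _ := mul_le_mul_of_nonneg_right h2 hN'.le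
    calc _ ≤ A.card * T.card := Nat.mul_le_mul_right _ h4
      _ ≤ _ := by exact_mod_cast h6

end Pool.Agent.HazardCircuits
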