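import Mathlib
import Pool.Agent.Lib.MP_0a1b52_lc_NN.Params
import Pool.Agent.Lib.MP_0a1b52_lc_MOD.Main

/-!
The choice of the parameters, with a bound for the number of variables of a region.
-/

namespace Pool.Agent.HazardCircuits

open Finset Pool.Agent.MP0a1b52



theorem params4 : ∃ C : ℕ, 81 ≤ C ∧ ∀ L : ℕ, 1 ≤ L → ∃ d q Bd a : ℕ, q.Prime ∧ 2 ≤ d ∧ d ≤ q ∧
    q * a ≤ 10752 * ((Nat.log 2 L + 1) * L ^ 3) ∧
    1 ≤ Bd ∧ q ≤ a * Bd ∧ 2 * ((d - 1) * Bd) ≤ q ∧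
    4 * (q ^ d * (4 * d - 1) ^ q) ≤ (4 * d) ^ q ∧ 2 ^ (2 * L) ≤ 2 ^ d ∧
    32 * L * (L + 1) * (q * a) + 16 * L * (q * a) ^ 2 ≤ C * L ^ 8 ∧
    (2 * q + q * d) ^ 2 ≤ C * L ^ 8 ∧
    8 * (q ^ 3 * d) ≤ C * L ^ 8 := by
  obtain ⟨C', hC'⟩ := exists_log_bound
  refine ⟨81 + (64 * 10752 + 16 * 10752 ^ 2 + 4 * 336 ^ 2 * 64 + 8 * 336 ^ 3 * 128) * C',
    by omega, ?_⟩
  intro L hL
  set C := 81 + (64 * 10752 + 16 * 10752 ^ 2 + 4 * 336 ^ 2 * 64 + 8 * 336 ^ 3 * 128) * C' with hC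
  set l := Nat.log 2 L + 1 with hl
  have hl1 : 1 ≤ l := by omega
  have hlog : l ^ 10 ≤ C' * L := hC' L hL
  have hlog1 : l ≤ C' * L := (Nat.le_self_pow (by norm_num) l).trans hlog
  have hlog2 : l ^ 2 ≤ C' * L := (Nat.pow_le_pow_right hl1 (by norm_num)).trans hlog
  have hlog3 : l ^ 3 ≤ C' * L := (Nat.pow_le_pow_right hl1 (by norm_num)).trans hlog
  have hLl : L ≤ 2 ^ l := (Nat.lt_pow_succ_log_self (by norm_num) L).le
  have hll : l ≤ 2 ^ l := Nat.lt_two_pow_self.le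
  set e := 14 * l with he
  set d := 2 * L with hd
  have he1 : 1 ≤ e := by omega
  have hd2 : 2 ≤ d := by omega
  have hd2L : d ≤ 2 * L := by omega
  set X := 4 * d * (e * d + 2) with hX
  have hXpos : X ≠ 0 := by
    have : 0 < X := by positivity
    omega
  obtain ⟨q, hqp, hXq, hq2⟩ := Nat.exists_prime_lt_and_le_two_mul X hXpos
  have hed1 : 1 ≤ e * d := Nat.mul_pos he1 (by omega)
  have hX2 : X ≤ 12 * (e * d ^ 2) := by
    calc X = 4 * d * (e * d + 2) := hX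
      _ ≤ 4 * d * (3 * (e * d)) := Nat.mul_le_mul_left _ (by omega)
      _ = 12 * (e * d ^ 2) := by ring
  have hq8 : q ≤ 24 * (e * d ^ 2) := by omega
  have hdX : 4 * d * 2 ≤ X := Nat.mul_le_mul_left _ (by omega)
  have hdq : d ≤ q := by omega
  have h2dq : 2 * (d - 1) ≤ q := by omega
  have ha : q ≤ 2 ^ e := by
    have h1 : d ≤ 2 * 2 ^ l := by omega
    have h2 : e ≤ 14 * 2 ^ l := Nat.mul_le_mul_left _ hll
    calc q ≤ 24 * (e * d ^ 2) := hq8
      _ ≤ 24 * ((14 * 2 ^ l) * (2 * 2 ^ l) ^ 2) :=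
          Nat.mul_le_mul_left _ (Nat.mul_le_mul h2 (Nat.pow_le_pow_left h1 2))
      _ = 1344 * (2 ^ l) ^ 3 := by ring
      _ = 1344 * 2 ^ (3 * l) := by rw [← pow_mul, mul_comm l 3]
      _ ≤ 2 ^ 11 * 2 ^ (3 * l) := Nat.mul_le_mul_right _ (by norm_num)
      _ = 2 ^ (11 + 3 * l) := (pow_add _ _ _).symm
      _ ≤ 2 ^ e := Nat.pow_le_pow_right (by norm_num) (by omega)
  have hneg : 4 * (q ^ d * (4 * d - 1) ^ q) ≤ (4 * d) ^ q := by
    have h2 := pred_pow_mul_le (4 * d) (e * d + 2) q (by omega) hXq.le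
    have h3 : 4 * q ^ d ≤ 2 ^ (e * d + 2) := by
      calc 4 * q ^ d ≤ 4 * (2 ^ e) ^ d :=
            Nat.mul_le_mul_left _ (Nat.pow_le_pow_left ha d)
        _ = 2 ^ (e * d + 2) := by rw [← pow_mul, pow_add]; ring
    calc 4 * (q ^ d * (4 * d - 1) ^ q) = (4 * d - 1) ^ q * (4 * q ^ d) := by ring
      _ ≤ (4 * d - 1) ^ q * 2 ^ (e * d + 2) := Nat.mul_le_mul_left _ h3
      _ ≤ _ := h2
  set Bd := q / (2 * (d - 1)) with hBd
  have hBd1 : 1 ≤ Bd := Nat.div_pos h2dq (by omega)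
  have hc1 : 2 * ((d - 1) * Bd) ≤ q := by
    calc 2 * ((d - 1) * Bd) = q / (2 * (d - 1)) * (2 * (d - 1)) := by rw [hBd]; ring
      _ ≤ q := Nat.div_mul_le_self _ _
  set a := q / Bd + 1 with ha'
  have hc2 : q ≤ a * Bd := by
    have := Nat.lt_div_mul_add (a := q) (b := Bd) (by omega)
    calc q ≤ q / Bd * Bd + Bd := this.le
      _ = a * Bd := by rw [ha']; ring
  have hc3 : a ≤ 4 * d := by
    have h1 : q < q / (2 * (d - 1)) * (2 * (d - 1)) + 2 * (d - 1) :=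
      Nat.lt_div_mul_add (by omega)
    have h2 : q ≤ (4 * (d - 1)) * Bd := by
      have h3 : 2 * (d - 1) ≤ Bd * (2 * (d - 1)) := Nat.le_mul_of_pos_left _ hBd1
      have h4 : (4 * (d - 1)) * Bd = Bd * (2 * (d - 1)) + Bd * (2 * (d - 1)) := by ring
      rw [← hBd] at h1
      omega
    have h5 : q / Bd ≤ 4 * (d - 1) := Nat.div_le_of_le_mul (by rw [mul_comm]; exact h2)
    omega
  have hqa : q * a ≤ 10752 * (l * L ^ 3) := by
    calc q * a ≤ (24 * (e * d ^ 2)) * (4 * d) := Nat.mul_le_mul hq8 hc3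
      _ = 96 * 14 * (l * d ^ 3) := by rw [he]; ring
      _ ≤ 96 * 14 * (l * (2 * L) ^ 3) :=
          Nat.mul_le_mul_left _ (Nat.mul_le_mul_left _ (Nat.pow_le_pow_left hd2L 3))
      _ = 10752 * (l * L ^ 3) := by ring
  refine ⟨d, q, Bd, a, hqp, hd2, hdq, hqa, hBd1, hc2, hc1, hneg,
    Nat.pow_le_pow_right (by norm_num) (by omega), ?_, ?_, ?_⟩
  · have h1 : 32 * L * (L + 1) * (q * a) ≤ (64 * 10752) * C' * L ^ 8 := by
      calc 32 * L * (L + 1) * (q * a) ≤ 32 * L * (2 * L) * (10752 * (l * L ^ 3)) :=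
            Nat.mul_le_mul (Nat.mul_le_mul_left _ (by omega)) hqa
        _ = (64 * 10752) * (L ^ 5 * l) := by ring
        _ ≤ (64 * 10752) * (L ^ 7 * (C' * L)) := by
            apply Nat.mul_le_mul_left
            exact Nat.mul_le_mul (Nat.pow_le_pow_right hL (by norm_num)) hlog1
        _ = (64 * 10752) * C' * L ^ 8 := by ring
    have h2 : 16 * L * (q * a) ^ 2 ≤ (16 * 10752 ^ 2) * C' * L ^ 8 := by
      calc 16 * L * (q * a) ^ 2 ≤ 16 * L * (10752 * (l * L ^ 3)) ^ 2 :=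
            Nat.mul_le_mul_left _ (Nat.pow_le_pow_left hqa 2)
        _ = (16 * 10752 ^ 2) * (L ^ 7 * l ^ 2) := by ring
        _ ≤ (16 * 10752 ^ 2) * (L ^ 7 * (C' * L)) :=
            Nat.mul_le_mul_left _ (Nat.mul_le_mul_left _ hlog2)
        _ = (16 * 10752 ^ 2) * C' * L ^ 8 := by ring
    calc 32 * L * (L + 1) * (q * a) + 16 * L * (q * a) ^ 2
        ≤ (64 * 10752) * C' * L ^ 8 + (16 * 10752 ^ 2) * C' * L ^ 8 := Nat.add_le_add h1 h2
      _ = ((64 * 10752 + 16 * 10752 ^ 2) * C') * L ^ 8 := by ring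
      _ ≤ C * L ^ 8 := by
          apply Nat.mul_le_mul_right
          rw [hC]
          have : (64 * 10752 + 16 * 10752 ^ 2) * C' ≤
              (64 * 10752 + 16 * 10752 ^ 2 + 4 * 336 ^ 2 * 64 + 8 * 336 ^ 3 * 128) * C' :=
            Nat.mul_le_mul_right _ (by norm_num)
          omega
  · have h0 : q * 2 ≤ q * d := Nat.mul_le_mul_left q hd2
    have h1 : 2 * q + q * d ≤ 2 * (q * d) := by omega
    have h2 : q * d ≤ 336 * (l * (2 * L) ^ 3) := by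
      calc q * d ≤ (24 * (e * d ^ 2)) * d := Nat.mul_le_mul_right _ hq8
        _ = 336 * (l * d ^ 3) := by rw [he]; ring
        _ ≤ 336 * (l * (2 * L) ^ 3) :=
            Nat.mul_le_mul_left _ (Nat.mul_le_mul_left _ (Nat.pow_le_pow_left hd2L 3))
    calc (2 * q + q * d) ^ 2 ≤ (2 * (q * d)) ^ 2 := Nat.pow_le_pow_left h1 2
      _ ≤ (2 * (336 * (l * (2 * L) ^ 3))) ^ 2 :=
          Nat.pow_le_pow_left (Nat.mul_le_mul_left _ h2) 2
      _ = (4 * 336 ^ 2 * 64) * (L ^ 6 * l ^ 2) := by ring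
      _ ≤ (4 * 336 ^ 2 * 64) * (L ^ 7 * (C' * L)) := by
          apply Nat.mul_le_mul_left
          exact Nat.mul_le_mul (Nat.pow_le_pow_right hL (by norm_num)) hlog2
      _ = ((4 * 336 ^ 2 * 64) * C') * L ^ 8 := by ring
      _ ≤ C * L ^ 8 := by
          apply Nat.mul_le_mul_right
          rw [hC]
          have : (4 * 336 ^ 2 * 64) * C' ≤
              (64 * 10752 + 16 * 10752 ^ 2 + 4 * 336 ^ 2 * 64 + 8 * 336 ^ 3 * 128) * C' :=
            Nat.mul_le_mul_right _ (by norm_num)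
          omega
  · calc 8 * (q ^ 3 * d) ≤ 8 * ((24 * (e * d ^ 2)) ^ 3 * d) :=
          Nat.mul_le_mul_left _ (Nat.mul_le_mul_right _ (Nat.pow_le_pow_left hq8 3))
      _ = (8 * 336 ^ 3) * (d ^ 7 * l ^ 3) := by rw [he]; ring
      _ ≤ (8 * 336 ^ 3) * ((2 * L) ^ 7 * (C' * L)) := by
          apply Nat.mul_le_mul_left
          exact Nat.mul_le_mul (Nat.pow_le_pow_left hd2L 7) hlog3
      _ = ((8 * 336 ^ 3 * 128) * C') * L ^ 8 := by ring
      _ ≤ C * L ^ 8 := by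
          apply Nat.mul_le_mul_right
          rw [hC]
          have : (8 * 336 ^ 3 * 128) * C' ≤
              (64 * 10752 + 16 * 10752 ^ 2 + 4 * 336 ^ 2 * 64 + 8 * 336 ^ 3 * 128) * C' :=
            Nat.mul_le_mul_right _ (by norm_num)
          omega

end Pool.Agent.HazardCircuits
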