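import Mathlib
import Pool.Agent.Lib.MP_0a1b52_lc_HAZ.Params
import Pool.Agent.Lib.MP_0a1b52_lc_HAZ.Lower

/-!
Hazards of few bits: hard families inside a star with few edges.
-/

namespace Pool.Agent.HazardCircuits

open Finset Pool.Agent.MP0a1b52

open CliqueModules (hsh hsh_fiber IsPack Carries UG families_proj lift Between)

open SliceCircuits (EdgeVar HasClique)

open Classical in
theorem hazards_avg {n s N M B : ℕ} {T : Finset (EdgeVar n)} {G0 : SimpleGraph (Fin n)}
    {P Q : Fin N → SimpleGraph (Fin n)} (hN : 0 < N) (hP : ∀ i, CliqueModules.HasClique (P i))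
    (hQ : ∀ i, ¬ CliqueModules.HasClique (Q i)) (hP' : ∀ i, Between T G0 (P i))
    (hQ' : ∀ i, Between T G0 (Q i)) (D : Circuit (EdgeVar n) s) (hD : D.Computes (cliqueFn n))
    (key : ∀ c : Prop,
      (D.toMod.accP (fun i => CliqueModules.lift (railMap T G0 c) (P i)) -
        D.toMod.accP fun i => CliqueModules.lift (railMap T G0 c) (Q i)) * M ≤ B) :
    (univ.filter fun i => ¬ ∃ U ⊆ T,
      D.Hazard0 (fun e => (Q i).Adj e.1.1 e.1.2) U).card * M ≤ B * N ∧
    (univ.filter fun i => ¬ ∃ U ⊆ T,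
      D.Hazard1 (fun e => (P i).Adj e.1.1 e.1.2) U).card * M ≤ B * N := by
  have hN' : (0 : ℝ) < N := by exact_mod_cast hN
  -- the values of the literals
  have hout : ∀ G : SimpleGraph (Fin n), CliqueModules.Between T G0 G →
      ∀ e, e ∉ T → (ofGraph G e ↔ ofGraph G0 e) := fun G hG e he => ⟨hG.2 e he, hG.1 e⟩
  have hacc : ∀ G : SimpleGraph (Fin n), D.Accepts (lit (ofGraph G)) ↔
      SliceCircuits.HasClique G := by
    intro G
    rw [hD (ofGraph G)]
    unfold cliqueFn
    rw [graphOf_ofGraph]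
  have h0 : ∀ G : SimpleGraph (Fin n), CliqueModules.Between T G0 G →
      CliqueModules.lift (railMap T G0 True) G =
        fun l => l.1 ∈ T.filter (ofGraph G) ∨ lit (ofGraph G) l := by
    intro G hG
    funext l
    apply propext
    rw [lift_railMap, mem_filter]
    unfold lit
    rcases l with ⟨e, b⟩
    by_cases h1 : e ∈ T
    · by_cases h2 : ofGraph G e <;> cases b <;> simp [h1, h2]
    · have h2 := hout G hG e h1
      simp [h1, h2]
  have h1 : ∀ G : SimpleGraph (Fin n), CliqueModules.Between T G0 G →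
      CliqueModules.lift (railMap T G0 False) G =
        fun l => l.1 ∉ T.filter (fun e => ¬ ofGraph G e) ∧ lit (ofGraph G) l := by
    intro G hG
    funext l
    apply propext
    rw [lift_railMap, mem_filter]
    unfold lit
    rcases l with ⟨e, b⟩
    by_cases h1 : e ∈ T
    · by_cases h2 : ofGraph G e <;> cases b <;> simp [h1, h2]
    · have h2 := hout G hG e h1
      simp [h1, h2]
  constructor
  · -- 0-hazards
    have hP1 : D.toMod.accP (fun i => CliqueModules.lift (railMap T G0 True) (P i)) = 1 := by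
      unfold CliqueModules.Circuit.accP
      rw [filter_true_of_mem, card_univ, Fintype.card_fin]
      · exact div_self hN'.ne'
      · intro i _
        show D.toMod.Acc (CliqueModules.lift (railMap T G0 True) (P i))
        rw [D.toMod_acc, h0 _ (hP' i)]
        exact D.accepts_mono (fun l hl => Or.inr hl) ((hacc (P i)).2 (hP i))
    have h2 := key True
    rw [hP1] at h2
    unfold CliqueModules.Circuit.accP at h2
    set A := univ.filter fun i : Fin N =>
      D.toMod.Acc (CliqueModules.lift (railMap T G0 True) (Q i)) with hA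
    have h3 : (univ.filter fun i => ¬ ∃ U ⊆ T,
        D.Hazard0 (fun e => (Q i).Adj e.1.1 e.1.2) U) ⊆ Aᶜ := by
      intro i hi
      rw [mem_compl]
      intro hiA
      refine (mem_filter.1 hi).2 ?_
      have hi' := (mem_filter.1 hiA).2
      rw [D.toMod_acc, h0 _ (hQ' i)] at hi'
      refine ⟨T.filter (ofGraph (Q i)), filter_subset _ _, fun y hy hy' => ?_, hi'⟩
      rw [hD y] at hy'
      refine hQ i (hasClique_mono ?_ hy')
      rw [← graphOf_ofGraph (Q i)]
      refine graphOf_mono fun e he => ?_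
      by_cases h2 : e ∈ T.filter (ofGraph (Q i))
      · exact (mem_filter.1 h2).2
      · exact (hy e h2).1 he
    have h4 := card_le_card h3
    have h5 : A.card + Aᶜ.card = N := by
      rw [card_add_card_compl, Fintype.card_fin]
    have h6 : (Aᶜ.card : ℝ) * M ≤ B * N := by
      have h7 : (A.card : ℝ) + Aᶜ.card = N := by exact_mod_cast h5
      have h8 : (Aᶜ.card : ℝ) = (1 - (A.card : ℝ) / N) * N := by
        field_simp
        linarith
      calc (Aᶜ.card : ℝ) * M = (1 - (A.card : ℝ) / N) * M * N := by rw [h8]; ring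
        _ ≤ _ := mul_le_mul_of_nonneg_right h2 hN'.le
    calc _ ≤ Aᶜ.card * M := Nat.mul_le_mul_right _ h4
      _ ≤ _ := by exact_mod_cast h6
  · -- 1-hazards
    have hQ1 : D.toMod.accP (fun i => CliqueModules.lift (railMap T G0 False) (Q i)) = 0 := by
      unfold CliqueModules.Circuit.accP
      rw [filter_false_of_mem, card_empty]
      · simp
      · intro i _
        show ¬ D.toMod.Acc (CliqueModules.lift (railMap T G0 False) (Q i))
        rw [D.toMod_acc, h1 _ (hQ' i)]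
        intro hc
        exact hQ i ((hacc (Q i)).1 (D.accepts_mono (fun l hl => hl.2) hc))
    have h2 := key False
    rw [hQ1, sub_zero] at h2
    unfold CliqueModules.Circuit.accP at h2
    set A := univ.filter fun i : Fin N =>
      D.toMod.Acc (CliqueModules.lift (railMap T G0 False) (P i)) with hA
    have h3 : (univ.filter fun i => ¬ ∃ U ⊆ T,
        D.Hazard1 (fun e => (P i).Adj e.1.1 e.1.2) U) ⊆ A := by
      intro i hi
      by_contra hiA
      refine (mem_filter.1 hi).2 ?_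
      have hi' : ¬ D.toMod.Acc (CliqueModules.lift (railMap T G0 False) (P i)) :=
        fun h4 => hiA (mem_filter.2 ⟨mem_univ _, h4⟩)
      rw [D.toMod_acc, h1 _ (hP' i)] at hi'
      refine ⟨T.filter (fun e => ¬ ofGraph (P i) e), filter_subset _ _, fun y hy => ?_, hi'⟩
      rw [hD y]
      refine hasClique_mono ?_ (hP i)
      rw [← graphOf_ofGraph (P i)]
      refine graphOf_mono fun e he => ?_
      by_cases h2 : e ∈ T.filter (fun e => ¬ ofGraph (P i) e)
      · exact absurd he (mem_filter.1 h2).2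
      · exact (hy e h2).2 he
    have h4 := card_le_card h3
    have h6 : (A.card : ℝ) * M ≤ B * N := by
      have h8 : (A.card : ℝ) = ((A.card : ℝ) / N) * N := by
        field_simp
      calc (A.card : ℝ) * M = ((A.card : ℝ) / N) * M * N := by
            conv_lhs => rw [h8]
            ring
        _ ≤ _ := mul_le_mul_of_nonneg_right h2 hN'.le
    calc _ ≤ A.card * M := Nat.mul_le_mul_right _ h4
      _ ≤ _ := by exact_mod_cast h6

section star

variable {n M : ℕ} {F A : Type} {d p : ℕ}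
  (ψ : (Fin M × (F × A)) ⊕ (Unit ⊕ ((F × Fin d × F × F) ⊕ Fin p)) → Fin n)

/-- The vertices of the regions: all regions have the same centre and the same auxiliary
vertices. -/
def starEps : Fin M → GV F A Unit d p → Fin n
  | ρ, .inl (.inl ι) => ψ (.inl (ρ, ι))
  | _, .inl (.inr u) => ψ (.inr (.inl u))
  | _, .inr z => ψ (.inr (.inr z))

theorem starEps_isPack (hψ : Function.Injective ψ) :
    IsPack (starEps ψ) (id : Fin M → Fin M) := by
  refine ⟨?_, ?_, ?_, ?_⟩
  · rintro ρ ρ' ((ι | u) | z) ((ι' | u') | z') h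
    · have h1 := (Prod.mk.inj (Sum.inl.inj (hψ h))).2
      rw [h1]
    · exact absurd (hψ h) (by simp)
    · exact absurd (hψ h) (by simp)
    · exact absurd (hψ h) (by simp)
    · rfl
    · exact absurd (Sum.inr.inj (hψ h)) (by simp)
    · exact absurd (hψ h) (by simp)
    · exact absurd (Sum.inr.inj (hψ h)) (by simp)
    · have h1 := Sum.inr.inj (Sum.inr.inj (hψ h))
      rw [h1]
  · intro ρ ρ' z
    rfl
  · intro ρ ρ' ι h
    exact (Prod.mk.inj (Sum.inl.inj (hψ h))).1
  · intro ρ ρ' w _ h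
    exact h

/-- The edges of the star. -/
noncomputable def starT : Finset (EdgeVar n) :=
  (Set.toFinite {e : EdgeVar n | ∃ ρ ι,
    Carries (fun _ : F × A => ()) (starEps ψ) e ρ ι}).toFinset

theorem mem_starT (e : EdgeVar n) : e ∈ starT ψ ↔
    ∃ ρ ι, Carries (fun _ : F × A => ()) (starEps ψ) e ρ ι := by
  unfold starT
  rw [Set.Finite.mem_toFinset]
  exact Iff.rfl

theorem card_starT_le [Fintype F] [Fintype A] :
    (starT ψ).card ≤ M * (Fintype.card F * Fintype.card A) := by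
  classical
  have h1 : (univ : Finset (Fin M × (F × A))).card = M * (Fintype.card F * Fintype.card A) := by
    rw [card_univ, Fintype.card_prod, Fintype.card_prod, Fintype.card_fin]
  rw [← h1]
  refine card_le_card_of_forall_subsingleton
    (fun e x => Carries (fun _ : F × A => ()) (starEps ψ) e x.1 x.2) ?_ ?_
  · intro e he
    obtain ⟨ρ, ι, h⟩ := (mem_starT ψ e).1 he
    exact ⟨(ρ, ι), mem_univ _, h⟩
  · rintro ⟨ρ, ι⟩ - e ⟨-, h⟩ e' ⟨-, h'⟩
    rcases h with ⟨h2, h3⟩ | ⟨h2, h3⟩ <;> rcases h' with ⟨h4, h5⟩ | ⟨h4, h5⟩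
    · exact Subtype.ext (Prod.ext (h2.trans h4.symm) (h3.trans h5.symm))
    · exfalso
      have h6 := e.2
      have h7 := e'.2
      rw [h2, h3] at h6
      rw [h4, h5] at h7
      exact lt_asymm h6 h7
    · exfalso
      have h6 := e.2
      have h7 := e'.2
      rw [h2, h3] at h6
      rw [h4, h5] at h7
      exact lt_asymm h6 h7
    · exact Subtype.ext (Prod.ext (h2.trans h4.symm) (h3.trans h5.symm))

end star

/-- Hard families inside a star with few edges. -/
theorem star_families : ∃ C : ℕ, ∀ n S M : ℕ, 1 ≤ M → 1 ≤ S →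
    C * (Nat.log 2 (n * S) + 1) ^ 8 ≤ n →
    C * (M * ((Nat.log 2 (Nat.log 2 (n * S) + 1) + 1) * (Nat.log 2 (n * S) + 1) ^ 3)) ≤ n →
    ∃ T : Finset (EdgeVar n), T.card ≤
      C * (M * ((Nat.log 2 (Nat.log 2 (n * S) + 1) + 1) * (Nat.log 2 (n * S) + 1) ^ 3)) ∧
    ∃ (G0 : SimpleGraph (Fin n)) (N : ℕ) (P Q : Fin N → SimpleGraph (Fin n)), 0 < N ∧
      (∀ i, CliqueModules.HasClique (P i)) ∧ (∀ i, ¬ CliqueModules.HasClique (Q i)) ∧
      (∀ i, Between T G0 (P i)) ∧ (∀ i, Between T G0 (Q i)) ∧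
      ∀ (V : Type) [Fintype V] (s : ℕ) (D : CliqueModules.Circuit V s)
        (r : V → CliqueModules.EdgeVar n ⊕ Prop) (T' : Finset V),
        (∀ v, v ∉ T' → ∀ e ∈ T, r v ≠ Sum.inl e) → s ≤ S →
        (D.accP (fun i => lift r (P i)) - D.accP fun i => lift r (Q i)) * M ≤
          9 * D.weight T' := by
  classical
  obtain ⟨C', hC81, hC⟩ := params4
  refine ⟨C' + 43008, ?_⟩
  intro n S M hM hS hn8 hn3
  obtain ⟨L, hL⟩ : ∃ L, L = Nat.log 2 (n * S) + 1 := ⟨_, rfl⟩
  rw [← hL] at hn8 hn3 ⊢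
  have hL1 : 1 ≤ L := by omega
  have hL8 : 1 ≤ L ^ 8 := Nat.one_le_pow _ _ hL1
  obtain ⟨X, hX⟩ : ∃ X, X = (Nat.log 2 L + 1) * L ^ 3 := ⟨_, rfl⟩
  rw [← hX] at hn3 ⊢
  have hX1 : 1 ≤ X := by
    rw [hX]
    exact Nat.mul_pos (by omega) (Nat.one_le_pow _ _ hL1)
  have hCL : C' * L ^ 8 ≤ n := le_trans (Nat.mul_le_mul_right _ (by omega)) hn8
  have hn81 : 81 ≤ n := by
    calc 81 ≤ C' := hC81
      _ ≤ C' * L ^ 8 := Nat.le_mul_of_pos_right _ hL8
      _ ≤ n := hCL
  have hMX : 43008 * (M * X) ≤ n := le_trans (Nat.mul_le_mul_right _ (by omega)) hn3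
  obtain ⟨d, q, Bd, a, hqp, hd, hdq, hqa3, hBd, hqa, h2, hneg, hbig, -, hs2, hs3⟩ := hC L hL1
  rw [← hX] at hqa3
  have : Fact q.Prime := ⟨hqp⟩
  have hq0 : 0 < q := hqp.pos
  have ha0 : 0 < a := by
    rcases Nat.eq_zero_or_pos a with h | h
    · subst h; omega
    · exact h
  have : NeZero a := ⟨by omega⟩
  obtain ⟨φ, hφ⟩ : ∃ φ : ZMod q → Fin a, φ = hsh q Bd a hqa := ⟨_, rfl⟩
  have hB : ∀ α, (univ.filter fun z : ZMod q => φ z = α).card ≤ Bd := by
    rw [hφ]
    exact hsh_fiber q Bd a hqa hBd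
  have hcF : Fintype.card (ZMod q) = q := ZMod.card q
  have hnsL : n * S < 2 ^ L := by
    rw [hL]
    exact Nat.lt_pow_succ_log_self (by norm_num) _
  have hMn : M ≤ n := by
    calc M = M * 1 := (Nat.mul_one M).symm
      _ ≤ M * X := Nat.mul_le_mul_left _ hX1
      _ ≤ 43008 * (M * X) := Nat.le_mul_of_pos_left _ (by norm_num)
      _ ≤ n := hMX
  have hMs : ∀ s ≤ S, M * s ≤ 2 ^ d := by
    intro s hs
    calc M * s ≤ n * S := Nat.mul_le_mul hMn hs
      _ ≤ 2 ^ L := hnsL.le
      _ ≤ 2 ^ (2 * L) := Nat.pow_le_pow_right (by norm_num) (by omega)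
      _ ≤ 2 ^ d := hbig
  have hsq : 2 * q + q * d ≤ Nat.sqrt n := by
    rw [Nat.le_sqrt']
    exact hs2.trans hCL
  have hsq9 : 9 ≤ Nat.sqrt n := by
    rw [Nat.le_sqrt']
    omega
  have hsq2 : 8 * (Nat.sqrt n + 1) ≤ n := by
    have h1 : Nat.sqrt n * Nat.sqrt n ≤ n := Nat.sqrt_le n
    calc 8 * (Nat.sqrt n + 1) ≤ 9 * Nat.sqrt n := by omega
      _ ≤ Nat.sqrt n * Nat.sqrt n := Nat.mul_le_mul_right _ hsq9
      _ ≤ n := h1
  have hs3' : 8 * (q ^ 3 * d) ≤ n := hs3.trans hCL
  obtain ⟨p, hp⟩ : ∃ p, p = Nat.sqrt n + 1 - (q + 1 + q * d) := ⟨_, rfl⟩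
  have hMqa : M * (q * a) ≤ M * (10752 * X) := Nat.mul_le_mul_left _ hqa3
  have hemb : Nonempty (((Fin M × (ZMod q × Fin a)) ⊕
      (Unit ⊕ ((ZMod q × Fin d × ZMod q × ZMod q) ⊕ Fin p))) ↪ Fin n) := by
    apply Function.Embedding.nonempty_of_card_le
    simp only [Fintype.card_sum, Fintype.card_prod, Fintype.card_fin, Fintype.card_unit, hcF]
    have h1 : q * (d * (q * q)) = q ^ 3 * d := by ring
    have h3 : M * (10752 * X) = 10752 * (M * X) := by ring
    omega
  obtain ⟨ψ⟩ := hemb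
  have hcardS : Fintype.card (GS (ZMod q) Unit d p) = Nat.sqrt n + 1 := by
    simp only [Fintype.card_sum, Fintype.card_prod, Fintype.card_fin, hcF, Fintype.card_unit]
    omega
  refine ⟨starT ψ, ?_, ?_⟩
  · refine (card_starT_le ψ).trans ?_
    rw [hcF, Fintype.card_fin]
    calc M * (q * a) ≤ M * (10752 * X) := hMqa
      _ = 10752 * (M * X) := by ring
      _ ≤ (C' + 43008) * (M * X) := Nat.mul_le_mul_right _ (by omega)
  obtain ⟨G0, N, P, Q, hN, hP, hQ, hP', hQ', hadv⟩ := families_proj φ (fun _ : Unit => ())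
    (fun _ => ()) (starEps ψ) hM (starEps_isPack ψ ψ.injective) hd
    (Or.inl fun _ _ => rfl) (fun h => ⟨fun _ => (), fun _ => rfl, fun _ => rfl⟩) hcardS
    (starT ψ) (fun e ρ ι h => (mem_starT ψ e).2 ⟨ρ, ι, h⟩)
    Bd hB (by rw [hcF]; exact h2) (by rw [hcF]; exact hdq) (by rw [hcF]; exact hneg)
  refine ⟨G0, N, P, Q, hN, hP, hQ, hP', hQ', ?_⟩
  intro V _ s D r T' hT' hs
  have hs2d : s ≤ 2 ^ d := by
    calc s = 1 * s := (one_mul s).symm
      _ ≤ M * s := Nat.mul_le_mul_right _ hM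
      _ ≤ 2 ^ d := hMs s hs
  have h1 := hadv V s D r T' hT' hs2d
  obtain ⟨γ, hγ⟩ : ∃ γ, γ = D.accP (fun i => lift r (P i)) - D.accP fun i => lift r (Q i) :=
    ⟨_, rfl⟩
  rw [← hγ] at h1 ⊢
  have hwR : (1 : ℝ) ≤ D.weight T' := by
    exact_mod_cast CliqueModules.one_le_weight D T'
  have hMsR : (M : ℝ) * s ≤ 2 ^ d := by exact_mod_cast hMs s hs
  have h2d : (0 : ℝ) < 2 ^ d := pow_pos (by norm_num) d
  have h3 : γ * M * 2 ^ d ≤ 9 * D.weight T' * 2 ^ d := by
    calc γ * M * 2 ^ d = γ * (M * 2 ^ d) := by ring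
      _ ≤ 8 * D.weight T' * 2 ^ d + M * s := h1
      _ ≤ 8 * D.weight T' * 2 ^ d + 1 * 2 ^ d := by linarith
      _ ≤ 8 * D.weight T' * 2 ^ d + D.weight T' * 2 ^ d := by
          have := mul_le_mul_of_nonneg_right hwR h2d.le
          linarith
      _ = 9 * D.weight T' * 2 ^ d := by ring
  exact le_of_mul_le_mul_right h3 h2d

end Pool.Agent.HazardCircuits
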