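import Mathlib
import Pool.Agent.Lib.MP_0a1b52_lc_HAZ.Star
import Pool.Agent.Lib.MP_0a1b52_lc_HAZ.Lower2
import Pool.Agent.Lib.MP_0a1b52_lc_HAZ.Asym2

/-!
Hazards of few bits.
-/

namespace Pool.Agent.HazardCircuits

open Finset Pool.Agent.MP0a1b52

open SliceCircuits (EdgeVar HasClique)

open Classical in
/-- There is a star with few edges such that every small circuit for the clique function has
hazards inside it, at almost all graphs of two families which do not depend on the circuit. -/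
theorem haz_star : ∃ C : ℕ, ∀ n S M : ℕ, 1 ≤ M → 1 ≤ S →
    C * (Nat.log 2 (n * S) + 1) ^ 8 ≤ n →
    C * (M * ((Nat.log 2 (Nat.log 2 (n * S) + 1) + 1) * (Nat.log 2 (n * S) + 1) ^ 3)) ≤ n →
    ∃ T : Finset (EdgeVar n), T.card ≤
      C * (M * ((Nat.log 2 (Nat.log 2 (n * S) + 1) + 1) * (Nat.log 2 (n * S) + 1) ^ 3)) ∧
    ∃ (N : ℕ) (P Q : Fin N → SimpleGraph (Fin n)),
      0 < N ∧ (∀ i, HasClique (P i)) ∧ (∀ i, ¬ HasClique (Q i)) ∧
      ∀ s ≤ S, ∀ D : Circuit (EdgeVar n) s, D.Computes (cliqueFn n) →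
        (univ.filter fun i => ¬ ∃ U ⊆ T,
          D.Hazard0 (fun e => (Q i).Adj e.1.1 e.1.2) U).card * M ≤ 9 * N ∧
        (univ.filter fun i => ¬ ∃ U ⊆ T,
          D.Hazard1 (fun e => (P i).Adj e.1.1 e.1.2) U).card * M ≤ 9 * N := by
  obtain ⟨C, hC⟩ := star_families
  refine ⟨C, fun n S M hM hS hn hn' => ?_⟩
  obtain ⟨T, hT, G0, N, P, Q, hN, hP, hQ, hP', hQ', h⟩ := hC n S M hM hS hn hn'
  refine ⟨T, hT, N, P, Q, hN, hP, hQ, fun s hs D hD => ?_⟩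
  refine hazards_avg hN hP hQ hP' hQ' D hD fun c => ?_
  have h1 := h (SliceCircuits.EdgeVar n × Bool) s D.toMod (railMap T G0 c) univ
    (fun v hv => absurd (mem_univ v) hv) hs
  rw [D.toMod_weight] at h1
  push_cast at h1 ⊢
  rw [mul_one] at h1
  exact h1

/-- Small circuits for the clique function have hazards of few bits. -/
theorem poly_star (c : ℕ) : ∃ C n₁ : ℕ, ∀ n ≥ n₁,
    C * (Nat.log 2 n ^ 3 * Nat.log 2 (Nat.log 2 n)) ≤ n ∧
    ∃ T : Finset (EdgeVar n), T.card ≤ C * (Nat.log 2 n ^ 3 * Nat.log 2 (Nat.log 2 n)) ∧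
      ∀ s ≤ n ^ c, ∀ D : Circuit (EdgeVar n) s, D.Computes (cliqueFn n) →
        (∃ x U, U ⊆ T ∧ D.Hazard0 x U) ∧ ∃ x U, U ⊆ T ∧ D.Hazard1 x U := by
  classical
  obtain ⟨C, hC⟩ := haz_star
  obtain ⟨n₂, h2⟩ := SliceCircuits.log_pow_le_sqrt (C * (2 * c + 2) ^ 8)
  obtain ⟨K, hK⟩ : ∃ K, K = C * (10 * ((Nat.log 2 (2 * c + 2) + 3) * (2 * c + 2) ^ 3)) := ⟨_, rfl⟩
  obtain ⟨n₃, h3⟩ := SliceCircuits.log_pow_le_sqrt K
  refine ⟨K, n₂ + n₃ + 4, fun n hn => ?_⟩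
  obtain ⟨l, hl⟩ : ∃ l, l = Nat.log 2 n := ⟨_, rfl⟩
  have hl2 : 2 ≤ l := by
    rw [hl]
    exact Nat.le_log_of_pow_le (by norm_num) (by omega)
  have hll : 1 ≤ Nat.log 2 l := Nat.le_log_of_pow_le (by norm_num) (by omega)
  have hlog := SliceCircuits.log_size n (n ^ c) c (by omega) le_rfl
  obtain ⟨L, hLdef⟩ : ∃ L, L = Nat.log 2 (n * n ^ c) + 1 := ⟨_, rfl⟩
  have h4 := h2 n (by omega)
  have h5 := h3 n (by omega)
  have hC' := hC n (n ^ c) 10 (by norm_num) (Nat.one_le_pow _ _ (by omega))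
  rw [← hLdef] at hlog hC'
  rw [← hl] at hlog h4 h5 ⊢
  have h6 : C * L ^ 8 ≤ C * (2 * c + 2) ^ 8 * l ^ 8 := by
    calc C * L ^ 8 ≤ C * ((2 * c + 2) * l) ^ 8 :=
          Nat.mul_le_mul_left _ (Nat.pow_le_pow_left hlog 8)
      _ = C * (2 * c + 2) ^ 8 * l ^ 8 := by rw [mul_pow, mul_assoc]
  have h7 : Nat.log 2 L ≤ Nat.log 2 (2 * c + 2) + 1 + Nat.log 2 l := by
    have h8 : L < 2 ^ (Nat.log 2 (2 * c + 2) + 1 + (Nat.log 2 l + 1)) := by
      rw [pow_add]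
      calc L ≤ (2 * c + 2) * l := hlog
        _ < _ := Nat.mul_lt_mul'' (Nat.lt_pow_succ_log_self (by norm_num) _)
          (Nat.lt_pow_succ_log_self (by norm_num) _)
    have h9 : Nat.log 2 L < Nat.log 2 (2 * c + 2) + 1 + (Nat.log 2 l + 1) := by
      rcases Nat.eq_zero_or_pos L with h | h
      · subst h
        simp
      · exact Nat.log_lt_of_lt_pow (by omega) h8
    omega
  have h8 : Nat.log 2 L + 1 ≤ (Nat.log 2 (2 * c + 2) + 3) * Nat.log 2 l := by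
    calc Nat.log 2 L + 1 ≤ (Nat.log 2 (2 * c + 2) + 2) * 1 + Nat.log 2 l := by omega
      _ ≤ (Nat.log 2 (2 * c + 2) + 2) * Nat.log 2 l + Nat.log 2 l :=
        Nat.add_le_add_right (Nat.mul_le_mul_left _ hll) _
      _ = _ := by ring
  have h9 : C * (10 * ((Nat.log 2 L + 1) * L ^ 3)) ≤ K * (l ^ 3 * Nat.log 2 l) := by
    calc C * (10 * ((Nat.log 2 L + 1) * L ^ 3)) ≤
          C * (10 * (((Nat.log 2 (2 * c + 2) + 3) * Nat.log 2 l) * ((2 * c + 2) * l) ^ 3)) :=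
          Nat.mul_le_mul_left _ (Nat.mul_le_mul_left _ (Nat.mul_le_mul h8
            (Nat.pow_le_pow_left hlog 3)))
      _ = K * (l ^ 3 * Nat.log 2 l) := by rw [hK]; ring
  have h10 : K * (l ^ 3 * Nat.log 2 l) ≤ n := by
    have h11 : l ^ 3 * Nat.log 2 l ≤ l ^ 8 := by
      calc l ^ 3 * Nat.log 2 l ≤ l ^ 3 * l := Nat.mul_le_mul_left _ (Nat.log_le_self 2 l)
        _ = l ^ 4 := (pow_succ _ _).symm
        _ ≤ l ^ 8 := Nat.pow_le_pow_right (by omega) (by norm_num)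
    calc K * (l ^ 3 * Nat.log 2 l) ≤ K * l ^ 8 := Nat.mul_le_mul_left _ h11
      _ ≤ Nat.sqrt n := h5
      _ ≤ n := Nat.sqrt_le_self n
  refine ⟨h10, ?_⟩
  obtain ⟨T, hT, N, P, Q, hN, -, -, h⟩ :=
    hC' ((h6.trans h4).trans (Nat.sqrt_le_self n)) (h9.trans h10)
  refine ⟨T, hT.trans h9, fun s hs D hD => ?_⟩
  obtain ⟨ha, hb⟩ := h s hs D hD
  constructor
  · by_contra hc
    rw [filter_true_of_mem, card_univ, Fintype.card_fin] at ha
    · omega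
    · rintro i - ⟨U, hU, hx⟩
      exact hc ⟨_, U, hU, hx⟩
  · by_contra hc
    rw [filter_true_of_mem, card_univ, Fintype.card_fin] at hb
    · omega
    · rintro i - ⟨U, hU, hx⟩
      exact hc ⟨_, U, hU, hx⟩

/-- Small circuits for the clique function have hazards of `k(n)` bits if
`k(n) = ω(log³ n · log log n)`. -/
theorem poly_few {k : ℕ → ℕ} (hk : ∀ C : ℕ, ∃ n₀ : ℕ, ∀ n ≥ n₀,
    C * (Nat.log 2 n ^ 3 * Nat.log 2 (Nat.log 2 n)) ≤ k n) (c : ℕ) :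
    ∃ n₁ : ℕ, ∀ n ≥ n₁, ∀ s ≤ n ^ c, ∀ D : Circuit (EdgeVar n) s, D.Computes (cliqueFn n) →
      ¬ D.Free0 (k n) ∧ ¬ D.Free1 (k n) := by
  obtain ⟨C, n₂, h2⟩ := poly_star c
  obtain ⟨n₀, h0⟩ := hk C
  refine ⟨n₀ + n₂, fun n hn s hs D hD => ?_⟩
  have h3 := h0 n (by omega)
  obtain ⟨-, T, hT, h⟩ := h2 n (by omega)
  obtain ⟨⟨x, U, hU, hx⟩, y, W, hW, hy⟩ := h s hs D hD
  exact ⟨fun hF => hF x U ((card_le_card hU).trans (hT.trans h3)) hx,
    fun hF => hF y W ((card_le_card hW).trans (hT.trans h3)) hy⟩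

end Pool.Agent.HazardCircuits
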