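import Mathlib
import Pool.Agent.Lib.MP_0a1b52_lc_HAZ.Clique
import Pool.Agent.Lib.MP_0a1b52_lc_HAZ.Asym2
import Pool.Agent.Lib.MP_0a1b52_lc_HAZ.Star2

/-!
The theorems in the definitions of the hand-in.
-/

namespace Pool.Agent.CliqueHazards

open Finset

open HazardCircuits (Circuit lit)

theorem clq_iff {n s : ℕ} (D : Circuit (EdgeVar n) s) :
    Clq D ↔ D.Computes (HazardCircuits.cliqueFn n) := by
  constructor
  · intro h x
    have h1 : edges (HazardCircuits.graphOf x) = x := by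
      funext e
      obtain ⟨⟨a, b⟩, hab⟩ := e
      have hab' : a < b := hab
      apply propext
      show ((∃ h : a < b, x ⟨(a, b), h⟩) ∨ ∃ h : b < a, x ⟨(b, a), h⟩) ↔ x ⟨(a, b), hab⟩
      constructor
      · rintro (⟨_, h⟩ | ⟨h, _⟩)
        · exact h
        · exact absurd h (lt_asymm hab')
      · intro h
        exact Or.inl ⟨hab', h⟩
    have h2 := h (HazardCircuits.graphOf x)
    rw [h1] at h2
    exact h2
  · intro h G
    have h1 := h (edges G)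
    have h2 : HazardCircuits.graphOf (edges G) = G := HazardCircuits.graphOf_ofGraph G
    show D.Accepts (lit (edges G)) ↔ SliceCircuits.HasClique G
    rw [h1]
    show SliceCircuits.HasClique (HazardCircuits.graphOf (edges G)) ↔ _
    rw [h2]

theorem polyWith_iff (P : ∀ n s : ℕ, Circuit (EdgeVar n) s → Prop) :
    PolyWith P ↔ HazardCircuits.PolyWith P := by
  unfold PolyWith HazardCircuits.PolyWith
  simp only [clq_iff]

theorem quasiPolyWith_iff (P : ∀ n s : ℕ, Circuit (EdgeVar n) s → Prop) :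
    QuasiPolyWith P ↔ HazardCircuits.QuasiPolyWith P := by
  unfold QuasiPolyWith HazardCircuits.QuasiPolyWith
  simp only [clq_iff]

theorem q1_iff : Q1 ↔ SliceCircuits.Q1 := Iff.rfl

/-- The lower bound, with one set of exceptions. -/
theorem avg : ∃ C : ℕ, ∀ n S : ℕ, C * (Nat.log 2 (n * S) + 1) ^ 8 ≤ n →
    ∀ T : Finset (EdgeVar n), T.Nonempty →
    ∃ (N : ℕ) (P Q : Fin N → SimpleGraph (Fin n)),
      0 < N ∧ (∀ i, HasClique (P i)) ∧ (∀ i, ¬ HasClique (Q i)) ∧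
      ∀ s ≤ S, ∀ D : Circuit (EdgeVar n) s, Clq D → ∃ I : Finset (Fin N),
        I.card * T.card ≤ C * (Nat.log 2 (n * S) + 1) ^ 8 * N ∧
        ∀ i ∉ I, (∃ U ⊆ T, D.Hazard0 (edges (Q i)) U) ∧
          ∃ U ⊆ T, D.Hazard1 (edges (P i)) U := by
  classical
  obtain ⟨C, hC⟩ := HazardCircuits.haz_avg
  refine ⟨2 * C, fun n S hn T hT => ?_⟩
  have hn' : C * (Nat.log 2 (n * S) + 1) ^ 8 ≤ n := by
    refine le_trans (Nat.mul_le_mul_right _ ?_) hn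
    omega
  obtain ⟨N, P, Q, hN, hP, hQ, h⟩ := hC n S hn' T hT
  refine ⟨N, P, Q, hN, hP, hQ, fun s hs D hD => ?_⟩
  obtain ⟨h0, h1⟩ := h s hs D ((clq_iff D).1 hD)
  refine ⟨(univ.filter fun i => ¬ ∃ U ⊆ T, D.Hazard0 (edges (Q i)) U) ∪
    (univ.filter fun i => ¬ ∃ U ⊆ T, D.Hazard1 (edges (P i)) U), ?_, fun i hi => ?_⟩
  · have h2 : (univ.filter fun i => ¬ ∃ U ⊆ T, D.Hazard0 (edges (Q i)) U).card * T.card ≤
        C * (Nat.log 2 (n * S) + 1) ^ 8 * N := by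
      convert h0 using 4
      exact Iff.rfl
    have h3 : (univ.filter fun i => ¬ ∃ U ⊆ T, D.Hazard1 (edges (P i)) U).card * T.card ≤
        C * (Nat.log 2 (n * S) + 1) ^ 8 * N := by
      convert h1 using 4
      exact Iff.rfl
    calc _ ≤ ((univ.filter fun i => ¬ ∃ U ⊆ T, D.Hazard0 (edges (Q i)) U).card +
          (univ.filter fun i => ¬ ∃ U ⊆ T, D.Hazard1 (edges (P i)) U).card) * T.card :=
          Nat.mul_le_mul_right _ (card_union_le _ _)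
      _ ≤ C * (Nat.log 2 (n * S) + 1) ^ 8 * N + C * (Nat.log 2 (n * S) + 1) ^ 8 * N := by
          rw [Nat.add_mul]
          exact Nat.add_le_add h2 h3
      _ = _ := by ring
  · rw [mem_union, mem_filter, mem_filter] at hi
    constructor
    · by_contra h2
      exact hi (Or.inl ⟨mem_univ _, h2⟩)
    · by_contra h2
      exact hi (Or.inr ⟨mem_univ _, h2⟩)

theorem upper (V : Type) [Fintype V] (s : ℕ) (D : Circuit V s) (k : ℕ) :
    (∃ s' ≤ 30 * 16 ^ k * (Fintype.card V + s) ^ 3, ∃ D' : Circuit V s',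
      (∀ x, D'.Accepts (lit x) ↔ D.Accepts (lit x)) ∧ D'.Free0 k) ∧
    (∃ s' ≤ 30 * 16 ^ k * (Fintype.card V + s) ^ 3, ∃ D' : Circuit V s',
      (∀ x, D'.Accepts (lit x) ↔ D.Accepts (lit x)) ∧ D'.Free1 k) ∧
    ∀ T : Finset V, ∃ s' ≤ 2 ^ T.card * s + 4 ^ T.card + 3, ∃ D' : Circuit V s',
      (∀ x, D'.Accepts (lit x) ↔ D.Accepts (lit x)) ∧ D'.FreeIn T := by
  classical
  exact ⟨HazardCircuits.few_hazards0 D k, HazardCircuits.few_hazards1 D k,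
    HazardCircuits.no_hazards_in D⟩

theorem q1_iff0 (c : ℕ) : Q1 ↔ ¬ PolyWith fun n _ D => D.Free0 (c * Nat.log 2 n) := by
  rw [polyWith_iff]
  exact HazardCircuits.Q1_iff0 c

theorem q1_iff1 (c : ℕ) : Q1 ↔ ¬ PolyWith fun n _ D => D.Free1 (c * Nat.log 2 n) := by
  rw [polyWith_iff]
  exact HazardCircuits.Q1_iff1 c

theorem q1_iff_in (c : ℕ) (T : ∀ n, Finset (EdgeVar n))
    (hT : ∀ n, (T n).card ≤ c * Nat.log 2 n) :
    Q1 ↔ ¬ PolyWith fun n _ D => D.FreeIn (T n) := by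
  rw [polyWith_iff]
  exact HazardCircuits.Q1_iff_in c T hT

theorem lower_in (T : ∀ n, Finset (EdgeVar n))
    (hT : ∀ C : ℕ, ∃ n₀ : ℕ, ∀ n ≥ n₀, C * Nat.log 2 n ^ 8 ≤ (T n).card) (c : ℕ) :
    ∃ n₁ : ℕ, ∀ n ≥ n₁, ∀ s ≤ n ^ c, ∀ D : Circuit (EdgeVar n) s, Clq D →
      (∃ x, ∃ U ⊆ T n, D.Hazard0 x U) ∧ ∃ x, ∃ U ⊆ T n, D.Hazard1 x U := by
  obtain ⟨n₁, h1⟩ := HazardCircuits.poly_lower_in HazardCircuits.haz_lower T hT c
  exact ⟨n₁, fun n hn s hs D hD => h1 n hn s hs D ((clq_iff D).1 hD)⟩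

theorem lower_few (k : ℕ → ℕ) (hk : ∀ C : ℕ, ∃ n₀ : ℕ, ∀ n ≥ n₀,
    C * (Nat.log 2 n ^ 3 * Nat.log 2 (Nat.log 2 n)) ≤ k n) (c : ℕ) :
    ∃ n₁ : ℕ, ∀ n ≥ n₁, ∀ s ≤ n ^ c, ∀ D : Circuit (EdgeVar n) s, Clq D →
      ¬ D.Free0 (k n) ∧ ¬ D.Free1 (k n) := by
  obtain ⟨n₁, h1⟩ := HazardCircuits.poly_few hk c
  exact ⟨n₁, fun n hn s hs D hD => h1 n hn s hs D ((clq_iff D).1 hD)⟩

theorem quasi (k : ℕ → ℕ) :
    (QuasiPolyWith (fun n _ D => D.Free0 (k n) ∧ D.Free1 (k n)) ↔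
      QuasiPolyWith (fun _ _ _ => True) ∧ ∃ d n₀ : ℕ, ∀ n ≥ n₀, k n ≤ Nat.log 2 n ^ d) ∧
    (QuasiPolyWith (fun n _ D => D.Free0 (k n) ∨ D.Free1 (k n)) ↔
      QuasiPolyWith (fun _ _ _ => True) ∧ ∃ d n₀ : ℕ, ∀ n ≥ n₀, k n ≤ Nat.log 2 n ^ d) := by
  simp only [quasiPolyWith_iff]
  exact HazardCircuits.qp_both HazardCircuits.haz_lower k

end Pool.Agent.CliqueHazards
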